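import Pool.Agent.MP_b5e119_nt.G55.Defs

namespace Pool.Agent.G55

open Finset Filter Topology Pool.Agent.G60 Pool.Agent.G42
open Pool.Agent.G27 (nu re EX UN)

theorem dirc_mono {M : ℕ} (χ : Ch M) {y z : ℕ} (h : y ≤ z) : SL χ y ≤ SL χ z := by
  unfold SL
  refine sum_le_sum_of_subset_of_nonneg (filter_subset_filter _ (Icc_subset_Icc le_rfl h)) ?_
  intro i _ _
  positivity

theorem dirc_pow {M z n k : ℕ} {t : ℝ} (hM : 1 ≤ M) (hz : (z : ℝ) ≤ (M : ℝ) ^ t)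
    (ht : t * n ≤ k) : z ^ n ≤ M ^ k := by
  have hM' : (1 : ℝ) ≤ M := by exact_mod_cast hM
  have h1 : (z : ℝ) ^ n ≤ ((M : ℝ) ^ t) ^ n := pow_le_pow_left₀ (Nat.cast_nonneg z) hz n
  rw [← Real.rpow_natCast ((M : ℝ) ^ t), ← Real.rpow_mul (by linarith)] at h1
  have h2 : (M : ℝ) ^ (t * n) ≤ (M : ℝ) ^ (k : ℝ) := Real.rpow_le_rpow_of_exponent_le hM' ht
  rw [Real.rpow_natCast] at h2
  exact_mod_cast h1.trans h2

theorem dirc_le {M z K : ℕ} (hM : 1 ≤ M) (hK : 10 ≤ K) (hz : (z : ℝ) ≤ (M : ℝ) ^ (0.662 : ℝ)) :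
    z ≤ M / 2 ^ (Nat.log 2 M / K) := by
  have h1 : z ^ 3 ≤ M ^ 2 := dirc_pow hM hz (by norm_num)
  have h2 : (2 ^ (Nat.log 2 M / K)) ^ 3 ≤ M := by
    rw [← pow_mul]
    refine le_trans (Nat.pow_le_pow_right two_pos ?_) (Nat.pow_log_le_self 2 (by omega))
    have := Nat.div_mul_le_self (Nat.log 2 M) K
    nlinarith [Nat.zero_le (Nat.log 2 M / K)]
  rw [Nat.le_div_iff_mul_le (by positivity)]
  have h3 : (z * 2 ^ (Nat.log 2 M / K)) ^ 3 ≤ M ^ 3 := by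
    rw [mul_pow]
    calc z ^ 3 * (2 ^ (Nat.log 2 M / K)) ^ 3 ≤ M ^ 2 * M := Nat.mul_le_mul h1 h2
      _ = M ^ 3 := by ring
  exact (Nat.pow_le_pow_iff_left (by norm_num)).1 h3

theorem dirc_big {M c : ℕ} (hM : 6 ≤ M) (hc0 : 0 < c) (hc : (c : ℝ) ≤ (M : ℝ) ^ (0.334 : ℝ)) :
    M ≤ ((M - 1) / c) ^ 5 := by
  have h1 : c ^ 5 ≤ M ^ 2 := dirc_pow (by omega) hc (by norm_num)
  have h2 : c ≤ M - 1 := by
    by_contra h
    have h3 : M ^ 5 ≤ c ^ 5 := Nat.pow_le_pow_left (by omega) 5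
    have h4 : M ^ 2 < M ^ 5 := Nat.pow_lt_pow_right (by omega) (by norm_num)
    omega
  have h3 : 1 ≤ (M - 1) / c := (Nat.le_div_iff_mul_le hc0).2 (by omega)
  have h4 := Nat.lt_div_mul_add (a := M - 1) hc0
  set Y := (M - 1) / c
  have h5 : M ≤ 2 * c * Y := by
    have : c ≤ Y * c := Nat.le_mul_of_pos_left c h3
    have e : 2 * c * Y = Y * c + Y * c := by ring
    omega
  have h6 : M ^ 5 ≤ (2 * c * Y) ^ 5 := Nat.pow_le_pow_left h5 5
  have h7 : (2 * c * Y) ^ 5 ≤ 32 * M ^ 2 * Y ^ 5 := by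
    calc (2 * c * Y) ^ 5 = 32 * c ^ 5 * Y ^ 5 := by ring
      _ ≤ 32 * M ^ 2 * Y ^ 5 := by gcongr
  have h8 : 32 ≤ M ^ 2 := by nlinarith
  have h9 : 32 * M ^ 2 * M ≤ M ^ 5 := by
    calc 32 * M ^ 2 * M ≤ M ^ 2 * M ^ 2 * M := by gcongr
      _ = M ^ 5 := by ring
  exact Nat.le_of_mul_le_mul_left (h9.trans (h6.trans h7)) (by positivity)

open Classical in
/-- The good cofactors of a split prime. -/
noncomputable def dircG {M : ℕ} (χ : Ch M) (e e' : ℤ) (c : ℕ) : Finset ℕ :=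
  {u ∈ Icc 1 ((M - 1) / c) | ¬Sp χ u ∧ (c * u).Coprime M ∧ lam (c * u) = e ∧ lam (M - c * u) = e'}

theorem dirc_sum {M : ℕ} (χ : Ch M) (e e' : ℤ) (P : Finset ℕ)
    (hP : ∀ c ∈ P, c.Prime ∧ re χ c = 1) : ∑ c ∈ P, #(dircG χ e e' c) ≤ cU M e e' := by
  classical
  rw [← card_sigma]
  unfold cU
  refine card_le_card_of_injOn (fun z => z.1 * z.2) ?_ ?_
  · rintro ⟨c, u⟩ hz
    simp only [coe_sigma, Set.mem_sigma_iff, mem_coe, dircG, mem_filter, mem_Icc] at hz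
    obtain ⟨h1, ⟨h2, h3⟩, -, h5, h6, h7⟩ := hz
    have hc := (hP c h1).1.pos
    simp only [coe_filter, Set.mem_ofPred_eq, mem_Icc]
    refine ⟨⟨Nat.mul_pos hc h2, ?_⟩, h5, h6, h7⟩
    rw [mul_comm]
    exact (Nat.le_div_iff_mul_le hc).1 h3
  · rintro ⟨c, u⟩ hz ⟨c', u'⟩ hz' h
    simp only [coe_sigma, Set.mem_sigma_iff, mem_coe, dircG, mem_filter, mem_Icc] at hz hz'
    have h : c * u = c' * u' := h
    have hc := hP c hz.1
    have hc' := hP c' hz'.1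
    have e1 : c = c' := by
      rcases (hc.1.dvd_mul).1 (h ▸ Dvd.intro u rfl : c ∣ c' * u') with h1 | h1
      · exact (Nat.prime_dvd_prime_iff_eq hc.1 hc'.1).1 h1
      · exact absurd ⟨c, hc.1, hc.2, h1⟩ hz'.2.2.1
    subst e1
    have e2 : u = u' := Nat.eq_of_mul_eq_mul_left hc.1.pos h
    subst e2
    rfl

open Classical in
theorem dirc_cover (hN : NSL_s) {M : ℕ} (χ : Ch M) (e e' : ℤ) (c : ℕ) (hχ : χ ^ 2 = 1)
    (he' : e' = 1 ∨ e' = -1) (hs : re χ (M - 1) = -(e * e')) (hc : c.Prime) (hr : re χ c = 1)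
    (hM : 1 ≤ M) :
    #{u ∈ Icc 1 ((M - 1) / c) | re χ (M - c * u) = e' ∧
      ∀ q : ℕ, q.Prime → q ∣ M - c * u → (q : ℝ) ≤ (M : ℝ) ^ (0.662 : ℝ)} ≤
    #(dircG χ e e' c) + #{u ∈ Icc 1 ((M - 1) / c) | (M - c * u).Coprime M ∧
      ∃ q : ℕ, q.Prime ∧ re χ q = 1 ∧ q ≤ ⌊(M : ℝ) ^ (0.662 : ℝ)⌋₊ ∧ q ∣ M - c * u} +
      BU χ ((M - 1) / c) := by
  unfold BU
  refine le_trans (card_le_card ?_) ((card_union_le _ _).trans
    (Nat.add_le_add_right (card_union_le _ _) _))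
  intro u hu
  simp only [mem_filter] at hu
  obtain ⟨h1, h2, h3⟩ := hu
  have h1' := mem_Icc.1 h1
  have hcu : c * u ≤ M - 1 := by
    rw [mul_comm]; exact (Nat.le_div_iff_mul_le hc.pos).1 h1'.2
  have hb : (M - c * u).Coprime M := by
    by_contra h
    rw [G27.re_nonunit χ h] at h2
    omega
  have hcu' : (c * u).Coprime M := by
    have h4 : (M - c * u).Coprime (c * u) := by
      have e1 : M = c * u + (M - c * u) := by omega
      have h5 := hb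
      nth_rewrite 2 [e1] at h5
      exact (Nat.coprime_add_self_right).1 h5
    have e1 : M = M - c * u + c * u := by omega
    have h6 : (c * u).Coprime (M - c * u + c * u) := (Nat.coprime_add_self_right).2 h4.symm
    rwa [← e1] at h6
  have hu' : u.Coprime M := Nat.Coprime.coprime_mul_left hcu'
  simp only [mem_union, mem_filter, dircG]
  by_cases k1 : Sp χ u
  · exact Or.inr ⟨h1, hu', k1⟩
  by_cases k2 : Sp χ (M - c * u)
  · obtain ⟨q, q1, q2, q3⟩ := k2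
    exact Or.inl (Or.inr ⟨h1, hb, q, q1, q2, Nat.le_floor (h3 q q1 q3), q3⟩)
  refine Or.inl (Or.inl ⟨h1, k1, hcu', ?_, ?_⟩)
  · have e1 : re χ (c * u) = re χ ((M - 1) * (M - c * u)) := by
      refine G27.re_congr χ ?_
      rw [Nat.cast_mul (M - 1), Nat.cast_sub hM, Nat.cast_sub (by omega : c * u ≤ M),
        ZMod.natCast_self]
      push_cast
      ring
    rw [G27.re_mul hχ, G27.re_mul hχ, hr, hs, h2] at e1
    rw [lam_mul hc.ne_zero (by omega), lam_prime hc, hN M χ u hχ (by omega) hu' k1]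
    rcases he' with rfl | rfl <;> linarith
  · rw [hN M χ _ hχ (by omega) hb k2, h2]

theorem dirc_row (hA : DIRA_s) (hB : DIRB_s) (hU : BADU_s) (hN : NSL_s) : DIRC_s := by
  obtain ⟨κ, N₁, hκ, hA⟩ := hA
  obtain ⟨N₂, hB⟩ := hB (κ / 8) (by positivity)
  obtain ⟨K, N₃, hK, hU⟩ := hU (κ / 8) 5 (by positivity)
  refine ⟨min (κ / 8) (1 / 4), K + 10, N₁ + N₂ + N₃ + 6, lt_min (by positivity) (by norm_num),
    min_le_right _ _, by omega, ?_⟩
  intro M _ χ y e e' hM hχ hχ1 he he' hs hS hy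
  have hM1 : 1 ≤ M := by omega
  have hM' : (1 : ℝ) ≤ M := by exact_mod_cast hM1
  have hexp : (M : ℝ) ^ (0.334 : ℝ) ≤ (M : ℝ) ^ (0.662 : ℝ) :=
    Real.rpow_le_rpow_of_exponent_le hM' (by norm_num)
  refine ⟨(dirc_mono χ (dirc_le hM1 (by omega) (hy.trans hexp))).trans hS, ?_⟩
  have hS' := hS.trans (min_le_left _ _)
  have hfl : ((⌊(M : ℝ) ^ (0.662 : ℝ)⌋₊ : ℕ) : ℝ) ≤ (M : ℝ) ^ (0.662 : ℝ) :=
    Nat.floor_le (by positivity)
  have hS1 := (dirc_mono χ (dirc_le (K := K + 10) hM1 (by omega) hfl)).trans hS'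
  have key : ∀ c ∈ {q ∈ Icc 1 y | q.Prime ∧ re χ q = 1},
      min (κ / 8) (1 / 4) * M.totient * (1 / (c : ℝ)) ≤ #(dircG χ e e' c) := by
    intro c hc
    simp only [mem_filter, mem_Icc] at hc
    obtain ⟨⟨c1, c2⟩, c3, c4⟩ := hc
    have c5 : (c : ℝ) ≤ (M : ℝ) ^ (0.334 : ℝ) := le_trans (by exact_mod_cast c2) hy
    have c6 : c.Coprime M := by
      by_contra h
      rw [G27.re_nonunit χ h] at c4
      omega
    have a1 := hA M χ c e' (by omega) hχ hχ1 he' c3 c4 c5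
    have a2 := hB M χ c _ (by omega) c3 c6 c5 hfl
    have a3 := hU M χ ((M - 1) / c) (by omega) (dirc_big (by omega) c1 c5)
      ((Nat.div_le_self _ _).trans (by omega))
    have a4 := dirc_cover hN χ e e' c hχ he' hs c3 c4 hM1
    have a5 : SL χ ((M - 1) / c / 2 ^ (Nat.log 2 M / K)) ≤ κ / 8 := by
      refine (dirc_mono χ ?_).trans hS'
      refine Nat.div_le_div ((Nat.div_le_self _ _).trans (by omega)) ?_ (by positivity)
      exact Nat.pow_le_pow_right two_pos (Nat.div_le_div_left (by omega) hK)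
    have hc0 : (0 : ℝ) < c := by exact_mod_cast c1
    have a6 : (((M - 1) / c : ℕ) : ℝ) / M ≤ 1 / c := by
      rw [div_le_div_iff₀ (by linarith) hc0, one_mul]
      exact_mod_cast (Nat.div_mul_le_self _ _).trans (Nat.sub_le M 1)
    set T : ℝ := M.totient * (1 / (c : ℝ)) with hT
    have hφ : (0 : ℝ) ≤ M.totient := Nat.cast_nonneg _
    have hT0 : 0 ≤ T := by positivity
    have b1 : κ * M.totient / c = κ * T := by rw [hT]; ring
    have b2 : (SL χ ⌊(M : ℝ) ^ (0.662 : ℝ)⌋₊ + κ / 8) * M.totient / c ≤ κ / 4 * T := by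
      have : (SL χ ⌊(M : ℝ) ^ (0.662 : ℝ)⌋₊ + κ / 8) * M.totient / c =
          (SL χ ⌊(M : ℝ) ^ (0.662 : ℝ)⌋₊ + κ / 8) * T := by rw [hT]; ring
      rw [this]
      exact mul_le_mul_of_nonneg_right (by linarith) hT0
    have b3 : (SL χ ((M - 1) / c / 2 ^ (Nat.log 2 M / K)) + κ / 8) * (((M - 1) / c : ℕ) : ℝ) *
        M.totient / M ≤ κ / 4 * T := by
      calc _ = (SL χ ((M - 1) / c / 2 ^ (Nat.log 2 M / K)) + κ / 8) *
            (M.totient * ((((M - 1) / c : ℕ) : ℝ) / M)) := by ring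
        _ ≤ κ / 4 * (M.totient * ((((M - 1) / c : ℕ) : ℝ) / M)) :=
          mul_le_mul_of_nonneg_right (by linarith) (by positivity)
        _ ≤ κ / 4 * T := by rw [hT]; gcongr
    have b4 : min (κ / 8) (1 / 4) * T ≤ κ / 8 * T :=
      mul_le_mul_of_nonneg_right (min_le_left _ _) hT0
    have a4' := (Nat.cast_le (α := ℝ)).2 a4
    push_cast at a4'
    have b5 : 0 ≤ κ * T := by positivity
    rw [mul_assoc]
    linarith
  unfold SL
  rw [mul_sum]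
  refine (sum_le_sum key).trans ?_
  exact_mod_cast dirc_sum χ e e' _ fun c hc => (mem_filter.1 hc).2

end Pool.Agent.G55
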