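import Pool.Agent.MP_b5e119_nt.G55.Defs

namespace Pool.Agent.G55

open Finset Filter Topology Pool.Agent.G60 Pool.Agent.G42 DirichletCharacter

theorem one_lift {N M : ℕ} (h : M ∣ N) (χ : Ch M) (y : ℕ) : SL (changeLevel h χ) y ≤ SL χ y := by
  refine sum_le_sum_of_subset_of_nonneg (fun q hq => ?_) fun _ _ _ => by positivity
  obtain ⟨h1, h2, h3⟩ := mem_filter.1 hq
  refine mem_filter.2 ⟨h1, h2, ?_⟩
  have hc : q.Coprime N := by
    by_contra hc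
    rw [G27.re_nonunit _ hc] at h3
    exact zero_ne_one h3
  have e := changeLevel_eq_cast_of_dvd' χ h (a := (q : ℤ)) (Nat.isCoprime_iff_coprime.2 hc)
  rw [Int.cast_natCast, Int.cast_natCast] at e
  unfold G27.re at h3 ⊢
  rwa [e] at h3

theorem one_row (hS : SLG_s) (hD : DIRC_s) (hM : MLE_s) : ONE_s := by
  obtain ⟨κ, K, N₁, hκ, hκ4, hK, hD⟩ := hD
  obtain ⟨η, hη, N₂, hS⟩ := hS κ K hκ (by omega)
  obtain ⟨C, N₃, hC, hM⟩ := hM
  obtain ⟨B, hB⟩ : ∃ B, B = N₁ + N₂ + 1 := ⟨_, rfl⟩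
  refine ⟨η, κ / C, B ^ 2 + N₃, hη, by positivity,
    fun N M _ _ h χ σ e e' hN h9 h2 h1 hσ he he' hE hp => ?_⟩
  have a1 : N ≤ M ^ 2 := by
    refine (Nat.pow_le_pow_iff_left (by norm_num : 999 ≠ 0)).1 (h9.trans ?_)
    rw [← pow_mul]
    exact Nat.pow_le_pow_right (NeZero.pos M) (by norm_num)
  have hM' : B ≤ M := (Nat.pow_le_pow_iff_left two_ne_zero).1 (by omega)
  have hN0 : (0 : ℝ) ≤ N := Nat.cast_nonneg _
  have hM1 : (1 : ℝ) ≤ M := by exact_mod_cast NeZero.pos M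
  obtain ⟨y, hy⟩ : ∃ y, y = ⌊(N : ℝ) ^ (0.333 : ℝ)⌋₊ := ⟨_, rfl⟩
  have y1 : (N : ℝ) ^ (0.333 : ℝ) ≤ y + 1 := hy ▸ (Nat.lt_floor_add_one _).le
  have y2 : (y : ℝ) ≤ (M : ℝ) ^ (0.334 : ℝ) := by
    refine (hy ▸ Nat.floor_le (by positivity) : (y : ℝ) ≤ (N : ℝ) ^ (0.333 : ℝ)).trans ?_
    have b1 : (N : ℝ) ^ ((999 : ℕ) : ℝ) ≤ (M : ℝ) ^ ((1000 : ℕ) : ℝ) := by
      rw [Real.rpow_natCast, Real.rpow_natCast]
      exact_mod_cast h9
    have b2 := Real.rpow_le_rpow (by positivity) b1 (by norm_num : (0 : ℝ) ≤ 1 / 3000)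
    rw [← Real.rpow_mul hN0, ← Real.rpow_mul (by linarith)] at b2
    calc (N : ℝ) ^ (0.333 : ℝ) = (N : ℝ) ^ (((999 : ℕ) : ℝ) * (1 / 3000)) := by
          congr 1
          norm_num
      _ ≤ _ := b2
      _ ≤ _ := Real.rpow_le_rpow_of_exponent_le hM1 (by norm_num)
  obtain ⟨c1, c2⟩ := hD M χ y e e' (by omega) h2 h1 he he' hp (hS M χ σ (by omega) h2 hσ hE) y2
  have c3 := one_lift h χ y
  have c4 := hM N (changeLevel h χ) y (by omega) (by rw [← map_pow, h2, map_one])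
    (fun c => h1 ((changeLevel_eq_one_iff h).1 c)) y1 (by linarith)
  refine le_trans ?_ c2
  have c5 := c4.trans (mul_le_mul_of_nonneg_left c3 hC.le)
  refine (mul_le_mul_of_nonneg_left c5 (by positivity)).trans (le_of_eq ?_)
  field_simp

end Pool.Agent.G55
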