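import Pool.Agent.MP_b5e119_nt.G55.Defs

namespace Pool.Agent.G55

open Finset Filter Topology Pool.Agent.G60 Pool.Agent.G42
open Pool.Agent.G27 (nu re EX UN)

theorem badu_big (K : ℝ) : ∃ w₀ : ℕ, ∀ w : ℕ, w₀ ≤ w → K * (w : ℝ) ^ 2 ≤ 2 ^ w := by
  have h := (tendsto_pow_const_div_const_pow_of_one_lt 2 (one_lt_two (α := ℝ))).const_mul K
  rw [mul_zero] at h
  obtain ⟨w₀, hw⟩ := eventually_atTop.1 (h.eventually (gt_mem_nhds one_pos))
  refine ⟨w₀, fun w h' => ?_⟩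
  have := hw w h'
  rw [← mul_div_assoc, div_lt_one (by positivity)] at this
  exact this.le

theorem badu_pi (z x r : ℕ) (hz : 2 ^ r ≤ z) : (#{q ∈ Ioc z x | q.Prime} : ℝ) * r ≤ 2 * x := by
  have h1 := Chebyshev.theta_le_log4_mul_x (x := x) (Nat.cast_nonneg x)
  rw [Chebyshev.theta, Nat.floor_natCast, show (4 : ℝ) = 2 ^ 2 by norm_num, Real.log_pow] at h1
  have h2 : ∑ q ∈ Ioc z x with q.Prime, Real.log q ≤ ∑ q ∈ Ioc 0 x with q.Prime, Real.log q :=
    sum_le_sum_of_subset_of_nonneg (filter_subset_filter _ (Ioc_subset_Ioc_left (Nat.zero_le _)))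
      fun q _ _ => Real.log_natCast_nonneg q
  have h3 := card_nsmul_le_sum {q ∈ Ioc z x | q.Prime} (fun q : ℕ => Real.log q) (r * Real.log 2)
    fun q hq => by
      rw [← Real.log_pow]
      refine Real.log_le_log (by positivity) ?_
      exact_mod_cast hz.trans (mem_Ioc.1 (mem_filter.1 hq).1).1.le
  rw [nsmul_eq_mul] at h3
  refine le_of_mul_le_mul_right ?_ (Real.log_pos one_lt_two)
  push_cast at h1
  linarith

theorem badu_cov {M : ℕ} (χ : Ch M) (y w : ℕ) :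
    BU χ y ≤ ∑ q ∈ Icc 1 (y / 2 ^ w) with (q.Prime ∧ re χ q = 1),
        #{t ∈ range (y / q) | (1 + t * 1).Coprime M} +
      ∑ n ∈ Ico 1 (2 ^ w) with n.Coprime M, #{q ∈ Ioc (y / 2 ^ w) (y / n) | q.Prime} := by
  classical
  refine le_trans (card_le_card (t := ({q ∈ Icc 1 (y / 2 ^ w) | q.Prime ∧ re χ q = 1}.biUnion
    fun q => {t ∈ range (y / q) | (1 + t * 1).Coprime M}.image fun t => q * (1 + t)) ∪
      ({n ∈ Ico 1 (2 ^ w) | n.Coprime M}.biUnion
        fun n => {q ∈ Ioc (y / 2 ^ w) (y / n) | q.Prime}.image fun q => q * n)) fun u hu => ?_)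
    ((card_union_le _ _).trans (add_le_add
      (card_biUnion_le.trans (sum_le_sum fun _ _ => card_image_le))
      (card_biUnion_le.trans (sum_le_sum fun _ _ => card_image_le))))
  obtain ⟨a, b, q, q1, q2, n, rfl⟩ := mem_filter.1 hu
  obtain ⟨a1, a2⟩ := mem_Icc.1 a
  have n0 : 0 < n := Nat.pos_of_mul_pos_left a1
  have n1 := b.coprime_mul_left
  by_cases h : q ≤ y / 2 ^ w
  · have : n ≤ y / q := (Nat.le_div_iff_mul_le q1.pos).2 (by rwa [mul_comm])
    have e : 1 + (n - 1) = n := by omega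
    exact mem_union_left _ (mem_biUnion.2 ⟨q, mem_filter.2 ⟨mem_Icc.2 ⟨q1.pos, h⟩, q1, q2⟩,
      mem_image.2 ⟨n - 1, mem_filter.2 ⟨mem_range.2 (by omega), by rwa [mul_one, e]⟩, by rw [e]⟩⟩)
  · rw [not_le] at h
    have : n < 2 ^ w := Nat.lt_of_mul_lt_mul_left
      (lt_of_le_of_lt a2 ((Nat.div_lt_iff_lt_mul (by positivity)).1 h))
    exact mem_union_right _ (mem_biUnion.2 ⟨n, mem_filter.2 ⟨mem_Ico.2 ⟨n0, this⟩, n1⟩,
      mem_image.2 ⟨q, mem_filter.2 ⟨mem_Ioc.2 ⟨h, (Nat.le_div_iff_mul_le n0).2 a2⟩, q1⟩, rfl⟩⟩)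

theorem badu_row (h1 : UNU_s) (h2 : HU_s) (h4 : G27.TAU_s) (h5 : G27.PHI_s) : BADU_s := by
  intro ε J hε
  obtain ⟨C, hC, hu⟩ := h2
  obtain ⟨C₂, hC₂, phi⟩ := h5
  obtain ⟨h, hh⟩ := exists_nat_ge (4 * C / ε + 1)
  have c0 : 0 < 4 * C / ε := by positivity
  have h0 : (0 : ℝ) < h := by linarith
  obtain ⟨K, hK⟩ : ∃ K, K = (h + 1) * (J + 1) := ⟨_, rfl⟩
  have K0 : 0 < K := by rw [hK]; positivity
  have Kr : (0 : ℝ) < K := by exact_mod_cast K0
  obtain ⟨C₁, hC₁, tau⟩ := h4.2 (1 / (4 * K)) (by positivity)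
  obtain ⟨w₀, big⟩ := badu_big ((4 * C₁ * C₂ * K / ε) ^ 2 + 4 * K)
  refine ⟨K, 2 ^ (K * (w₀ + 1)), K0, fun M χ y hM hJ hy => ?_⟩
  have hl : K * (w₀ + 1) ≤ Nat.log 2 M := Nat.le_log_of_pow_le one_lt_two hM
  have M0 : 0 < M := lt_of_lt_of_le (by positivity) hM
  have Mr : (0 : ℝ) < M := by exact_mod_cast M0
  have l2 : M < 2 ^ (Nat.log 2 M + 1) := Nat.lt_pow_succ_log_self one_lt_two M
  have l5 : 2 ^ Nat.log 2 M ≤ M := Nat.pow_log_le_self 2 M0.ne'
  have w1 : w₀ + 1 ≤ Nat.log 2 M / K := (Nat.le_div_iff_mul_le K0).2 (by rwa [mul_comm])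
  have w2 : K * (Nat.log 2 M / K) ≤ Nat.log 2 M := Nat.mul_div_le _ _
  have w3 : Nat.log 2 M < K * (Nat.log 2 M / K + 1) := Nat.lt_mul_div_succ _ K0
  have cov := badu_cov χ y (Nat.log 2 M / K)
  have hu' := hu M (Nat.log 2 M / K) M0
  have phi' := phi M
  generalize Nat.log 2 M = l at *
  generalize l / K = w at *
  have wp : 0 < w := by omega
  have wr : (1 : ℝ) ≤ w := by exact_mod_cast wp
  have f0 : K ≤ K * w := Nat.le_mul_of_pos_right _ wp
  rw [mul_add, mul_one] at w3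
  have lr : (l : ℝ) ≤ 2 * (K * w) := by exact_mod_cast (by omega : l ≤ 2 * (K * w))
  have l1 : (1 : ℝ) ≤ l := by exact_mod_cast (by omega : 1 ≤ l)
  have M2 : 2 ≤ M := le_trans (Nat.le_self_pow (by omega) 2) l5
  have J0 : J ≠ 0 := by
    rintro rfl
    rw [pow_zero] at hJ
    omega
  have y1 : 2 ^ (h * w) ≤ y / 2 ^ w := by
    rw [Nat.le_div_iff_mul_le (by positivity), ← pow_add, ← Nat.pow_le_pow_iff_left J0, ← pow_mul]
    refine (Nat.pow_le_pow_right two_pos (le_trans ?_ w2)).trans (l5.trans hJ)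
    rw [hK]
    nlinarith only [Nat.zero_le ((h + 1) * w)]
  have bg := big w (by omega)
  have ww : (w : ℝ) ≤ w ^ 2 := by nlinarith only [wr]
  have b1 : (4 * C₁ * C₂ * K / ε * w) ^ 2 ≤ 2 ^ w := by
    have : (0 : ℝ) ≤ 4 * K * w ^ 2 := by positivity
    rw [mul_pow]
    linarith only [bg, this]
  have b2 : 2 * l ≤ 2 ^ w := by
    have a1 : (0 : ℝ) ≤ (4 * C₁ * C₂ * K / ε) ^ 2 * w ^ 2 := by positivity
    have a2 := mul_le_mul_of_nonneg_left ww Kr.le
    have : (2 : ℝ) * l ≤ 2 ^ w := by linarith only [bg, a1, a2, lr]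
    exact_mod_cast this
  have b3 : ((M : ℝ) ^ (1 / (4 * (K : ℝ)))) ^ 2 ≤ 2 ^ w := by
    have a1 : (M : ℝ) ≤ 2 ^ (2 * (K * w)) := by
      exact_mod_cast l2.le.trans (Nat.pow_le_pow_right two_pos (by omega))
    refine (pow_le_pow_left₀ (by positivity) (Real.rpow_le_rpow Mr.le a1 (by positivity)) 2).trans
      (le_of_eq ?_)
    rw [← Real.rpow_natCast, ← Real.rpow_natCast, ← Real.rpow_natCast,
      ← Real.rpow_mul two_pos.le, ← Real.rpow_mul two_pos.le]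
    congr 1
    push_cast
    field_simp
    ring
  obtain ⟨D, hD⟩ : ∃ D : ℝ, D = M.totient / M := ⟨_, rfl⟩
  have D0 : 0 ≤ D := by rw [hD]; positivity
  have D1 : 1 ≤ C₂ * (2 * (K * w)) * D := by
    have a1 : (l : ℝ) ^ (1 / 4 : ℝ) ≤ l := Real.rpow_le_self_of_one_le l1 (by norm_num)
    have a2 := (phi' M2).trans (mul_le_mul_of_nonneg_left (a1.trans lr) (by positivity))
    rw [hD, ← mul_div_assoc, le_div_iff₀ Mr]
    linarith only [a2]
  have t1 : (#M.divisors : ℝ) ≤ ε / 2 * D * 2 ^ w := by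
    have a1 : (M : ℝ) ^ (1 / (4 * (K : ℝ))) * (4 * C₁ * C₂ * K / ε * w) ≤ 2 ^ w := by
      nlinarith only [b1, b3, sq_nonneg ((M : ℝ) ^ (1 / (4 * (K : ℝ))) - 4 * C₁ * C₂ * K / ε * w)]
    calc (#M.divisors : ℝ) ≤ C₁ * (M : ℝ) ^ (1 / (4 * (K : ℝ))) * (C₂ * (2 * (K * w)) * D) :=
          (tau M).trans (le_mul_of_one_le_right (by positivity) D1)
      _ = ε / 2 * D * ((M : ℝ) ^ (1 / (4 * (K : ℝ))) * (4 * C₁ * C₂ * K / ε * w)) := by
          field_simp; ring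
      _ ≤ _ := mul_le_mul_of_nonneg_left a1 (by positivity)
  have s1 : ((∑ q ∈ Icc 1 (y / 2 ^ w) with (q.Prime ∧ re χ q = 1),
      #{t ∈ range (y / q) | (1 + t * 1).Coprime M} : ℕ) : ℝ) ≤
        SL χ (y / 2 ^ w) * y * D + ε / 2 * D * y := by
    have a1 : (#{q ∈ Icc 1 (y / 2 ^ w) | q.Prime ∧ re χ q = 1} : ℝ) * 2 ^ w ≤ y := by
      have := (Nat.mul_le_mul_right (2 ^ w) (card_filter_le (Icc 1 (y / 2 ^ w))
        fun q => q.Prime ∧ re χ q = 1))
      rw [Nat.card_Icc, Nat.add_sub_cancel] at this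
      exact_mod_cast this.trans (Nat.div_mul_le_self _ _)
    rw [Nat.cast_sum]
    refine (sum_le_sum (g := fun q : ℕ => 1 / (q : ℝ) * y * D + ε / 2 * D * 2 ^ w)
      fun q _ => (h1 M 1 1 (y / q) M0 (Nat.coprime_one_left M)).trans (add_le_add ?_ t1)).trans ?_
    · rw [mul_div_assoc, ← hD, one_div_mul_eq_div]
      exact mul_le_mul_of_nonneg_right Nat.cast_div_le D0
    · rw [sum_add_distrib, ← sum_mul, ← sum_mul, sum_const, nsmul_eq_mul, SL]
      have := mul_le_mul_of_nonneg_left a1 (show 0 ≤ ε / 2 * D by positivity)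
      linarith only [this]
  have s2 : ((∑ n ∈ Ico 1 (2 ^ w) with n.Coprime M,
      #{q ∈ Ioc (y / 2 ^ w) (y / n) | q.Prime} : ℕ) : ℝ) ≤ ε / 2 * D * y := by
    rw [Nat.cast_sum]
    refine (sum_le_sum (g := fun n : ℕ => 2 * y / (h * w) * (1 / (n : ℝ))) fun n _ => ?_).trans ?_
    · have a1 := badu_pi _ (y / n) _ y1
      have a2 : ((y / n : ℕ) : ℝ) ≤ y / n := Nat.cast_div_le
      rw [div_mul_eq_mul_div, le_div_iff₀ (by positivity), mul_one_div, mul_div_assoc]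
      push_cast at a1
      linarith only [a1, a2]
    · rw [← mul_sum]
      refine (mul_le_mul_of_nonneg_left (hu' wp b2) (by positivity)).trans ?_
      rw [mul_div_assoc (C * w), ← hD]
      calc 2 * (y : ℝ) / (h * w) * (C * w * D) = ε / 2 * D * y * (4 * C / ε / h) := by
            field_simp; ring
        _ ≤ _ := mul_le_of_le_one_right (by positivity)
            ((div_le_one h0).2 (by linarith only [hh]))
  have cr := (Nat.cast_le (α := ℝ)).2 cov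
  rw [Nat.cast_add] at cr
  rw [mul_div_assoc, ← hD]
  linarith only [cr, s1, s2]

end Pool.Agent.G55
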