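import Pool.Agent.MP_b5e119_nt.G55.Defs

namespace Pool.Agent.G55

open Finset Filter Topology Pool.Agent.G60 Pool.Agent.G42
open Pool.Agent.G27 (nu re EX UN)

theorem brg_lam (n : ℕ) : lam n = 1 ∨ lam n = -1 := by
  unfold lam
  exact neg_one_pow_eq_or ℤ _

theorem brg_row : BRG_s := by
  intro M χ σ h2 hσ
  refine ⟨⟨fun n _ _ hn => ?_, fun a b ha hb _ => ?_⟩, ?_, fun q hq => ?_⟩
  · rcases brg_lam n with h | h <;> rcases G27.re_unit h2 hn with h' | h' <;> simp [h, h']
  · show lam (a * b) * re χ (a * b) = lam a * re χ a * (lam b * re χ b)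
    rw [lam_mul ha.ne' hb.ne', G27.re_mul h2]
    ring
  · unfold EX UY YY
    rw [filter_filter]
    congr 1
    ext n
    simp only [mem_filter, mem_Icc, mem_Ico, pow_zero, Nat.div_one]
    constructor
    · rintro ⟨⟨h1, h3⟩, hn, h4⟩
      refine ⟨⟨h1, by omega⟩, hn, fun h5 => h4 ?_⟩
      rcases G27.re_unit h2 hn with h' | h' <;> rw [h5, h'] <;> ring
    · rintro ⟨⟨h1, h3⟩, hn, h4⟩
      refine ⟨⟨h1, by omega⟩, hn, fun h5 => h4 ?_⟩
      rcases G27.re_unit h2 hn with h' | h' <;> rw [← h5, h'] <;> ring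
  · rw [lam_prime hq]
    constructor
    · intro h
      refine ⟨fun hd => ?_, by rw [h]; norm_num⟩
      have h3 := G27.re_nonunit χ (n := q) fun hc => (Nat.Prime.coprime_iff_not_dvd hq).1 hc hd
      rw [h] at h3
      exact one_ne_zero h3
    · rintro ⟨hd, h⟩
      refine (G27.re_unit h2 ((Nat.Prime.coprime_iff_not_dvd hq).2 hd)).resolve_right fun h3 => h ?_
      rw [h3]
      norm_num

end Pool.Agent.G55
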