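import Pool.Agent.MP_b5e119_nt.G55.Defs

namespace Pool.Agent.G55

open Finset Filter Topology Pool.Agent.G60 Pool.Agent.G42

theorem cls_row : CLS_s := by
  intro N e e' hN
  unfold cU cnt
  rw [← card_sigma]
  have hg : ∀ g a : ℕ, g ∣ N → a.Coprime (N / g) → Nat.gcd (g * a) N = g := fun g a h1 h2 => by
    conv_lhs => rw [← Nat.mul_div_cancel' h1, Nat.gcd_mul_left, h2.gcd_eq_one, mul_one]
  refine card_le_card_of_injOn (fun z => z.1 * z.2) ?_ ?_
  · rintro ⟨g, a⟩ h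
    simp only [coe_sigma, Set.mem_sigma_iff, mem_coe, Nat.mem_divisors, mem_filter, mem_Icc] at h ⊢
    obtain ⟨⟨⟨M, rfl⟩, -⟩, ⟨h1, h2⟩, -, h4, h5⟩ := h
    have g0 : 0 < g := Nat.pos_of_ne_zero (by rintro rfl; simp at hN)
    rw [Nat.mul_div_cancel_left _ g0] at h2 h5
    have hs : ∀ x : ℤ, lam g * (lam g * x) = x := fun x => by
      rcases lam_cases g with c | c <;> rw [c] <;> ring
    have l1 : g * a < g * M := Nat.mul_lt_mul_of_pos_left (by omega) g0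
    refine ⟨⟨Nat.mul_pos g0 h1, by omega⟩, ?_, ?_⟩
    · rw [lam_mul g0.ne' (by omega), h4, hs]
    · rw [← Nat.mul_sub, lam_mul g0.ne' (by omega), h5, hs]
  · rintro ⟨g, a⟩ h ⟨g', a'⟩ h' e0
    simp only [coe_sigma, Set.mem_sigma_iff, mem_coe, Nat.mem_divisors, mem_filter, mem_Icc] at h h'
    simp only at e0
    have e1 := hg g a h.1.1 h.2.2.1
    rw [e0, hg g' a' h'.1.1 h'.2.2.1] at e1
    subst e1
    have g0 : 0 < g' := Nat.pos_of_dvd_of_pos h.1.1 hN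
    rw [Nat.eq_of_mul_eq_mul_left g0 e0]

end Pool.Agent.G55
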