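import Pool.Agent.MP_b5e119_nt.G55.Defs

namespace Pool.Agent.G55

open Finset Filter Topology Pool.Agent.G60 Pool.Agent.G42
open Pool.Agent.G27 (nu re EX UN re_nonunit re_unit re_mul)

theorem dira_pow {M n : ℕ} {x : ℝ} (m : ℕ) (hx : 0 ≤ x) (h : 2 ^ n ≤ M) (hm : (m : ℝ) ≤ n * x) :
    ((2 ^ m : ℕ) : ℝ) ≤ (M : ℝ) ^ x := by
  have h1 : (2 : ℝ) ^ (n : ℝ) ≤ M := by
    rw [Real.rpow_natCast]
    exact_mod_cast h
  calc ((2 ^ m : ℕ) : ℝ) = (2 : ℝ) ^ (m : ℝ) := by rw [Real.rpow_natCast]; push_cast; rfl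
    _ ≤ (2 : ℝ) ^ (n * x : ℝ) := Real.rpow_le_rpow_of_exponent_le (by norm_num) hm
    _ = ((2 : ℝ) ^ (n : ℝ)) ^ x := Real.rpow_mul (by norm_num) _ _
    _ ≤ _ := Real.rpow_le_rpow (by positivity) h1 hx

theorem dira_pow' {M n : ℕ} {x : ℝ} (m : ℕ) (hx : 0 ≤ x) (h : M ≤ 2 ^ n) (hm : n * x ≤ (m : ℝ)) :
    (M : ℝ) ^ x ≤ ((2 ^ m : ℕ) : ℝ) := by
  have h1 : (M : ℝ) ≤ (2 : ℝ) ^ (n : ℝ) := by
    rw [Real.rpow_natCast]
    exact_mod_cast h
  calc (M : ℝ) ^ x ≤ ((2 : ℝ) ^ (n : ℝ)) ^ x := Real.rpow_le_rpow (by positivity) h1 hx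
    _ = (2 : ℝ) ^ (n * x : ℝ) := (Real.rpow_mul (by norm_num) _ _).symm
    _ ≤ (2 : ℝ) ^ (m : ℝ) := Real.rpow_le_rpow_of_exponent_le (by norm_num) hm
    _ = _ := by rw [Real.rpow_natCast]; push_cast; rfl

theorem dira_T {M k c T : ℕ} (h1 : (1 : ℝ) ≤ M) (h2 : (2 : ℝ) ≤ (M : ℝ) ^ (0.001 : ℝ))
    (hk : (k : ℝ) ≤ (M : ℝ) ^ (0.345 : ℝ)) (hc : (c : ℝ) ≤ (M : ℝ) ^ (0.334 : ℝ))
    (hT : M ≤ (T + 1) * (k * c)) : (M : ℝ) ^ (0.32 : ℝ) ≤ T ∧ 1 ≤ T := by
  have h0 : (0 : ℝ) < M := by linarith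
  have h3 : (1 : ℝ) ≤ (M : ℝ) ^ (0.32 : ℝ) := Real.one_le_rpow h1 (by norm_num)
  have h4 : (M : ℝ) ≤ (T + 1) * ((M : ℝ) ^ (0.345 : ℝ) * (M : ℝ) ^ (0.334 : ℝ)) := by
    have : (M : ℝ) ≤ (T + 1) * (k * c) := by exact_mod_cast hT
    refine this.trans ?_
    gcongr
  have h5 : (M : ℝ) = (M : ℝ) ^ (0.001 : ℝ) * (M : ℝ) ^ (0.32 : ℝ) *
      ((M : ℝ) ^ (0.345 : ℝ) * (M : ℝ) ^ (0.334 : ℝ)) := by
    rw [← Real.rpow_add h0, ← Real.rpow_add h0, ← Real.rpow_add h0]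
    norm_num
  have h6 : (0 : ℝ) < (M : ℝ) ^ (0.345 : ℝ) * (M : ℝ) ^ (0.334 : ℝ) := by positivity
  have h7 : (M : ℝ) ^ (0.001 : ℝ) * (M : ℝ) ^ (0.32 : ℝ) ≤ T + 1 :=
    le_of_mul_le_mul_right (h5 ▸ h4) h6
  have h8 : (M : ℝ) ^ (0.32 : ℝ) ≤ T := by nlinarith
  exact ⟨h8, by exact_mod_cast h3.trans h8⟩

/-- At most two large primes divide a small number. -/
theorem dira_two {a b : ℕ} (K : Finset ℕ) (ha : 338 ≤ a) (hb : 0 < b)
    (hb' : b < 2 ^ (1000 * a + 1000)) (hK : ∀ k ∈ K, k.Prime ∧ 2 ^ (339 * a) ≤ k ∧ k ∣ b) :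
    #K ≤ 2 := by
  have h1 : ∏ k ∈ K, k ∣ b :=
    Finset.prod_primes_dvd b (fun k hk => (hK k hk).1.prime) fun k hk => (hK k hk).2.2
  have h2 : (2 ^ (339 * a)) ^ #K ≤ ∏ k ∈ K, k :=
    Finset.pow_card_le_prod _ _ _ fun k hk => (hK k hk).2.1
  have h3 := (h2.trans (Nat.le_of_dvd hb h1)).trans_lt hb'
  rw [← pow_mul, Nat.pow_lt_pow_iff_right Nat.one_lt_two] at h3
  by_contra h
  have h4 : 339 * a * 3 ≤ 339 * a * #K := Nat.mul_le_mul_left _ (by omega)
  omega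

/-- The mass of the primes in the window. -/
theorem dira_mass {M a : ℕ} (ha : 1 ≤ a)
    (h : ∀ j, 339 * a ≤ j → 2 ^ j ≤ j * (2 * #(PN M j))) :
    (1 : ℝ) / 230 ≤ ∑ k ∈ (Ico (339 * a) (345 * a)).biUnion (PN M), 1 / (k : ℝ) := by
  have ha' : (1 : ℝ) ≤ a := by exact_mod_cast ha
  rw [sum_biUnion]
  · have h1 : ∀ j ∈ Ico (339 * a) (345 * a), 1 / (1380 * a : ℝ) ≤ ∑ k ∈ PN M j, 1 / (k : ℝ) := by
      intro j hj
      obtain ⟨j1, j2⟩ := mem_Ico.1 hj
      have h2 : #(PN M j) • (1 / (2 : ℝ) ^ (j + 1)) ≤ ∑ k ∈ PN M j, 1 / (k : ℝ) := by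
        refine card_nsmul_le_sum _ _ _ fun k hk => ?_
        obtain ⟨b1, b2⟩ := mem_filter.1 (mem_filter.1 hk).1
        have b3 : (k : ℝ) ≤ 2 ^ (j + 1) := by exact_mod_cast (mem_Ico.1 b1).2.le
        have b4 : (0 : ℝ) < k := by exact_mod_cast b2.pos
        exact one_div_le_one_div_of_le b4 b3
      refine le_trans ?_ h2
      have h3 : (2 : ℝ) ^ j ≤ 345 * a * (2 * #(PN M j)) := by
        have := (h j j1).trans (Nat.mul_le_mul_right _ j2.le)
        exact_mod_cast this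
      rw [nsmul_eq_mul, mul_one_div, div_le_div_iff₀ (by positivity) (by positivity), pow_succ]
      linarith
    have h4 := card_nsmul_le_sum _ _ _ h1
    refine le_trans (le_of_eq ?_) h4
    rw [Nat.card_Ico, show 345 * a - 339 * a = 6 * a by omega, nsmul_eq_mul]
    push_cast
    field_simp
    norm_num
  · intro j _ j' _ hne
    refine disjoint_left.2 fun k hk hk' => hne ?_
    have b1 := mem_Ico.1 (mem_filter.1 (mem_filter.1 hk).1).1
    have b2 := mem_Ico.1 (mem_filter.1 (mem_filter.1 hk').1).1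
    exact (Nat.log_eq_of_pow_le_of_lt_pow b1.1 b1.2).symm.trans
      (Nat.log_eq_of_pow_le_of_lt_pow b2.1 b2.2)

theorem dira_row (hF : G27.FIN1G_s) (hS : SIZA_s) (hD : DYA_s) : DIRA_s := by
  classical
  obtain ⟨p₁, hp₁⟩ := hF
  obtain ⟨p₂, hp₂⟩ := hS
  obtain ⟨i₀, hi₀⟩ := hD
  refine ⟨1 / 3680, p₁ + p₂ + 2 ^ (1000 * (i₀ + 338)), by norm_num,
    fun M _ χ c τ hM hχ hχ1 hτ hc hcl hcp => ?_⟩
  have : Fact c.Prime := ⟨hc⟩
  have hM1 : 2 ^ (1000 * (i₀ + 338)) ≤ M := (Nat.le_add_left _ _).trans hM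
  have hM3 : p₁ + p₂ ≤ M := (Nat.le_add_right _ _).trans hM
  have hl : 1000 * (i₀ + 338) ≤ Nat.log 2 M := Nat.le_log_of_pow_le Nat.one_lt_two hM1
  have hM0 : 0 < M := Nat.pos_of_ne_zero (NeZero.ne M)
  set a := Nat.log 2 M / 1000 with ha
  have ha1 : i₀ + 338 ≤ a := by omega
  have lo : 2 ^ (1000 * a) ≤ M :=
    (Nat.pow_le_pow_right (by norm_num) (by omega)).trans (Nat.pow_log_le_self 2 hM0.ne')
  have hi : M < 2 ^ (1000 * a + 1000) :=
    (Nat.lt_pow_succ_log_self Nat.one_lt_two M).trans_le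
      (Nat.pow_le_pow_right (by norm_num) (by omega))
  have haR : (338 : ℝ) ≤ a := by exact_mod_cast (show 338 ≤ a by omega)
  have r1 : ((2 ^ (345 * a) : ℕ) : ℝ) ≤ (M : ℝ) ^ (0.345 : ℝ) :=
    dira_pow _ (by norm_num) lo (by push_cast; linarith)
  have r2 : (M : ℝ) ^ (0.338 : ℝ) ≤ ((2 ^ (339 * a) : ℕ) : ℝ) :=
    dira_pow' _ (by norm_num) hi.le (by push_cast; linarith)
  have r3 : (2 : ℝ) ≤ (M : ℝ) ^ (0.001 : ℝ) := by
    simpa using dira_pow (x := 0.001) 1 (by norm_num) lo (by push_cast; linarith)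
  have hMR : (1 : ℝ) < M := by
    exact_mod_cast (Nat.one_lt_two_pow (by omega)).trans_le lo
  have hMR0 : (0 : ℝ) < M := by linarith
  set K := (Ico (339 * a) (345 * a)).biUnion (PN M) with hKd
  have hmass : (1 : ℝ) / 230 ≤ ∑ k ∈ K, 1 / (k : ℝ) := by
    refine dira_mass (by omega) fun j hj => (hi₀ j (by omega)).1.trans (Nat.mul_le_mul_left _ ?_)
    refine (hp₂ M (by omega)).2 j ?_
    unfold aa
    omega
  have hK : ∀ k ∈ K, k.Prime ∧ ¬k ∣ M ∧ 2 ^ (339 * a) ≤ k ∧ k ≤ 2 ^ (345 * a) := by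
    intro k hk
    obtain ⟨j, hj, hk⟩ := mem_biUnion.1 hk
    obtain ⟨j1, j2⟩ := mem_Ico.1 hj
    obtain ⟨b0, b1⟩ := mem_filter.1 hk
    obtain ⟨b2, b3⟩ := mem_filter.1 b0
    obtain ⟨b4, b5⟩ := mem_Ico.1 b2
    exact ⟨b3, b1, (Nat.pow_le_pow_right (by norm_num) j1).trans b4,
      b5.le.trans (Nat.pow_le_pow_right (by norm_num) j2)⟩
  have htwo : ∀ b, 0 < b → b ≤ M → #{k ∈ K | k ∣ b} ≤ 2 := by
    intro b b0 b1
    refine dira_two (a := a) _ (by omega) b0 (b1.trans_lt hi) fun k hk => ?_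
    obtain ⟨b1, b2⟩ := mem_filter.1 hk
    exact ⟨(hK k b1).1, (hK k b1).2.2.1, b2⟩
  replace hK : ∀ k ∈ K, k.Prime ∧ ¬k ∣ M ∧ (M : ℝ) ^ (0.338 : ℝ) ≤ k ∧
      (k : ℝ) ≤ (M : ℝ) ^ (0.345 : ℝ) := by
    intro k hk
    obtain ⟨k1, k2, k3, k4⟩ := hK k hk
    exact ⟨k1, k2, r2.trans (by exact_mod_cast k3), le_trans (by exact_mod_cast k4) r1⟩
  clear_value K
  clear hM hM1 lo hi r1 r2 hKd
  have hc0 := hc.pos
  have hcR : (0 : ℝ) < c := by exact_mod_cast hc0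
  have hcop : c.Coprime M := by
    by_contra h'
    rw [re_nonunit χ h'] at hcl
    norm_num at hcl
  have hp0 : (M : ZMod c) ≠ 0 := by
    rw [Ne, ZMod.natCast_eq_zero_iff]
    exact (Nat.Prime.coprime_iff_not_dvd hc).1 hcop
  set G := {u ∈ Icc 1 ((M - 1) / c) | re χ (M - c * u) = τ ∧
      ∀ q : ℕ, q.Prime → q ∣ M - c * u → (q : ℝ) ≤ (M : ℝ) ^ (0.662 : ℝ)} with hG
  have key : ∀ k ∈ K, (M.totient : ℝ) / (8 * c) * (1 / (k : ℝ)) ≤ #{u ∈ G | k ∣ M - c * u} := by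
    intro k hk
    obtain ⟨k1, k2, k5, k6⟩ := hK k hk
    have k0 := k1.pos
    have kR : (0 : ℝ) < k := by exact_mod_cast k0
    have k7 : c < k := by
      have : (c : ℝ) < k :=
        (hcp.trans_lt (Real.rpow_lt_rpow_of_exponent_lt hMR (by norm_num))).trans_le k5
      exact_mod_cast this
    have hk0 : (k : ZMod c) ≠ 0 := by
      rw [Ne, ZMod.natCast_eq_zero_iff, Nat.prime_dvd_prime_iff_eq hc k1]
      omega
    have hre := re_unit hχ ((Nat.Prime.coprime_iff_not_dvd k1).2 k2)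
    set T := (M - 1) / (k * c) with hT
    have hT0 : T * (k * c) ≤ M - 1 := Nat.div_mul_le_self _ _
    have hT1 : M ≤ (T + 1) * (k * c) := by
      have h1 : M - 1 < k * c * ((M - 1) / (k * c) + 1) := Nat.lt_mul_div_succ _ (by positivity)
      rw [mul_comm (k * c), ← hT] at h1
      omega
    obtain ⟨hT2, hT3⟩ := dira_T hMR.le r3 k6 hcp hT1
    set r := ((M : ZMod c) * (k : ZMod c)⁻¹).val with hr
    have hrc : r < c := ZMod.val_lt _
    have hr0 : 0 < r := ZMod.val_pos.2 (mul_ne_zero hp0 (inv_ne_zero hk0))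
    have hτ' : τ * re χ k = 1 ∨ τ * re χ k = -1 := by
      rcases hτ with rfl | rfl <;> rcases hre with h | h <;> simp [h]
    have h1 := hp₁ M (by omega) χ hχ hχ1 r c T _ hτ' hcl hT2
    have h2 : ∀ t ∈ range T, k * (r + t * c) ≤ M - 1 ∧
        c * ((M - k * (r + t * c)) / c) = M - k * (r + t * c) := by
      intro t ht
      have a2 : k * (r + t * c) ≤ M - 1 := by
        refine le_trans ?_ hT0
        have := mem_range.1 ht
        calc k * (r + t * c) ≤ k * ((t + 1) * c) := by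
              refine Nat.mul_le_mul_left _ ?_
              rw [add_mul, one_mul]
              omega
          _ ≤ k * (T * c) := by gcongr; omega
          _ = _ := by ring
      refine ⟨a2, Nat.mul_div_cancel' ?_⟩
      refine (Nat.modEq_iff_dvd' (by omega)).1 ((ZMod.natCast_eq_natCast_iff _ _ _).1 ?_)
      simp only [hr, Nat.cast_mul, Nat.cast_add, ZMod.natCast_self, mul_zero, add_zero,
        ZMod.natCast_val, ZMod.cast_id', id_eq]
      field_simp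
    have h3 : #{t ∈ range T | re χ (r + t * c) = τ * re χ k} ≤ #{u ∈ G | k ∣ M - c * u} := by
      refine card_le_card_of_injOn (fun t => (M - k * (r + t * c)) / c) (fun t ht => ?_)
        fun t ht t' ht' h => ?_
      · obtain ⟨ht, hs⟩ := mem_filter.1 ht
        obtain ⟨a1, a2⟩ := h2 t ht
        have a3 : 0 < k * (r + t * c) := by positivity
        have a4 : M - c * ((M - k * (r + t * c)) / c) = k * (r + t * c) := by omega
        refine mem_filter.2 ⟨mem_filter.2 ⟨mem_Icc.2 ⟨?_, ?_⟩, ?_, fun q hq hd => ?_⟩, ?_⟩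
        · refine Nat.pos_of_ne_zero fun h => ?_
          simp only [h] at a2
          omega
        · exact Nat.div_le_div_right (by omega)
        · rw [a4, re_mul hχ, hs]
          rcases hre with h | h <;> simp [h]
        · rw [a4] at hd
          rcases (Nat.Prime.dvd_mul hq).1 hd with h | h
          · rw [(Nat.prime_dvd_prime_iff_eq hq k1).1 h]
            exact k6.trans (Real.rpow_le_rpow_of_exponent_le hMR.le (by norm_num))
          · have b1 : k * q ≤ M :=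
              (Nat.mul_le_mul_left _ (Nat.le_of_dvd (by omega) h)).trans (by omega)
            have b2 : (k : ℝ) * q ≤ M := by exact_mod_cast b1
            have b3 : (M : ℝ) = (M : ℝ) ^ (0.338 : ℝ) * (M : ℝ) ^ (0.662 : ℝ) := by
              rw [← Real.rpow_add hMR0]
              norm_num
            have b4 : (M : ℝ) ^ (0.338 : ℝ) * q ≤ (M : ℝ) ^ (0.338 : ℝ) * (M : ℝ) ^ (0.662 : ℝ) := by
              rw [← b3]
              exact le_trans (by gcongr) b2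
            exact le_of_mul_le_mul_left b4 (by positivity)
        · rw [a4]
          exact Dvd.intro _ rfl
      · obtain ⟨a1, a2⟩ := h2 t (mem_filter.1 ht).1
        obtain ⟨a3, a4⟩ := h2 t' (mem_filter.1 ht').1
        simp only at h
        rw [h, a4] at a2
        have b1 : k * (r + t * c) = k * (r + t' * c) := by omega
        have b2 := Nat.eq_of_mul_eq_mul_left k0 b1
        exact Nat.eq_of_mul_eq_mul_right hc0 (by omega : t * c = t' * c)
    have h4 : (T : ℝ) * M.totient ≤ 4 * M * #{u ∈ G | k ∣ M - c * u} := by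
      exact_mod_cast h1.trans (Nat.mul_le_mul_left _ h3)
    have h5 : (M : ℝ) ≤ 2 * T * (k * c) := by
      have : M ≤ 2 * T * (k * c) := hT1.trans (by gcongr; omega)
      exact_mod_cast this
    rw [mul_one_div, div_div, div_le_iff₀ (by positivity)]
    refine le_of_mul_le_mul_left ?_ hMR0
    calc (M : ℝ) * M.totient ≤ 2 * T * (k * c) * M.totient := by gcongr
      _ = 2 * (k * c) * (T * M.totient) := by ring
      _ ≤ 2 * (k * c) * (4 * M * #{u ∈ G | k ∣ M - c * u}) := by gcongr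
      _ = _ := by ring
  have hdc : ∑ k ∈ K, #{u ∈ G | k ∣ M - c * u} ≤ 2 * #G := by
    simp only [card_filter]
    rw [sum_comm, mul_comm, ← smul_eq_mul]
    refine sum_le_card_nsmul _ _ _ fun u hu => ?_
    rw [← card_filter]
    obtain ⟨u1, u2⟩ := mem_Icc.1 (mem_filter.1 hu).1
    rw [Nat.le_div_iff_mul_le hc0, mul_comm] at u2
    exact htwo _ (by omega) (by omega)
  have h6 := sum_le_sum key
  rw [← mul_sum, ← Nat.cast_sum] at h6
  have h7 : ((∑ k ∈ K, #{u ∈ G | k ∣ M - c * u} : ℕ) : ℝ) ≤ 2 * #G := by exact_mod_cast hdc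
  have h8 : (M.totient : ℝ) / (8 * c) * (1 / 230) ≤ 2 * #G :=
    le_trans (by gcongr) (h6.trans h7)
  have h9 : 1 / 3680 * (M.totient : ℝ) / c = (M.totient : ℝ) / (8 * c) * (1 / 230) / 2 := by
    field_simp
    norm_num
  rw [h9]
  linarith

end Pool.Agent.G55
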