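import Pool.Agent.MP_b5e119_nt.G55.Defs

namespace Pool.Agent.G55

open Finset Filter Topology Pool.Agent.G60 Pool.Agent.G42
open Pool.Agent.G27 (re)

theorem dirb_one (hU : UNU_s) (M c q : ℕ) (hM : 0 < M) (hc : c.Prime) (hcM : c.Coprime M)
    (hq : q.Prime) :
    (#{u ∈ Icc 1 ((M - 1) / c) | (M - c * u).Coprime M ∧ q ∣ M - c * u} : ℝ) ≤
      1 / q * (M.totient / c) + (1 + #M.divisors) := by
  set A := ({u ∈ Icc 1 ((M - 1) / c) | (M - c * u).Coprime M ∧ q ∣ M - c * u} : Finset ℕ) with hA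
  rcases A.eq_empty_or_nonempty with h | ⟨u₁, h₁⟩
  · rw [h, card_empty, Nat.cast_zero]
    positivity
  have hle : ∀ u ∈ A, c * u ≤ M := fun u hu => by
    have h1 := (mem_Icc.1 (mem_filter.1 hu).1).2
    have h2 := Nat.mul_div_le (M - 1) c
    have h3 := Nat.mul_le_mul_left c h1
    omega
  have hmod : ∀ u ∈ A, c * u ≡ M [MOD q] := fun u hu =>
    (Nat.modEq_iff_dvd' (hle u hu)).2 (mem_filter.1 hu).2.2
  have hqM : q.Coprime M := Nat.Coprime.coprime_dvd_left (mem_filter.1 h₁).2.2 (mem_filter.1 h₁).2.1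
  have hqc : q.Coprime c := by
    refine (Nat.coprime_primes hq hc).2 fun h => ?_
    subst h
    have h1 : q ∣ M := (hmod u₁ h₁).dvd_iff dvd_rfl |>.1 (dvd_mul_right _ _)
    exact hq.one_lt.ne' (Nat.eq_one_of_dvd_coprimes hqM dvd_rfl h1)
  have hsub : #A ≤ #{t ∈ range ((M - 1) / c / q + 1) | (u₁ % q + t * q).Coprime M} := by
    have e : ∀ u ∈ A, u₁ % q + u / q * q = u := fun u hu => by
      have h1 : u₁ % q = u % q :=
        Nat.ModEq.cancel_left_of_coprime hqc ((hmod u₁ h₁).trans (hmod u hu).symm)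
      rw [h1, mul_comm]
      exact Nat.mod_add_div u q
    refine card_le_card_of_injOn (fun u => u / q) (fun u hu => ?_) fun u hu v hv h => ?_
    · have hu' : u ∈ A := hu
      refine mem_coe.2 (mem_filter.2 ⟨mem_range.2 (Nat.lt_succ_of_le
        (Nat.div_le_div_right (mem_Icc.1 (mem_filter.1 hu').1).2)), ?_⟩)
      change (u₁ % q + u / q * q).Coprime M
      rw [e u hu']
      exact Nat.eq_one_of_dvd_coprimes (mem_filter.1 hu').2.1 (Nat.dvd_sub (Nat.gcd_dvd_right _ _)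
        (Dvd.dvd.mul_left (Nat.gcd_dvd_left _ _) c)) (Nat.gcd_dvd_right _ _)
    · have h' : u / q = v / q := h
      rw [← e u hu, ← e v hv, h']
  have h2 := hU M q (u₁ % q) ((M - 1) / c / q + 1) hM hqM
  have hM0 : (0 : ℝ) < M := by exact_mod_cast hM
  have hc0 : (0 : ℝ) < c := by exact_mod_cast hc.pos
  have hq0 : (0 : ℝ) < q := by exact_mod_cast hq.pos
  have h3 : (((M - 1) / c / q : ℕ) : ℝ) ≤ M / c / q := by
    refine Nat.cast_div_le.trans ?_
    gcongr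
    refine Nat.cast_div_le.trans ?_
    gcongr
    exact_mod_cast Nat.sub_le M 1
  have h4 : (M.totient : ℝ) / M ≤ 1 := by
    rw [div_le_one hM0]
    exact_mod_cast Nat.totient_le M
  have h5 : ((((M - 1) / c / q + 1 : ℕ) : ℝ)) * M.totient / M ≤ 1 / q * (M.totient / c) + 1 := by
    push_cast
    calc ((((M - 1) / c / q : ℕ) : ℝ) + 1) * M.totient / M ≤ (M / c / q + 1) * M.totient / M := by
          gcongr
      _ = 1 / q * (M.totient / c) + M.totient / M := by field_simp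
      _ ≤ _ := by linarith
  have h6 : (#A : ℝ) ≤ #{t ∈ range ((M - 1) / c / q + 1) | (u₁ % q + t * q).Coprime M} := by
    exact_mod_cast hsub
  linarith

theorem dirb_err (hT : G27.TAU_s) (hP : G27.PHI_s) (ε : ℝ) (hε : 0 < ε) : ∃ N₀ : ℕ, ∀ M : ℕ,
    N₀ ≤ M → 2 ≤ M ∧ (M : ℝ) ^ (0.996 : ℝ) * (1 + #M.divisors) ≤ ε * M.totient := by
  obtain ⟨C, hC, hT⟩ := hT.2 0.001 (by norm_num)
  obtain ⟨C', hC', hP⟩ := hP
  have h0 := ((tendsto_rpow_atTop (by norm_num : (0 : ℝ) < 0.002)).comp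
    tendsto_natCast_atTop_atTop).eventually_ge_atTop ((1 + C) * C' * 2000 / ε)
  obtain ⟨N₀, hN⟩ := eventually_atTop.1 (h0.and (eventually_ge_atTop 2))
  refine ⟨N₀, fun M hM => ⟨(hN M hM).2, ?_⟩⟩
  obtain ⟨h1, h2⟩ := hN M hM
  simp only [Function.comp] at h1
  have hM1 : (1 : ℝ) ≤ M := by exact_mod_cast (by omega : 1 ≤ M)
  have hM0 : (0 : ℝ) < M := by linarith
  set x := (M : ℝ) ^ (0.001 : ℝ) with hx
  have hx1 : 1 ≤ x := Real.one_le_rpow hM1 (by norm_num)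
  have hl1 : (1 : ℝ) ≤ Nat.log 2 M := by
    exact_mod_cast Nat.log_pos (by norm_num) h2
  have h3 : (Nat.log 2 M : ℝ) ^ (1 / 4 : ℝ) ≤ 2000 * x := by
    have a1 : (Nat.log 2 M : ℝ) ^ (1 / 4 : ℝ) ≤ Nat.log 2 M := by
      conv_rhs => rw [← Real.rpow_one (Nat.log 2 M : ℝ)]
      exact Real.rpow_le_rpow_of_exponent_le hl1 (by norm_num)
    have a2 : (2 : ℝ) ^ Nat.log 2 M ≤ M := by exact_mod_cast Nat.pow_log_le_self 2 (by omega)
    have a3 := Real.log_le_log (by positivity) a2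
    rw [Real.log_pow] at a3
    have a4 := Real.log_le_rpow_div hM0.le (by norm_num : (0 : ℝ) < 0.001)
    have a5 := Real.log_two_gt_d9
    rw [← hx, show x / 0.001 = 1000 * x by ring] at a4
    have a6 : (Nat.log 2 M : ℝ) * (1 / 2) ≤ Nat.log 2 M * Real.log 2 := by gcongr; linarith
    linarith
  have h4 : (M : ℝ) ≤ C' * M.totient * (2000 * x) := (hP M h2).trans (by gcongr)
  have h5 : (1 + #M.divisors : ℝ) ≤ (1 + C) * x := by
    have := hT M
    rw [← hx] at this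
    nlinarith
  have h6 : (M : ℝ) = (M : ℝ) ^ (0.996 : ℝ) * x * x * (M : ℝ) ^ (0.002 : ℝ) := by
    rw [hx, ← Real.rpow_add hM0, ← Real.rpow_add hM0, ← Real.rpow_add hM0]
    norm_num
  set z := (M : ℝ) ^ (0.996 : ℝ) with hz
  have hz0 : 0 ≤ z := by positivity
  rw [div_le_iff₀ hε] at h1
  set r := (M : ℝ) ^ (0.002 : ℝ) with hr
  have h7 : z * ((1 + C) * x) * (C' * (2000 * x)) ≤ ε * M.totient * (C' * (2000 * x)) := by
    calc z * ((1 + C) * x) * (C' * (2000 * x)) = z * x * x * ((1 + C) * C' * 2000) := by ring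
      _ ≤ z * x * x * (r * ε) := by gcongr
      _ = ε * (z * x * x * r) := by ring
      _ = ε * M := by rw [← h6]
      _ ≤ ε * (C' * M.totient * (2000 * x)) := by gcongr
      _ = _ := by ring
  exact le_trans (by gcongr) (le_of_mul_le_mul_right h7 (by positivity))

open Classical in
theorem dirb_row (hU : UNU_s) (hT : G27.TAU_s) (hP : G27.PHI_s) : DIRB_s := by
  intro ε hε
  obtain ⟨N₀, hN⟩ := dirb_err hT hP ε hε
  refine ⟨N₀, fun M χ c y hM hc hcM hcb hyb => ?_⟩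
  obtain ⟨h2, herr⟩ := hN M hM
  set S := ({q ∈ Icc 1 y | q.Prime ∧ re χ q = 1} : Finset ℕ) with hS
  have hsub : ({u ∈ Icc 1 ((M - 1) / c) | (M - c * u).Coprime M ∧
      ∃ q : ℕ, q.Prime ∧ re χ q = 1 ∧ q ≤ y ∧ q ∣ M - c * u} : Finset ℕ) ⊆
      S.biUnion fun q => {u ∈ Icc 1 ((M - 1) / c) | (M - c * u).Coprime M ∧ q ∣ M - c * u} := by
    intro u hu
    obtain ⟨a, b, q, q1, q2, q3, q4⟩ := mem_filter.1 hu
    exact mem_biUnion.2 ⟨q, mem_filter.2 ⟨mem_Icc.2 ⟨q1.pos, q3⟩, q1, q2⟩, mem_filter.2 ⟨a, b, q4⟩⟩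
  have h3 := (card_le_card hsub).trans card_biUnion_le
  refine le_trans (Nat.cast_le.2 h3) ?_
  push_cast
  refine (sum_le_sum fun q hq => dirb_one hU M c q (by omega) hc hcM (mem_filter.1 hq).2.1).trans ?_
  rw [sum_add_distrib, ← sum_mul, sum_const, nsmul_eq_mul]
  have hc0 : (0 : ℝ) < c := by exact_mod_cast hc.pos
  have hM0 : (0 : ℝ) < M := by exact_mod_cast (by omega : 0 < M)
  have h4 : (#S : ℝ) ≤ y := by
    exact_mod_cast (card_le_card (filter_subset _ _)).trans (by simp)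
  have h5 : (#S : ℝ) * c ≤ (M : ℝ) ^ (0.996 : ℝ) := by
    calc (#S : ℝ) * c ≤ (M : ℝ) ^ (0.662 : ℝ) * (M : ℝ) ^ (0.334 : ℝ) := by
          gcongr
          exact h4.trans hyb
      _ = _ := by rw [← Real.rpow_add hM0]; norm_num
  have h6 : (#S : ℝ) * (1 + #M.divisors) ≤ ε * M.totient / c := by
    rw [le_div_iff₀ hc0]
    calc (#S : ℝ) * (1 + #M.divisors) * c = #S * c * (1 + #M.divisors) := by ring
      _ ≤ (M : ℝ) ^ (0.996 : ℝ) * (1 + #M.divisors) := by gcongr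
      _ ≤ _ := herr
  have h7 : (SL χ y + ε) * M.totient / c = SL χ y * (M.totient / c) + ε * M.totient / c := by ring
  rw [h7]
  exact add_le_add le_rfl h6

end Pool.Agent.G55
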