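import Pool.Agent.MP_b5e119_nt.G42A.ZDefs
import Pool.Agent.MP_b5e119_nt.G1A.Defs

/-! Statements of the rows of campaign h55s: the order of the count in the exceptional case. -/

namespace Pool.Agent.G55

open Finset Filter Topology Pool.Agent.G60 Pool.Agent.G42
open Pool.Agent.G27 (nu re EX UN)

noncomputable section

/-- Reciprocals of the split primes up to `y`. -/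
def SL {M : ℕ} (χ : Ch M) (y : ℕ) : ℝ := ∑ q ∈ Icc 1 y with (q.Prime ∧ re χ q = 1), 1 / (q : ℝ)

/-- `n` has a split prime factor. -/
def Sp {M : ℕ} (χ : Ch M) (n : ℕ) : Prop := ∃ q : ℕ, q.Prime ∧ re χ q = 1 ∧ q ∣ n

open Classical in
def BU {M : ℕ} (χ : Ch M) (y : ℕ) : ℕ := #{u ∈ Icc 1 y | u.Coprime M ∧ Sp χ u}

def ex (G : ℕ → ℤ) (M : ℕ) (σ : ℤ) (k : ℕ) : ℝ :=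
  (#{u ∈ UY M k | G u ≠ σ} : ℝ) * M / (YY M k * M.totient)

def cU (M : ℕ) (e e' : ℤ) : ℕ :=
  #{a ∈ Icc 1 (M - 1) | a.Coprime M ∧ lam a = e ∧ lam (M - a) = e'}

/-! ### Units -/

def UNU_s : Prop := ∀ M c u T : ℕ, 0 < M → c.Coprime M →
  (#{t ∈ range T | (u + t * c).Coprime M} : ℝ) ≤ T * M.totient / M + #M.divisors

def UNV_s : Prop := ∃ N₀ : ℕ, ∀ M Y : ℕ, N₀ ≤ M → M ≤ Y ^ 400 →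
  (UN M Y : ℝ) ≤ 2 * Y * M.totient / M ∧ 99 / 100 * Y * M.totient / M ≤ (UN M Y : ℝ)

def HU_s : Prop := ∃ C : ℝ, 0 < C ∧ ∀ M w : ℕ, 0 < M → 1 ≤ w → 2 * Nat.log 2 M ≤ 2 ^ w →
  ∑ n ∈ Ico (1 : ℕ) (2 ^ w) with n.Coprime M, 1 / (n : ℝ) ≤ C * w * M.totient / M

def BADU_s : Prop := ∀ (ε : ℝ) (J : ℕ), 0 < ε → ∃ K N₀ : ℕ, 0 < K ∧ ∀ (M : ℕ) (χ : Ch M) (y : ℕ),
  N₀ ≤ M → M ≤ y ^ J → y ≤ M →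
    (BU χ y : ℝ) ≤ (SL χ (y / 2 ^ (Nat.log 2 M / K)) + ε) * y * M.totient / M

def NSL_s : Prop := ∀ (M : ℕ) (χ : Ch M) (u : ℕ), χ ^ 2 = 1 → 0 < u → u.Coprime M → ¬Sp χ u →
  lam u = re χ u

/-! ### Few exceptions give few split primes -/

def SCS_s : Prop := ∀ ε : ℝ, 0 < ε → ∃ δ : ℝ, 0 < δ ∧ ∃ N₀ : ℕ, ∀ (G : ℕ → ℤ) (M : ℕ) (σ : ℤ),
  N₀ ≤ M → CU G M → (σ = 1 ∨ σ = -1) → (#{u ∈ UY M 0 | G u ≠ σ} : ℝ) ≤ δ * M.totient →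
    ∑ k ∈ Ico (aa M + 1) (85 * aa M), ex G M σ k ≤ ε * aa M

def SML_s : Prop := ∀ ε : ℝ, 0 < ε → ∃ δ : ℝ, 0 < δ ∧ ∃ N₀ : ℕ, ∀ (G : ℕ → ℤ) (M : ℕ) (σ : ℤ),
  N₀ ≤ M → CU G M → (σ = 1 ∨ σ = -1) → (#{u ∈ UY M 0 | G u ≠ σ} : ℝ) ≤ δ * M.totient →
    ∑ q ∈ range (2 ^ aa M) with (q.Prime ∧ ¬q ∣ M ∧ G q ≠ 1), 1 / (q : ℝ) ≤ ε

/-- The function `λ χ` in the language of the scale rows. -/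
def BRG_s : Prop := ∀ (M : ℕ) (χ : Ch M) (σ : ℤ), χ ^ 2 = 1 → (σ = 1 ∨ σ = -1) →
  CU (fun n => lam n * re χ n) M ∧ #{u ∈ UY M 0 | lam u * re χ u ≠ σ} = EX χ σ ∧
    ∀ q : ℕ, q.Prime → (re χ q = 1 ↔ ¬q ∣ M ∧ lam q * re χ q ≠ 1)

def SMID_s : Prop := ∀ ε : ℝ, 0 < ε → ∃ δ : ℝ, 0 < δ ∧ ∃ N₀ : ℕ, ∀ (M : ℕ) (χ : Ch M) (σ : ℤ),
  N₀ ≤ M → χ ^ 2 = 1 → (σ = 1 ∨ σ = -1) → (EX χ σ : ℝ) ≤ δ * M.totient →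
    SL χ (2 ^ (85 * aa M)) ≤ ε

def GUD_s : Prop := ∀ J : ℕ, ∃ N₀ : ℕ, ∀ (M : ℕ) (χ : Ch M) (y : ℕ), N₀ ≤ M → χ ^ 2 = 1 →
  SL χ (2 ^ (85 * aa M)) ≤ 1 / 100 → M ≤ y ^ J → y ≤ 2 ^ (117 * aa M) →
    (y : ℝ) * M.totient / (10 * M) ≤ #{u ∈ Icc 1 y | u.Coprime M ∧ lam u = re χ u}

def SIG_s : Prop := ∃ δ : ℝ, 0 < δ ∧ ∃ N₀ : ℕ, ∀ (M : ℕ) (χ : Ch M), N₀ ≤ M → χ ^ 2 = 1 →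
  δ * M.totient < (EX χ (-1) : ℝ)

def SLG_s : Prop := ∀ (ε : ℝ) (K : ℕ), 0 < ε → 0 < K → ∃ δ : ℝ, 0 < δ ∧ ∃ N₀ : ℕ,
  ∀ (M : ℕ) (χ : Ch M) (σ : ℤ), N₀ ≤ M → χ ^ 2 = 1 → (σ = 1 ∨ σ = -1) →
    (EX χ σ : ℝ) ≤ δ * M.totient → SL χ (M / 2 ^ (Nat.log 2 M / K)) ≤ ε

/-! ### The value at `1` -/

open Classical in
def ZN_s : Prop := ∀ (N : ℕ) [NeZero N] (χ : Ch N) (x : ℕ), χ ^ 2 = 1 →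
  ∑ n ∈ Icc 1 x with ¬Sp χ n, rx χ n / n ≤ 2 * N / N.totient

open Classical in
def ZS_s : Prop := ∀ (N : ℕ) [NeZero N] (χ : Ch N) (x : ℕ), χ ^ 2 = 1 →
  ∑ n ∈ Icc 1 x with Sp χ n, rx χ n / n ≤ 2 * SL χ x * ZX χ x

def MLE_s : Prop := ∃ (C : ℝ) (N₀ : ℕ), 0 < C ∧ ∀ (N : ℕ) [NeZero N] (χ : Ch N) (y : ℕ), N₀ ≤ N →
  χ ^ 2 = 1 → χ ≠ 1 → (N : ℝ) ^ (0.333 : ℝ) ≤ y + 1 → SL χ y ≤ 1 / 4 →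
    (N.totient : ℝ) / N * ‖DirichletCharacter.LFunction χ 1‖ * Real.log N ≤ C * SL χ y

/-! ### The direct count -/

open Classical in
def DIRA_s : Prop := ∃ (κ : ℝ) (N₀ : ℕ), 0 < κ ∧ ∀ (M : ℕ) [NeZero M] (χ : Ch M) (c : ℕ) (τ : ℤ),
  N₀ ≤ M → χ ^ 2 = 1 → χ ≠ 1 → (τ = 1 ∨ τ = -1) → c.Prime → re χ c = 1 →
  (c : ℝ) ≤ (M : ℝ) ^ (0.334 : ℝ) →
    κ * M.totient / c ≤ #{u ∈ Icc 1 ((M - 1) / c) | re χ (M - c * u) = τ ∧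
      ∀ q : ℕ, q.Prime → q ∣ M - c * u → (q : ℝ) ≤ (M : ℝ) ^ (0.662 : ℝ)}

open Classical in
def DIRB_s : Prop := ∀ ε : ℝ, 0 < ε → ∃ N₀ : ℕ, ∀ (M : ℕ) (χ : Ch M) (c y : ℕ), N₀ ≤ M →
  c.Prime → c.Coprime M → (c : ℝ) ≤ (M : ℝ) ^ (0.334 : ℝ) → (y : ℝ) ≤ (M : ℝ) ^ (0.662 : ℝ) →
    (#{u ∈ Icc 1 ((M - 1) / c) | (M - c * u).Coprime M ∧
      ∃ q : ℕ, q.Prime ∧ re χ q = 1 ∧ q ≤ y ∧ q ∣ M - c * u} : ℝ) ≤ (SL χ y + ε) * M.totient / c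

def DIRC_s : Prop := ∃ (κ : ℝ) (K N₀ : ℕ), 0 < κ ∧ κ ≤ 1 / 4 ∧ 10 ≤ K ∧
  ∀ (M : ℕ) [NeZero M] (χ : Ch M) (y : ℕ) (e e' : ℤ), N₀ ≤ M → χ ^ 2 = 1 → χ ≠ 1 →
    (e = 1 ∨ e = -1) → (e' = 1 ∨ e' = -1) → re χ (M - 1) = -(e * e') →
    SL χ (M / 2 ^ (Nat.log 2 M / K)) ≤ κ → (y : ℝ) ≤ (M : ℝ) ^ (0.334 : ℝ) →
      SL χ y ≤ κ ∧ κ * M.totient * SL χ y ≤ cU M e e'

/-! ### Many levels -/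

open Classical in
def LEV3_s [Sg] : Prop := ∃ N₀ : ℕ, ∀ (N : ℕ) [NeZero N], N₀ ≤ N → ∀ (U : Finset (Ch N)) (e β : ℝ),
  0 < e → 0 < β → ∑ χ ∈ Uᶜ, G1A.en N (G1A.fC N) χ ≤ e * N → (od N : ℝ) ≤ β * N →
    ∃ D ⊆ N.divisors, (N : ℝ) / 2 ≤ ∑ g ∈ D, ((N / g).totient : ℝ) ∧
      ∀ g ∈ D, ∀ (M : ℕ) [NeZero M], M * g = N → N ^ 999 ≤ M ^ 1000 ∧ ∃ V : Finset (Ch M),
        #V ≤ #U ∧ ∑ ψ ∈ Vᶜ, nu M ψ ≤ 8 * e ∧ (odU M : ℝ) ≤ 8 * β * M.totient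

def INVM_s [Sg] : Prop := ∀ η : ℝ, 0 < η → ∃ c : ℝ, 0 < c ∧ ∃ N₀ : ℕ, ∀ N : ℕ, N₀ ≤ N →
  ∀ e : ℤ, (e = 1 ∨ e = -1) → (cnt N e (-Sg.s * e) : ℝ) ≤ c * N →
    ∃ D ⊆ N.divisors, (N : ℝ) / 2 ≤ ∑ g ∈ D, ((N / g).totient : ℝ) ∧
      ∀ g ∈ D, ∀ (M : ℕ) [NeZero M], M * g = N → N ^ 999 ≤ M ^ 1000 ∧ ∃ (χ : Ch M) (σ : ℤ),
        χ ^ 2 = 1 ∧ χ ≠ 1 ∧ (σ = 1 ∨ σ = -1) ∧ (EX χ σ : ℝ) ≤ η * M.totient ∧ re χ (M - 1) = Sg.s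

def CLS_s : Prop := ∀ (N : ℕ) (e e' : ℤ), 0 < N →
  ∑ g ∈ N.divisors, cU (N / g) (lam g * e) (lam g * e') ≤ cnt N e e'

/-- One level. -/
def ONE_s : Prop := ∃ (η κ : ℝ) (N₀ : ℕ), 0 < η ∧ 0 < κ ∧ ∀ (N M : ℕ) [NeZero N] [NeZero M]
  (h : M ∣ N) (χ : Ch M) (σ e e' : ℤ), N₀ ≤ N → N ^ 999 ≤ M ^ 1000 → χ ^ 2 = 1 → χ ≠ 1 →
    (σ = 1 ∨ σ = -1) → (e = 1 ∨ e = -1) → (e' = 1 ∨ e' = -1) → (EX χ σ : ℝ) ≤ η * M.totient →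
    re χ (M - 1) = -(e * e') → κ * M.totient * ((N.totient : ℝ) / N *
      ‖DirichletCharacter.LFunction (DirichletCharacter.changeLevel h χ) 1‖ * Real.log N) ≤
        cU M e e'

def TOPS_s : Prop := ∃ c : ℝ, 0 < c ∧ ∃ N₀ : ℕ, ∀ (N : ℕ) [NeZero N], N₀ ≤ N →
  ∀ e e' : ℤ, (e = 1 ∨ e = -1) → (e' = 1 ∨ e' = -1) → ∃ m : ℝ,
    (m = 1 ∨ ∃ χ : DirichletCharacter ℂ N, χ ≠ 1 ∧ χ ^ 2 = 1 ∧ χ (-1) = -((e * e' : ℤ) : ℂ) ∧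
      m = (N.totient : ℝ) / N * ‖DirichletCharacter.LFunction χ 1‖ * Real.log N) ∧
    c * m * N ≤ cnt N e e'

end

end Pool.Agent.G55
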