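import Pool.Agent.MP_b5e119_nt.G55.Defs

/-! Row GUD: many units on which `λ` and `χ` agree. -/

namespace Pool.Agent.G55

open Finset Filter Topology Pool.Agent.G60 Pool.Agent.G42
open Pool.Agent.G27 (nu re EX UN)

theorem gud_phi (M : ℕ) (hM : 0 < M) : M ≤ #M.divisors * M.totient := by
  have h : ∑ d ∈ M.divisors, d.totient ≤ #M.divisors • M.totient :=
    sum_le_card_nsmul _ _ _ fun d hd =>
      Nat.le_of_dvd (Nat.totient_pos.2 hM) (Nat.totient_dvd_of_dvd (Nat.dvd_of_mem_divisors hd))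
  rwa [Nat.sum_totient, smul_eq_mul] at h

theorem gud_un (hU : G27.UNI_s) (hT : G27.TAU_s) (J : ℕ) : ∃ N₀ : ℕ, ∀ M Y : ℕ, N₀ ≤ M →
    M ≤ Y ^ J → 99 / 100 * ((Y : ℝ) * M.totient / M) ≤ UN M Y := by
  obtain ⟨C, hC, hτ⟩ := hT.2 (1 / ((4 * (J + 1) : ℕ) : ℝ)) (by positivity)
  refine ⟨⌈(100 * C ^ 2) ^ (2 * (J + 1))⌉₊ + 1, fun M Y hM hY => ?_⟩
  rcases Nat.eq_zero_or_pos Y with rfl | hY0
  · simp
  have hM0 : 0 < M := by omega
  have hMR : (0 : ℝ) < M := by exact_mod_cast hM0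
  have hτM := hτ M
  obtain ⟨t, ht⟩ : ∃ t : ℝ, t = (M : ℝ) ^ (1 / ((4 * (J + 1) : ℕ) : ℝ)) := ⟨_, rfl⟩
  rw [← ht] at hτM
  have ht0 : 0 ≤ t := by rw [ht]; positivity
  have ht1 : t ^ (4 * (J + 1)) = M := by
    rw [ht, one_div, Real.rpow_inv_natCast_pow hMR.le (by omega)]
  have h1 : 100 * C ^ 2 ≤ t ^ 2 := by
    refine le_of_pow_le_pow_left₀ (n := 2 * (J + 1)) (by omega) (by positivity) ?_
    rw [← pow_mul, (by ring : 2 * (2 * (J + 1)) = 4 * (J + 1)), ht1]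
    refine (Nat.le_ceil _).trans ?_
    exact_mod_cast (by omega : ⌈(100 * C ^ 2) ^ (2 * (J + 1))⌉₊ ≤ M)
  have h2 : t ^ 4 ≤ Y := by
    refine le_of_pow_le_pow_left₀ (n := J + 1) (by omega) (by positivity) ?_
    rw [← pow_mul, ht1]
    exact_mod_cast hY.trans (Nat.pow_le_pow_right hY0 (Nat.le_succ J))
  have h3 : (M : ℝ) ≤ #M.divisors * M.totient := by exact_mod_cast gud_phi M hM0
  have h4 := (hU M hM0).2 Y
  have hd0 : (0 : ℝ) ≤ #M.divisors := by positivity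
  have hφ : (0 : ℝ) ≤ M.totient := by positivity
  have h5 : 100 * (#M.divisors : ℝ) ^ 2 ≤ Y := by
    have a1 : (#M.divisors : ℝ) ^ 2 ≤ (C * t) ^ 2 := pow_le_pow_left₀ hd0 hτM 2
    have a2 : 100 * C ^ 2 * t ^ 2 ≤ t ^ 2 * t ^ 2 := mul_le_mul_of_nonneg_right h1 (by positivity)
    calc 100 * (#M.divisors : ℝ) ^ 2 ≤ 100 * (C * t) ^ 2 := by linarith
      _ = 100 * C ^ 2 * t ^ 2 := by ring
      _ ≤ t ^ 2 * t ^ 2 := a2
      _ = t ^ 4 := by ring
      _ ≤ Y := h2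
  have h6 : 100 * (#M.divisors : ℝ) ≤ (Y : ℝ) * M.totient / M := by
    rw [le_div_iff₀ hMR]
    calc 100 * (#M.divisors : ℝ) * M ≤ 100 * #M.divisors * (#M.divisors * M.totient) :=
          mul_le_mul_of_nonneg_left h3 (by positivity)
      _ = 100 * (#M.divisors : ℝ) ^ 2 * M.totient := by ring
      _ ≤ Y * M.totient := mul_le_mul_of_nonneg_right h5 hφ
  linarith

theorem gud_mono {M : ℕ} (χ : Ch M) {x y : ℕ} (h : x ≤ y) : SL χ x ≤ SL χ y :=
  sum_le_sum_of_subset_of_nonneg (filter_subset_filter _ (Icc_subset_Icc_right h))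
    fun _ _ _ => by positivity

theorem gud_step {M : ℕ} (χ : Ch M) (i : ℕ) (hi : 0 < i)
    (h : i * #{q ∈ Ico (2 ^ i) (2 ^ (i + 1)) | q.Prime} ≤ 2 * 2 ^ i) :
    SL χ (2 ^ (i + 1)) ≤ SL χ (2 ^ i) + 2 / i := by
  have hs : {q ∈ Icc 1 (2 ^ (i + 1)) | q.Prime ∧ re χ q = 1} ⊆
      {q ∈ Icc 1 (2 ^ i) | q.Prime ∧ re χ q = 1} ∪ {q ∈ Ico (2 ^ i) (2 ^ (i + 1)) | q.Prime} := by
    intro q hq
    simp only [mem_filter, mem_union, mem_Icc, mem_Ico] at hq ⊢
    by_cases e : q ≤ 2 ^ i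
    · exact Or.inl ⟨⟨hq.1.1, e⟩, hq.2⟩
    · refine Or.inr ⟨⟨by omega, lt_of_le_of_ne hq.1.2 fun e' => ?_⟩, hq.2.1⟩
      have := hq.2.1
      rw [e'] at this
      exact absurd (Nat.Prime.eq_one_of_pow this) (by omega)
  have h1 : ∑ q ∈ Ico (2 ^ i : ℕ) (2 ^ (i + 1)) with q.Prime, 1 / (q : ℝ) ≤ 2 / i := by
    refine (sum_le_card_nsmul _ _ (1 / 2 ^ i) fun q hq => ?_).trans ?_
    · refine one_div_le_one_div_of_le (by positivity) ?_
      exact_mod_cast (mem_Ico.1 (mem_filter.1 hq).1).1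
    · have i0 : (0 : ℝ) < i := by exact_mod_cast hi
      rw [nsmul_eq_mul, mul_one_div, div_le_div_iff₀ (by positivity) i0, mul_comm]
      exact_mod_cast h
  refine (sum_le_sum_of_subset_of_nonneg hs fun _ _ _ => by positivity).trans ?_
  refine le_trans ?_ (add_le_add_right h1 _)
  unfold SL
  rw [← sum_union_inter]
  exact le_add_of_nonneg_right (sum_nonneg fun _ _ => by positivity)

theorem gud_log (n : ℕ) : ∃ B : ℕ, ∀ M : ℕ, B ≤ M → n ≤ Nat.log 2 M :=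
  ⟨2 ^ n, fun _ h => Nat.le_log_of_pow_le (by norm_num) h⟩

theorem gud_row (hB : BADU_s) (hU : G27.UNI_s) (hT : G27.TAU_s) (hD : DYA_s) (hN : NSL_s) :
    GUD_s := by
  classical
  intro J
  obtain ⟨K, N₁, -, hB⟩ := hB (1 / 20) J (by norm_num)
  obtain ⟨N₂, hU⟩ := gud_un hU hT J
  obtain ⟨i₀, hD⟩ := hD
  obtain ⟨B, hBB⟩ := gud_log (200 * (i₀ + 1))
  refine ⟨N₁ + N₂ + B + 1, fun M χ y hM hχ hS hy hy' => ?_⟩
  have hM0 : 0 < M := by omega
  have hl : 200 * (i₀ + 1) ≤ Nat.log 2 M := hBB M (by omega)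
  have ha : i₀ + 1 ≤ aa M := by unfold aa; omega
  have hyM : y ≤ M := by
    refine hy'.trans (le_trans (Nat.pow_le_pow_right (by norm_num) ?_)
      (Nat.pow_log_le_self 2 hM0.ne'))
    unfold aa; omega
  have a0 : (0 : ℝ) < aa M := by exact_mod_cast (by omega : 0 < aa M)
  have hind : ∀ n : ℕ, SL χ (2 ^ (85 * aa M + n)) ≤ 1 / 100 + n * (2 / (85 * aa M)) := by
    intro n
    induction n with
    | zero => simpa using hS
    | succ n ih =>
      have h1 := gud_step χ (85 * aa M + n) (by omega) (hD _ (by omega)).2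
      have h2 : (2 : ℝ) / (85 * aa M + n : ℕ) ≤ 2 / (85 * aa M) := by
        refine div_le_div_of_nonneg_left (by norm_num) (by positivity) ?_
        push_cast
        linarith [Nat.cast_nonneg (α := ℝ) n]
      rw [← add_assoc]
      push_cast at h1 h2 ⊢
      linarith
  have h3 : SL χ (y / 2 ^ (Nat.log 2 M / K)) ≤ 1 / 100 + 64 / 85 := by
    refine (gud_mono χ ((Nat.div_le_self _ _).trans (hy'.trans (le_of_eq ?_)))).trans
      ((hind (32 * aa M)).trans (le_of_eq ?_))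
    · congr 1; ring
    · push_cast
      field_simp
      ring
  have h4 := hB M χ y (by omega) hy hyM
  have h5 := hU M y (by omega) hy
  have h6 : UN M y ≤ #{u ∈ Icc 1 y | u.Coprime M ∧ lam u = re χ u} + BU χ y := by
    refine le_trans (card_le_card fun u hu => ?_) (card_union_le _ _)
    simp only [mem_filter, mem_union, mem_Icc] at hu ⊢
    by_cases e : Sp χ u
    · exact Or.inr ⟨hu.1, hu.2, e⟩
    · exact Or.inl ⟨hu.1, hu.2, hN M χ u hχ hu.1.1 hu.2 e⟩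
  have h7 : (UN M y : ℝ) ≤ #{u ∈ Icc 1 y | u.Coprime M ∧ lam u = re χ u} + BU χ y := by
    exact_mod_cast h6
  have h8 : (0 : ℝ) ≤ (y : ℝ) * M.totient / M := by positivity
  have e1 : (y : ℝ) * M.totient / (10 * M) = 1 / 10 * ((y : ℝ) * M.totient / M) := by ring
  have e2 : (SL χ (y / 2 ^ (Nat.log 2 M / K)) + 1 / 20) * y * M.totient / M =
      (SL χ (y / 2 ^ (Nat.log 2 M / K)) + 1 / 20) * ((y : ℝ) * M.totient / M) := by ring
  have h9 := mul_le_mul_of_nonneg_right (add_le_add_left h3 (1 / 20)) h8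
  rw [e1]
  rw [e2] at h4
  nlinarith

end Pool.Agent.G55
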