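import Pool.Agent.MP_b5e119_nt.G55.Defs

namespace Pool.Agent.G55

open Finset Filter Topology Pool.Agent.G60 Pool.Agent.G42

/-- The reciprocal as a multiplicative map. -/
noncomputable def hu_f : ℕ →* ℝ := ⟨⟨fun n => (n : ℝ)⁻¹, by simp⟩, fun a b => by simp [mul_comm]⟩

theorem hu_fa (n : ℕ) : hu_f n = (n : ℝ)⁻¹ := rfl

theorem hu_pos (S : Finset ℕ) (hS : ∀ q ∈ S, q.Prime) : 0 < ∏ q ∈ S, (1 - 1 / (q : ℝ)) :=
  prod_pos fun q hq => by
    have h1 : (1 : ℝ) < q := by exact_mod_cast (hS q hq).one_lt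
    rw [sub_pos, div_lt_one (by linarith)]
    exact h1

theorem hu_sum (M z : ℕ) :
    ∑ n ∈ Ico 1 z with n.Coprime M, 1 / ((n : ℕ) : ℝ) ≤
      (∏ q ∈ ({q ∈ range z | q.Prime} : Finset ℕ) with ¬q ∣ M, (1 - 1 / (q : ℝ)))⁻¹ := by
  classical
  have hf : ∀ {p : ℕ}, p.Prime → ‖hu_f p‖ < 1 := fun {p} hp => by
    have h1 : (1 : ℝ) < p := by exact_mod_cast hp.one_lt
    rw [hu_fa, norm_inv, Real.norm_natCast]
    exact inv_lt_one_of_one_lt₀ h1
  have h1 := (EulerProduct.summable_and_hasSum_factoredNumbers_prod_filter_prime_geometric hf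
    ({q ∈ range z | ¬q ∣ M} : Finset ℕ)).2
  have h3 := sum_le_hasSum (({n ∈ Ico 1 z | n.Coprime M} : Finset ℕ).subtype
    (· ∈ Nat.factoredNumbers ({q ∈ range z | ¬q ∣ M} : Finset ℕ)))
    (fun n _ => by rw [hu_fa]; positivity) h1
  refine le_trans (le_of_eq ?_) (h3.trans (le_of_eq ?_))
  · simp only [hu_fa, one_div]
    refine (sum_subtype_of_mem (fun n : ℕ => (n : ℝ)⁻¹) fun n hn => ?_).symm
    obtain ⟨a, b⟩ := mem_filter.1 hn
    obtain ⟨a1, a2⟩ := mem_Ico.1 a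
    refine Nat.mem_factoredNumbers'.2 fun p hp hd => mem_filter.2 ⟨mem_range.2 ?_, fun h => ?_⟩
    · exact (Nat.le_of_dvd (by omega) hd).trans_lt a2
    · exact hp.one_lt.ne' (Nat.eq_one_of_dvd_coprimes b hd h)
  · rw [← prod_inv_distrib, filter_comm]
    exact prod_congr rfl fun q _ => by rw [one_div, hu_fa]

theorem hu_cnt (N : ℕ) (hN : 0 < N) : #N.primeFactors ≤ Nat.log 2 N := by
  have h1 : 2 ^ #N.primeFactors ≤ ∏ q ∈ N.primeFactors, q :=
    pow_card_le_prod _ _ _ fun q hq => (Nat.prime_of_mem_primeFactors hq).two_le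
  exact Nat.le_log_of_pow_le (by norm_num) (h1.trans (Nat.le_of_dvd hN (Nat.prod_primeFactors_dvd N)))

theorem hu_big (M z : ℕ) (hM : 0 < M) (hz : 0 < z) (h : 2 * Nat.log 2 M ≤ z) :
    1 / 2 ≤ ∏ q ∈ M.primeFactors with ¬q < z, (1 - 1 / (q : ℝ)) := by
  set S := ({q ∈ M.primeFactors | ¬q < z} : Finset ℕ) with hS
  have hz0 : (0 : ℝ) < z := by exact_mod_cast hz
  have hz1 : (1 : ℝ) ≤ z := by exact_mod_cast hz
  have h0 : 1 / (z : ℝ) ≤ 1 := by rw [div_le_one hz0]; exact hz1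
  have h1 : ∏ _q ∈ S, (1 - 1 / (z : ℝ)) ≤ ∏ q ∈ S, (1 - 1 / (q : ℝ)) :=
    prod_le_prod (fun _ _ => by linarith) fun q hq => by
      have h2 : (z : ℝ) ≤ q := by exact_mod_cast not_lt.1 (mem_filter.1 hq).2
      have := one_div_le_one_div_of_le hz0 h2
      linarith
  rw [prod_const] at h1
  have h2 := one_add_mul_le_pow (a := -(1 / (z : ℝ))) (by linarith) #S
  have h3 : 2 * (#S : ℝ) ≤ z := by
    exact_mod_cast (Nat.mul_le_mul_left 2 ((card_le_card (filter_subset _ _)).trans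
      (hu_cnt M hM))).trans h
  have h4 : (#S : ℝ) * (1 / z) ≤ 1 / 2 := by
    rw [mul_one_div, div_le_div_iff₀ hz0 (by norm_num)]
    linarith
  rw [← sub_eq_add_neg] at h2
  linarith

theorem hu_row (hS : SVV_s) : HU_s := by
  obtain ⟨s, c, C, hc, -, hS⟩ := hS
  refine ⟨2 / c, by positivity, fun M w hM hw hl => ?_⟩
  have h1 := (hS w hw).1
  have h2 := hu_sum M (2 ^ w)
  have h3 := hu_big M (2 ^ w) hM (by positivity) hl
  have hM0 : (0 : ℝ) < M := by exact_mod_cast hM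
  have hw0 : (0 : ℝ) < w := by exact_mod_cast hw
  have h4 : (M.totient : ℝ) = M * ∏ p ∈ M.primeFactors, (1 - 1 / (p : ℝ)) := by
    have := congrArg (fun x : ℚ => (x : ℝ)) (Nat.totient_eq_mul_prod_factors M)
    simp only [one_div]
    push_cast at this
    exact this
  rw [← prod_filter_mul_prod_filter_not M.primeFactors (fun q => q < 2 ^ w)] at h4
  have h5 : VZ w = (∏ q ∈ M.primeFactors with q < 2 ^ w, (1 - 1 / (q : ℝ))) *
      ∏ q ∈ ({q ∈ range (2 ^ w) | q.Prime} : Finset ℕ) with ¬q ∣ M, (1 - 1 / (q : ℝ)) := by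
    rw [VZ, ← prod_filter_mul_prod_filter_not _ (fun q => q ∣ M)]
    congr 1
    refine prod_congr ?_ fun _ _ => rfl
    ext q
    simp only [mem_filter, mem_range, Nat.mem_primeFactors]
    exact ⟨fun h => ⟨⟨h.1.2, h.2, hM.ne'⟩, h.1.1⟩, fun h => ⟨⟨h.2, h.1.1⟩, h.1.2.1⟩⟩
  have hA := hu_pos ({q ∈ ({q ∈ range (2 ^ w) | q.Prime} : Finset ℕ) | ¬q ∣ M} : Finset ℕ)
    fun q hq => (mem_filter.1 (mem_filter.1 hq).1).2
  have hB := hu_pos ({q ∈ M.primeFactors | q < 2 ^ w} : Finset ℕ)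
    fun q hq => Nat.prime_of_mem_primeFactors (mem_filter.1 hq).1
  refine h2.trans ?_
  rw [h4]
  rw [h5] at h1
  generalize (∏ q ∈ ({q ∈ range (2 ^ w) | q.Prime} : Finset ℕ) with ¬q ∣ M, (1 - 1 / (q : ℝ))) = A at *
  generalize (∏ q ∈ M.primeFactors with q < 2 ^ w, (1 - 1 / (q : ℝ))) = B at *
  generalize (∏ q ∈ M.primeFactors with ¬q < 2 ^ w, (1 - 1 / (q : ℝ))) = E at *
  rw [div_le_iff₀ hw0] at h1
  have e : 2 / c * w * (M * (B * E)) / M = (2 * E) * (B * A * w) / c / A := by field_simp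
  rw [e, inv_eq_one_div]
  gcongr
  rw [le_div_iff₀ hc]
  nlinarith

end Pool.Agent.G55
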