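import Pool.Agent.MP_b5e119_nt.G55.Defs

namespace Pool.Agent.G55

open Finset Filter Topology Pool.Agent.G60 Pool.Agent.G42

theorem invm_pow {N M a b c d : ℕ} (hM : 0 < M) (ha : a ≠ 0) (h : N ^ a ≤ M ^ b)
    (h2 : b * c ≤ d * a) : N ^ c ≤ M ^ d := by
  refine (Nat.pow_le_pow_iff_left ha).1 ?_
  rw [← pow_mul, mul_comm, pow_mul, ← pow_mul M]
  exact (Nat.pow_le_pow_left h c).trans (by rw [← pow_mul]; exact Nat.pow_le_pow_right hM h2)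

theorem invm_row [Sg] (hO : ODX_s) (hF : G1A.FEWW_s) (hL : LEV3_s) (hE : ENDA_s) (hP : NPR_s)
    (hS : STRA_s) : INVM_s := by
  classical
  intro η hη
  obtain ⟨K, γ, hK, hγ, N₁, hE⟩ := hE
  obtain ⟨N₂, hP⟩ := hP
  obtain ⟨N₅, hL⟩ := hL
  obtain ⟨t, ht⟩ : ∃ t : ℝ, t = min η (1 / 8) := ⟨_, rfl⟩
  have t0 : 0 < t := by rw [ht]; positivity
  have t1 : t ≤ η := ht ▸ min_le_left _ _
  have t2 : t ≤ 1 / 8 := ht ▸ min_le_right _ _
  obtain ⟨r, hr⟩ : ∃ r : ℝ, r = t / (K + 1) / 8 := ⟨_, rfl⟩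
  have r0 : 0 < r := by rw [hr]; positivity
  obtain ⟨y, β, N₃, hβ, hF⟩ := hF (γ / 2) r (by positivity) r0
  obtain ⟨c, hc, N₄, hO⟩ := hO y (min β r) (lt_min hβ r0)
  obtain ⟨B, hB⟩ : ∃ B, B = N₁ + N₂ + 2 := ⟨_, rfl⟩
  refine ⟨c, hc, N₃ + N₄ + N₅ + B ^ 2 + 1, fun N hN e he h => ?_⟩
  have : NeZero N := ⟨by omega⟩
  have hN0 : (0 : ℝ) ≤ N := Nat.cast_nonneg _
  have hG := hO N (by omega) e he h
  obtain ⟨U, u1, u2⟩ := hF N (by omega) fun m h0 hm =>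
    (hG.2 m h0 hm).trans (mul_le_mul_of_nonneg_right (min_le_left _ _) hN0)
  obtain ⟨D, d1, d2, d3⟩ := hL N (by omega) U r r r0 r0 u2
    (hG.1.trans (mul_le_mul_of_nonneg_right (min_le_right _ _) hN0))
  refine ⟨D, d1, d2, fun g hg M _ hM => ?_⟩
  obtain ⟨m2, V, v1, v2, v3⟩ := d3 g hg M hM
  have e8 : 8 * r = t / (K + 1) := by rw [hr]; ring
  rw [e8] at v2 v3
  have a1 : N ^ 1 ≤ M ^ 2 := invm_pow (NeZero.pos M) (by norm_num) m2 (by norm_num)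
  rw [pow_one] at a1
  have hM' : B ≤ M := (Nat.pow_le_pow_iff_left two_ne_zero).1 (by omega)
  have a2 : (N : ℝ) ≤ (M : ℝ) ^ (2 : ℝ) := by exact_mod_cast a1
  have a3 : (#V : ℝ) ≤ (M : ℝ) ^ γ :=
    calc (#V : ℝ) ≤ #U := by exact_mod_cast v1
      _ ≤ _ := u1
      _ ≤ ((M : ℝ) ^ (2 : ℝ)) ^ (γ / 2) := Real.rpow_le_rpow hN0 a2 (by positivity)
      _ = _ := by
        rw [← Real.rpow_mul (Nat.cast_nonneg _)]
        congr 1
        ring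
  have e1 : t / (K + 1) ≤ t := div_le_self t0.le (by linarith)
  have e2 : K * (t / (K + 1)) ≤ t := by
    rw [← mul_div_assoc, div_le_iff₀ (by linarith)]
    nlinarith
  have u3 : K * ∑ χ ∈ Vᶜ, G27.nu M χ ≤ t := (mul_le_mul_of_nonneg_left v2 hK.le).trans e2
  obtain ⟨χ, b0, a2⟩ := hE M (by omega) V a3 (by linarith)
  have hφ : (0 : ℝ) ≤ M.totient := Nat.cast_nonneg _
  obtain ⟨σ, b1, b2, b3⟩ := hS M χ t (by omega) b0 t2 (a2.trans u3)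
    (v3.trans (mul_le_mul_of_nonneg_right e1 hφ))
  refine ⟨m2, χ, σ, b0, ?_, b1, b2.trans (mul_le_mul_of_nonneg_right t1 hφ), b3⟩
  rintro rfl
  have := hP M (by omega)
  linarith

end Pool.Agent.G55
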