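import Pool.Agent.MP_b5e119_nt.G55.Defs

namespace Pool.Agent.G55

open Finset Filter Topology Pool.Agent.G60 Pool.Agent.G42
open Pool.Agent.G1A (pj fC)

theorem lev3_val {N M g : ℕ} [NeZero N] [NeZero M] (h : M * g = N) (a : ZMod M) :
    ((g * a.val : ℕ) : ZMod N).val = g * a.val := by
  have hg : 0 < g := Nat.pos_of_ne_zero (by rintro rfl; exact NeZero.ne N (by omega))
  refine ZMod.val_cast_of_lt ?_
  rw [← h, mul_comm M]
  exact Nat.mul_lt_mul_of_pos_left (ZMod.val_lt a) hg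

theorem lev3_ff {N M g : ℕ} [NeZero N] [NeZero M] (h : M * g = N) (a : ZMod M) :
    ff N ((g * a.val : ℕ) : ZMod N) = lam g * ff M a := by
  have hg : g ≠ 0 := by rintro rfl; exact NeZero.ne N (by omega)
  by_cases h0 : a = 0
  · subst h0
    simp [ff]
  · have h1 : a.val ≠ 0 := mt (ZMod.val_eq_zero a).1 h0
    have h2 : ((g * a.val : ℕ) : ZMod N) ≠ 0 := fun e => by
      have := lev3_val h a
      rw [e, ZMod.val_zero] at this
      exact mul_ne_zero hg h1 this.symm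
    rw [ff, if_neg h2, ff, if_neg h0, lev3_val h, lam_mul hg h1]

theorem lev3_neg {N M g : ℕ} [NeZero N] [NeZero M] (h : M * g = N) (a : ZMod M) :
    -((g * a.val : ℕ) : ZMod N) = ((g * (-a).val : ℕ) : ZMod N) := by
  rw [neg_eq_iff_add_eq_zero, ← Nat.cast_add, ← mul_add, ZMod.natCast_eq_zero_iff, ← h, mul_comm M]
  refine Nat.mul_dvd_mul_left _ ?_
  rw [← ZMod.natCast_eq_zero_iff]
  simp

theorem lev3_od [Sg] {N M g : ℕ} [NeZero N] [NeZero M] (h : M * g = N) :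
    odU M ≤ #{a ∈ ({a : ZMod N | ff N (-a) ≠ Sg.s * ff N a} : Finset (ZMod N)) |
      Nat.gcd a.val N = g} := by
  classical
  have hg : 0 < g := Nat.pos_of_ne_zero (by rintro rfl; exact NeZero.ne N (by omega))
  refine card_le_card_of_injOn (fun a => ((g * a.val : ℕ) : ZMod N)) (fun a ha => ?_)
    fun a _ b _ e => ?_
  · simp only [coe_filter, mem_filter, mem_univ, true_and, Set.mem_ofPred_eq] at ha ⊢
    refine ⟨?_, ?_⟩
    · rw [lev3_neg h, lev3_ff h, lev3_ff h, mul_left_comm]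
      intro e
      refine ha.2 (mul_left_cancel₀ ?_ e)
      rcases lam_cases g with c | c <;> rw [c] <;> norm_num
    · have hc : a.val.Coprime M := by
        rw [← ZMod.isUnit_iff_coprime, ZMod.natCast_zmod_val]
        exact ha.1
      rw [lev3_val h]
      conv_lhs => rw [← h, mul_comm M, Nat.gcd_mul_left, hc.gcd_eq_one, mul_one]
  · have e' := congrArg ZMod.val e
    simp only [lev3_val h] at e'
    exact ZMod.val_injective _ (Nat.eq_of_mul_eq_mul_left hg e')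

theorem lev3_big (hT : G27.TAU_s) : ∃ N₀ : ℕ, ∀ N : ℕ, N₀ ≤ N →
    3 / 4 * (N : ℝ) ≤ ∑ g ∈ N.divisors with g ^ 1000 ≤ N, ((N / g).totient : ℝ) := by
  obtain ⟨C, hC, hT⟩ := hT.2 (1 / 2000) (by norm_num)
  obtain ⟨N₀, h0⟩ := eventually_atTop.1 (((tendsto_rpow_atTop (by norm_num : (0 : ℝ) < 1 / 2000)).comp
    tendsto_natCast_atTop_atTop).eventually_ge_atTop (4 * C))
  refine ⟨N₀ + 1, fun N hN => ?_⟩
  have hN0 : (0 : ℝ) < N := by exact_mod_cast (by omega : 0 < N)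
  obtain ⟨s, hs⟩ : ∃ s : ℝ, s = (N : ℝ) ^ (1 / 2000 : ℝ) := ⟨_, rfl⟩
  have s0 : 0 < s := by rw [hs]; positivity
  have s1 : 4 * C ≤ s := hs ▸ h0 N (by omega)
  have s2 : (s * s) ^ 1000 = N := by
    rw [← sq, ← pow_mul, hs, ← Real.rpow_natCast, ← Real.rpow_mul hN0.le]
    norm_num
  have e1 : ∑ g ∈ N.divisors, ((N / g).totient : ℝ) = N := by
    rw [Nat.sum_div_divisors N fun d => (d.totient : ℝ)]
    exact_mod_cast Nat.sum_totient N
  have e2 := sum_filter_add_sum_filter_not N.divisors (fun g => g ^ 1000 ≤ N)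
    fun g => ((N / g).totient : ℝ)
  have e3 : ∑ g ∈ N.divisors with ¬g ^ 1000 ≤ N, ((N / g).totient : ℝ) ≤
      #N.divisors * (N / (s * s)) := by
    refine (sum_le_card_nsmul _ _ (N / (s * s)) fun g hg => ?_).trans ?_
    · have g1 : (s * s) ^ 1000 < (g : ℝ) ^ 1000 := by
        rw [s2]
        exact_mod_cast not_le.1 (mem_filter.1 hg).2
      have g2 : s * s < g := lt_of_pow_lt_pow_left₀ _ (Nat.cast_nonneg _) g1
      calc ((N / g).totient : ℝ) ≤ (N / g : ℕ) := by exact_mod_cast Nat.totient_le _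
        _ ≤ N / g := Nat.cast_div_le
        _ ≤ _ := div_le_div_of_nonneg_left hN0.le (by positivity) g2.le
    · rw [nsmul_eq_mul]
      exact mul_le_mul_of_nonneg_right (by exact_mod_cast card_filter_le _ _) (by positivity)
  have e4 : (#N.divisors : ℝ) * (N / (s * s)) ≤ 1 / 4 * N := by
    refine (mul_le_mul_of_nonneg_right (hs ▸ hT N) (by positivity)).trans ?_
    rw [show C * s * (N / (s * s)) = C / s * N by field_simp]
    refine mul_le_mul_of_nonneg_right ?_ hN0.le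
    rw [div_le_iff₀ s0]
    linarith
  linarith

theorem lev3_row [Sg] (hL : G1A.LEV1_s) (hT : G27.TAU_s) : LEV3_s := by
  classical
  obtain ⟨N₀, hB⟩ := lev3_big hT
  refine ⟨N₀, fun N _ hN U e β he hβ hU hod => ?_⟩
  have hN0 : (0 : ℝ) < N := by exact_mod_cast NeZero.pos N
  obtain ⟨O, hO⟩ : ∃ O : Finset (ZMod N),
      O = univ.filter fun a : ZMod N => ff N (-a) ≠ Sg.s * ff N a := ⟨_, rfl⟩
  obtain ⟨A, hA⟩ : ∃ A : ℕ → ℝ, ∀ g, A g =
      (∑ a : ZMod N with Nat.gcd a.val N = g, ∑ χ ∈ Uᶜ, ‖pj N (fC N) χ a‖ ^ 2) / (8 * e) +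
        (∑ a ∈ O with Nat.gcd a.val N = g, (1 : ℝ)) / (8 * β) := ⟨_, fun _ => rfl⟩
  obtain ⟨T, hT'⟩ : ∃ T, T = N.divisors.filter (fun g => g ^ 1000 ≤ N) := ⟨_, rfl⟩
  have h2 : ∑ g ∈ T, ∑ a : ZMod N with Nat.gcd a.val N = g,
      ∑ χ ∈ Uᶜ, ‖pj N (fC N) χ a‖ ^ 2 ≤ e * N := by
    refine (sum_fiberwise_le_sum_of_sum_fiber_nonneg fun _ _ => by positivity).trans ?_
    rw [sum_comm]
    exact hU
  have h3 : ∑ g ∈ T, ∑ a ∈ O with Nat.gcd a.val N = g, (1 : ℝ) ≤ β * N := by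
    refine (sum_fiberwise_le_sum_of_sum_fiber_nonneg fun _ _ => by positivity).trans ?_
    rw [sum_const, nsmul_eq_mul, mul_one, hO]
    exact hod
  have h4 := div_le_div_of_nonneg_right h2 (by positivity : 0 ≤ 8 * e)
  have h5 := div_le_div_of_nonneg_right h3 (by positivity : 0 ≤ 8 * β)
  rw [show e * N / (8 * e) = N / 8 by field_simp] at h4
  rw [show β * N / (8 * β) = N / 8 by field_simp] at h5
  have h6 : ∑ g ∈ T, A g ≤ N / 4 := by
    rw [sum_congr rfl fun g _ => hA g, sum_add_distrib, ← sum_div, ← sum_div]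
    linarith
  have A0 : ∀ g, 0 ≤ A g := fun g => by rw [hA]; positivity
  refine ⟨T.filter fun g => A g ≤ ((N / g).totient : ℝ),
    (filter_subset _ _).trans (hT' ▸ filter_subset _ _), ?_, fun g hg M _ hM' => ?_⟩
  · have h1 := hB N hN
    rw [← hT', ← sum_filter_add_sum_filter_not T fun g => A g ≤ ((N / g).totient : ℝ)] at h1
    have h7 : ∑ g ∈ T with ¬A g ≤ ((N / g).totient : ℝ), ((N / g).totient : ℝ) ≤ ∑ g ∈ T, A g :=
      (sum_le_sum fun g hg => (not_le.1 (mem_filter.1 hg).2).le).trans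
        (sum_le_sum_of_subset_of_nonneg (filter_subset _ _) fun g _ _ => A0 g)
    linarith
  obtain ⟨g0, g3⟩ := mem_filter.1 hg
  rw [hT'] at g0
  obtain ⟨g1, g2⟩ := mem_filter.1 g0
  have g0 : 0 < g := Nat.pos_of_mem_divisors g1
  have hd : M ∣ N := Dvd.intro _ hM'
  rw [show N / g = M by rw [← hM', Nat.mul_div_cancel _ g0], hA] at g3
  obtain ⟨V, hV⟩ : ∃ V : Finset (Ch M),
      V = univ.filter fun ψ => DirichletCharacter.changeLevel hd ψ ∈ U := ⟨_, rfl⟩
  have inj := DirichletCharacter.changeLevel_injective (R := ℂ) hd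
  have v1 : #V ≤ #U := card_le_card_of_injOn (DirichletCharacter.changeLevel hd)
    (fun ψ h => by simpa [hV] using h) inj.injOn
  have v2 : (M.totient : ℝ) * ∑ ψ ∈ Vᶜ, G27.nu M ψ ≤
      ∑ a : ZMod N with Nat.gcd a.val N = g, ∑ χ ∈ Uᶜ, ‖pj N (fC N) χ a‖ ^ 2 := by
    rw [mul_sum, sum_comm]
    refine (sum_le_sum fun ψ _ => hL N M g hd ψ hM').trans ?_
    rw [← sum_image (f := fun χ => ∑ a : ZMod N with Nat.gcd a.val N = g,
      ‖pj N (fC N) χ a‖ ^ 2) inj.injOn]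
    refine sum_le_sum_of_subset_of_nonneg (fun χ h => ?_) fun _ _ _ => by positivity
    obtain ⟨ψ, h1, rfl⟩ := mem_image.1 h
    simpa [hV] using h1
  have v3 : (odU M : ℝ) ≤ ∑ a ∈ O with Nat.gcd a.val N = g, (1 : ℝ) := by
    rw [sum_const, nsmul_eq_mul, mul_one, hO]
    exact_mod_cast lev3_od hM'
  have v4 : N ^ 999 ≤ M ^ 1000 := by
    refine Nat.le_of_mul_le_mul_right ?_ (pow_pos g0 1000)
    rw [← mul_pow, hM', pow_succ N 999]
    exact Nat.mul_le_mul_left _ g2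
  have hφ : (0 : ℝ) < M.totient := by exact_mod_cast Nat.totient_pos.2 (NeZero.pos M)
  have p1 : 0 ≤ (∑ a : ZMod N with Nat.gcd a.val N = g, ∑ χ ∈ Uᶜ, ‖pj N (fC N) χ a‖ ^ 2) /
      (8 * e) := by positivity
  have p2 : 0 ≤ (∑ a ∈ O with Nat.gcd a.val N = g, (1 : ℝ)) / (8 * β) := by positivity
  have q1 := (le_add_of_nonneg_right p2).trans g3
  have q2 := (le_add_of_nonneg_left p1).trans g3
  rw [div_le_iff₀ (by positivity)] at q1 q2
  exact ⟨v4, V, v1, le_of_mul_le_mul_left (v2.trans q1) hφ, by linarith⟩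

end Pool.Agent.G55
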