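import Pool.Agent.MP_b5e119_nt.G55.Defs
import Pool.Agent.MP_b5e119_nt.G27.MANYG
import Pool.Agent.MP_b5e119_nt.G27.SIEGG

/-! Row MLE of campaign h55s: the value at `1` against the split primes. -/

namespace Pool.Agent.G55

open Finset Filter Topology Pool.Agent.G60 Pool.Agent.G42
open Pool.Agent.G27 (re)

theorem mle_pos (a : ℕ → ℝ) (h1 : a 1 = 1) (hm : ∀ m n, m ≠ 0 → n ≠ 0 → a (m * n) = a m * a n)
    (h3 : ∀ q, a q = 0 ∨ a q = 1 ∨ a q = -1) (n : ℕ) : 0 ≤ ∑ d ∈ n.divisors, a d := by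
  rcases Nat.eq_zero_or_pos n with rfl | hn
  · simp
  obtain ⟨f, hf⟩ : ∃ f : ArithmeticFunction ℝ, ∀ n, f n = if n = 0 then 0 else a n :=
    ⟨⟨fun n => if n = 0 then 0 else a n, if_pos rfl⟩, fun _ => rfl⟩
  have e : ∀ n : ℕ, ∑ d ∈ n.divisors, a d =
      (f * (ArithmeticFunction.zeta : ArithmeticFunction ℝ)) n := fun n => by
    rw [ArithmeticFunction.coe_mul_zeta_apply]
    exact sum_congr rfl fun d hd => by rw [hf, if_neg (Nat.pos_of_mem_divisors hd).ne']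
  have m1 : f.IsMultiplicative := ⟨by rw [hf, if_neg one_ne_zero, h1], fun {m n} _ => by
    rcases eq_or_ne m 0 with rfl | ha
    · simp
    rcases eq_or_ne n 0 with rfl | hb
    · simp
    rw [hf, hf, hf, if_neg (mul_ne_zero ha hb), if_neg ha, if_neg hb, hm m n ha hb]⟩
  have m2 := m1.mul (ArithmeticFunction.isMultiplicative_zeta.natCast (R := ℝ))
  rw [e, m2.multiplicative_factorization _ hn.ne']
  refine Finset.prod_nonneg fun q hq => ?_
  have hq' : q.Prime := Nat.prime_of_mem_primeFactors hq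
  refine le_of_le_of_eq ?_ (e (q ^ n.factorization q))
  rw [Nat.sum_divisors_prime_pow hq']
  have hp : ∀ k, a (q ^ k) = a q ^ k := fun k => by
    induction k with
    | zero => rw [pow_zero, pow_zero, h1]
    | succ k ih => rw [pow_succ, pow_succ, hm _ _ (pow_ne_zero _ hq'.ne_zero) hq'.ne_zero, ih]
  simp only [hp]
  rcases h3 q with h | h | h
  · rw [h]; exact sum_nonneg fun i _ => by positivity
  · rw [h]; exact sum_nonneg fun i _ => by positivity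
  · rw [h, neg_one_geom_sum]
    split_ifs <;> norm_num

open Classical in
theorem mle_nsp (hSQ : SQ_s) (N : ℕ) [NeZero N] (χ : Ch N) (x : ℕ) (h2 : χ ^ 2 = 1) :
    ∑ n ∈ Icc 1 x with ¬Sp χ n, rx χ n ≤ #N.divisors * √x := by
  refine le_trans ?_ ((le_abs_self _).trans (G27.manyg_sq hSQ N x (NeZero.ne N)))
  have hp := mle_pos (fun d => if d.Coprime N then (lam d : ℝ) else 0) (by simp [lam_one])
    (fun m n hm hn => by
      simp only [Nat.coprime_mul_iff_left, lam_mul hm hn]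
      by_cases a : m.Coprime N
      · by_cases b : n.Coprime N
        · rw [if_pos ⟨a, b⟩, if_pos a, if_pos b, Int.cast_mul]
        · rw [if_neg fun h => b h.2, if_neg b, mul_zero]
      · rw [if_neg fun h => a h.1, if_neg a, zero_mul])
    (fun q => by
      by_cases a : q.Coprime N
      · rcases lam_cases q with h | h <;> simp [a, h]
      · simp [a])
  refine le_trans (le_of_eq (sum_congr rfl fun n hn => ?_))
    (sum_le_sum_of_subset_of_nonneg (filter_subset (fun n => ¬Sp χ n) _) fun n _ _ => hp n)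
  refine sum_congr rfl fun d hd => ?_
  refine G27.manyg_eq (fun n => (re χ n : ℝ)) N (by simp [re])
    (fun m n => by simp only [G27.re_mul h2, Int.cast_mul])
    (fun q hq hN => by
      simp only [G27.re_nonunit χ fun hc => hq.coprime_iff_not_dvd.1 hc hN, Int.cast_zero])
    d (Nat.pos_of_mem_divisors hd) fun q hq hqd hN => ?_
  rcases G27.re_unit h2 (hq.coprime_iff_not_dvd.2 hN) with h | h
  · exact absurd ⟨q, hq, h, hqd.trans (Nat.dvd_of_mem_divisors hd)⟩ (mem_filter.1 hn).2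
  · simp only [h, Int.cast_neg, Int.cast_one]

open Classical in
theorem mle_diff (hSQ : SQ_s) (hL : LIDX_s) (hN : ZN_s) (hS : ZS_s) (N : ℕ) [NeZero N] (χ : Ch N)
    (h2 : χ ^ 2 = 1) (x₀ x₁ y : ℕ) (h0 : 0 < x₀) (h01 : x₀ ≤ x₁) (h1 : x₁ ≤ y)
    (hy : SL χ y ≤ 1 / 4) :
    ZX χ x₁ - ZX χ x₀ ≤ 8 * SL χ y * ((N : ℝ) / N.totient) + #N.divisors * √x₁ / x₀ ∧
      0 ≤ ZX χ x₁ - ZX χ x₀ := by
  have r0 := (hL N χ h2).1
  have r1 : ∀ n : ℕ, 0 ≤ rx χ n / n := fun n => div_nonneg (r0 n) (Nat.cast_nonneg _)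
  have z0 : 0 ≤ ZX χ x₁ := sum_nonneg fun n _ => r1 n
  have s0 : 0 ≤ SL χ x₁ := sum_nonneg fun n _ => by positivity
  have s1 : SL χ x₁ ≤ SL χ y :=
    sum_le_sum_of_subset_of_nonneg (filter_subset_filter _ (Icc_subset_Icc_right h1))
      fun n _ _ => by positivity
  have a1 := hN N χ x₁ h2
  have a2 := hS N χ x₁ h2
  have a3 : ∑ n ∈ Icc 1 x₁ with Sp χ n, rx χ n / n + ∑ n ∈ Icc 1 x₁ with ¬Sp χ n, rx χ n / n =
      ZX χ x₁ := sum_filter_add_sum_filter_not _ _ _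
  rw [mul_div_assoc] at a1
  obtain ⟨ρ, hρ⟩ : ∃ ρ : ℝ, ρ = (N : ℝ) / N.totient := ⟨_, rfl⟩
  rw [← hρ] at a1 ⊢
  have a4 : SL χ x₁ * ZX χ x₁ ≤ 1 / 4 * ZX χ x₁ := mul_le_mul_of_nonneg_right (s1.trans hy) z0
  have a5 : ZX χ x₁ ≤ 4 * ρ := by linarith
  have a6 : SL χ x₁ * ZX χ x₁ ≤ SL χ y * (4 * ρ) := mul_le_mul s1 a5 z0 (s0.trans s1)
  have xR : (0 : ℝ) < x₀ := by exact_mod_cast h0
  have a7 : ∑ n ∈ Icc 1 x₁ with ¬Sp χ n, rx χ n / n ≤
      ZX χ x₀ + (∑ n ∈ Icc 1 x₁ with ¬Sp χ n, rx χ n) / x₀ := by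
    rw [← sum_filter_add_sum_filter_not _ (fun n => n ≤ x₀), sum_div]
    refine add_le_add (sum_le_sum_of_subset_of_nonneg (fun n hn => ?_) fun n _ _ => r1 n) ?_
    · simp only [mem_filter, mem_Icc] at hn ⊢
      exact ⟨hn.1.1.1, hn.2⟩
    · refine le_trans (sum_le_sum fun n hn => ?_) (sum_le_sum_of_subset_of_nonneg
        (filter_subset (fun n => ¬n ≤ x₀) _) fun n _ _ => div_nonneg (r0 n) xR.le)
      refine div_le_div_of_nonneg_left (r0 n) xR ?_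
      exact_mod_cast (not_le.1 (mem_filter.1 hn).2).le
  have a8 := div_le_div_of_nonneg_right (mle_nsp hSQ N χ x₁ h2) xR.le
  refine ⟨by linarith, sub_nonneg.2 ?_⟩
  exact sum_le_sum_of_subset_of_nonneg (Icc_subset_Icc_right h01) fun n _ _ => r1 n

theorem mle_row (hR : RASX_s) (hL : LIDX_s) (hN : ZN_s) (hS : ZS_s) (hT : G27.TAU_s)
    (hP : G27.PHI_s) (hSQ : SQ_s) : MLE_s := by
  obtain ⟨κ₁, hκ₁, N₁, hR⟩ := hR
  obtain ⟨κ, hκ, k1, k2⟩ : ∃ κ : ℝ, 0 < κ ∧ κ ≤ κ₁ ∧ κ ≤ 1 / 1000 :=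
    ⟨min κ₁ (1 / 1000), lt_min hκ₁ (by norm_num), min_le_left _ _, min_le_right _ _⟩
  obtain ⟨c, hc, hSg⟩ := G27.siegg_norm hP κ hκ
  obtain ⟨C, hC, hT⟩ := hT.2 (1 / 1000) (by norm_num)
  obtain ⟨K, K3, KC, Kc⟩ : ∃ K : ℝ, 3 ≤ K ∧ 2 * C ≤ K ∧ Real.exp (4 / c) ≤ K :=
    ⟨3 + 2 * C + Real.exp (4 / c), by have := Real.exp_pos (4 / c); linarith,
      by have := Real.exp_pos (4 / c); linarith, by linarith⟩
  refine ⟨16000, N₁ + ⌈K ^ 1000⌉₊ + 1, by norm_num, fun N _ χ y hN0 h2 h1 hy hS4 => ?_⟩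
  have NR : (0 : ℝ) < N := by exact_mod_cast (by omega : 0 < N)
  have N1 : (1 : ℝ) ≤ N := by exact_mod_cast (by omega : 1 ≤ N)
  obtain ⟨u, hu⟩ : ∃ u : ℝ, u = (N : ℝ) ^ (1 / 1000 : ℝ) := ⟨_, rfl⟩
  have u0 : 0 < u := by rw [hu]; exact Real.rpow_pos_of_pos NR _
  have hk : ∀ k : ℕ, u ^ k = (N : ℝ) ^ ((k : ℝ) / 1000) := by
    intro k
    rw [hu, ← Real.rpow_natCast, ← Real.rpow_mul NR.le]
    congr 1
    ring
  have hpu : (N : ℝ) = u ^ 1000 := by rw [hk]; norm_num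
  have hKu : K ≤ u := by
    have h1 : K ^ 1000 ≤ u ^ 1000 := by
      rw [← hpu]
      refine (Nat.le_ceil _).trans ?_
      exact_mod_cast (by omega : ⌈K ^ 1000⌉₊ ≤ N)
    exact le_of_pow_le_pow_left₀ (by norm_num) u0.le h1
  have u3 : 3 ≤ u := K3.trans hKu
  have u1 : 1 ≤ u := by linarith
  have e330 : (N : ℝ) ^ (0.33 : ℝ) = u ^ 330 := by rw [hk]; norm_num
  have e333 : (N : ℝ) ^ (0.333 : ℝ) = u ^ 333 := by rw [hk]; norm_num
  rw [e333] at hy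
  have ce : ∀ t : ℝ, 1 ≤ t → ∃ A : ℕ, 0 < A ∧ t ≤ A ∧ (A : ℝ) ≤ 2 * t := fun t ht => by
    refine ⟨⌈t⌉₊, Nat.ceil_pos.2 (by linarith), Nat.le_ceil t, ?_⟩
    have := Nat.ceil_lt_add_one (show 0 ≤ t by linarith)
    linarith
  obtain ⟨x₀, x0, x1, x2⟩ := ce (u ^ 330) (one_le_pow₀ u1)
  obtain ⟨x₁, y0, y1, y2⟩ := ce (u ^ 332) (one_le_pow₀ u1)
  obtain ⟨v, hv⟩ : ∃ v : ℝ, v = u ^ 166 := ⟨_, rfl⟩
  obtain ⟨w, hw⟩ : ∃ w : ℝ, w = u ^ 330 := ⟨_, rfl⟩
  have w1 : 1 ≤ w := hw ▸ one_le_pow₀ u1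
  have v1 : 1 ≤ v := hv ▸ one_le_pow₀ u1
  have p2 : u ^ 332 = w * u * u := by rw [hw]; ring
  have p3 : u ^ 333 = w * u * u * u := by rw [hw]; ring
  have p4 : u ^ 332 = v ^ 2 := by rw [hv]; ring
  have p5 : u ^ 333 ≤ N := by rw [hpu]; exact pow_le_pow_right₀ u1 (by norm_num)
  have p6 : v * u * u * u ≤ w := by
    rw [hv, hw, ← pow_succ, ← pow_succ, ← pow_succ]
    exact pow_le_pow_right₀ u1 (by norm_num)
  rw [← hw] at x1 x2 e330
  have xR : (0 : ℝ) < x₀ := by exact_mod_cast x0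
  have tr : ∀ t : ℝ, 0 ≤ t → 3 * t ≤ t * u := fun t ht =>
    mul_comm u t ▸ mul_le_mul_of_nonneg_right u3 ht
  have w0 : 0 ≤ w := by linarith
  have wu := tr w w0
  have wuu := tr (w * u) (by positivity)
  have wuuu := tr (w * u * u) (by positivity)
  have q1 : (x₀ : ℝ) * u ≤ x₁ := by
    have := mul_le_mul_of_nonneg_right x2 u0.le
    rw [p2] at y1
    linarith
  have q2 : x₀ ≤ x₁ := by
    have : (x₀ : ℝ) ≤ x₁ := (le_mul_of_one_le_right xR.le u1).trans q1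
    exact_mod_cast this
  have q3 : (x₁ : ℝ) + 1 ≤ u ^ 333 := by rw [p3]; rw [p2] at y2; linarith
  have q4 : x₁ ≤ y := by
    have : (x₁ : ℝ) ≤ y := by linarith
    exact_mod_cast this
  have q5 : x₁ ≤ N := by
    have : (x₁ : ℝ) ≤ N := by linarith
    exact_mod_cast this
  obtain ⟨L, eL, tL⟩ := G27.siegg_L h2 h1
  have b1 := hR N (by omega) χ h2 h1 L tL x₀ x₁ (e330 ▸ x1) q2 q5
  obtain ⟨b2, b3⟩ := mle_diff hSQ hL hN hS N χ h2 x₀ x₁ y x0 q2 q4 hS4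
  have b4 := hSg N χ h2 h1
  rw [eL] at b4 ⊢
  have lg : Real.log N = 1000 * Real.log u := by
    rw [hpu, Real.log_pow]; norm_num
  have lg1 : Real.log u ≤ Real.log ((x₁ : ℝ) / x₀) :=
    Real.log_le_log u0 (by rw [le_div_iff₀ xR]; linarith)
  have lg2 : 4 / c ≤ Real.log u := (Real.le_log_iff_exp_le u0).2 (Kc.trans hKu)
  have lg0 : 0 ≤ Real.log u := Real.log_nonneg u1
  obtain ⟨E, hE⟩ : ∃ E : ℝ, E = 1 / (N : ℝ) ^ κ := ⟨_, rfl⟩
  have E0 : 0 < (N : ℝ) ^ κ := Real.rpow_pos_of_pos NR _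
  have c1 : (N : ℝ) ^ (-κ₁) ≤ E := by
    rw [hE, one_div, ← Real.rpow_neg NR.le]
    exact Real.rpow_le_rpow_of_exponent_le N1 (by linarith)
  have c2 : #N.divisors * √(x₁ : ℝ) / x₀ ≤ E := by
    have t1 := hT N
    rw [← hu] at t1
    have t2 : √(x₁ : ℝ) ≤ 2 * v := Real.sqrt_le_iff.2 ⟨by linarith, by
      have := sq_nonneg v
      rw [p4] at y2
      rw [mul_pow]
      linarith⟩
    have t3 : (N : ℝ) ^ κ ≤ u := hu ▸ Real.rpow_le_rpow_of_exponent_le N1 k2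
    have t4 := mul_le_mul t1 t2 (Real.sqrt_nonneg _) (by positivity)
    rw [hE, div_le_div_iff₀ xR E0, one_mul]
    have t5 := mul_le_mul t4 t3 E0.le (by positivity)
    have t6 : 2 * C * (v * u * u) ≤ u * (v * u * u) :=
      mul_le_mul_of_nonneg_right (KC.trans hKu) (by positivity)
    linarith
  have c3 : c * E ≤ |L| := by rw [hE, mul_one_div]; exact b4
  have L0 := abs_nonneg L
  have c4 : 2 * E ≤ |L| * Real.log u / 2 := by
    have t1 : 4 / c * (c * E) ≤ Real.log u * |L| :=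
      mul_le_mul lg2 c3 (by rw [hE]; positivity) lg0
    have t2 : 4 / c * (c * E) = 4 * E := by field_simp
    linarith
  have c5 : |L| * Real.log u ≤ (ZX χ x₁ - ZX χ x₀) + (N : ℝ) ^ (-κ₁) := by
    have t1 := abs_sub_abs_le_abs_sub (L * Real.log ((x₁ : ℝ) / x₀)) (ZX χ x₁ - ZX χ x₀)
    rw [abs_mul, abs_of_nonneg b3, abs_of_nonneg (lg0.trans lg1), abs_sub_comm] at t1
    have t2 := mul_le_mul_of_nonneg_left lg1 L0
    linarith
  have c6 : |L| * Real.log u ≤ 16 * SL χ y * ((N : ℝ) / N.totient) := by linarith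
  have φ0 : (0 : ℝ) < N.totient := by exact_mod_cast Nat.totient_pos.2 (by omega)
  have c7 := mul_le_mul_of_nonneg_left c6 (div_pos φ0 NR).le
  have c8 : (N.totient : ℝ) / N * (16 * SL χ y * ((N : ℝ) / N.totient)) = 16 * SL χ y := by
    field_simp
  rw [lg]
  linarith

end Pool.Agent.G55
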