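import Pool.Agent.MP_b5e119_nt.G55.Defs

namespace Pool.Agent.G55

open Finset Filter Topology Pool.Agent.G60 Pool.Agent.G42

theorem scs_pos (p m : ℕ) (hp : 0 < p) (hm : m + 1 ≤ Nat.log 2 p) : 2 ^ m ≤ p - 1 := by
  have h1 : 2 ^ Nat.log 2 p ≤ p := Nat.pow_log_le_self 2 (by omega)
  have h2 : 2 ^ (m + 1) ≤ 2 ^ Nat.log 2 p := Nat.pow_le_pow_right (by norm_num) hm
  have h3 : 0 < 2 ^ m := by positivity
  rw [pow_succ] at h2
  omega

theorem scs_dy (g : ℕ → ℝ) (a b : ℕ) (h : a ≤ b) :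
    ∑ j ∈ Ico a b, ∑ q ∈ Ico (2 ^ j) (2 ^ (j + 1)), g q = ∑ q ∈ Ico (2 ^ a) (2 ^ b), g q := by
  induction b, h using Nat.le_induction with
  | base => simp
  | succ b hb ih =>
    rw [sum_Ico_succ_top hb, ih]
    exact sum_Ico_consecutive _ (Nat.pow_le_pow_right (by norm_num) hb)
      (Nat.pow_le_pow_right (by norm_num) (by omega))

theorem scs_bad (G : ℕ → ℤ) (M j : ℕ) (hj : 0 < j)
    (h : 2 ^ j ≤ 4 * j * #{q ∈ PN M j | G q ≠ 1}) :
    1 ≤ 12 * ∑ q ∈ Ico (2 ^ j : ℕ) (2 ^ (j + 1)),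
      (if q.Prime ∧ ¬q ∣ M ∧ G q ≠ 1 then Real.log q / q else 0) := by
  rw [← sum_filter]
  have h1 : ({q ∈ PN M j | G q ≠ 1} : Finset ℕ) =
      {q ∈ Ico (2 ^ j : ℕ) (2 ^ (j + 1)) | q.Prime ∧ ¬q ∣ M ∧ G q ≠ 1} := by
    ext q
    simp only [PN, PB, mem_filter, and_assoc]
  rw [← h1]
  have hl : (0.69 : ℝ) < Real.log 2 := lt_trans (by norm_num) Real.log_two_gt_d9
  have h2 : ∀ q ∈ ({q ∈ PN M j | G q ≠ 1} : Finset ℕ),
      (j : ℝ) * Real.log 2 / 2 ^ (j + 1) ≤ Real.log q / q := by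
    intro q hq
    rw [h1] at hq
    obtain ⟨h3, h4⟩ := mem_Ico.1 (mem_filter.1 hq).1
    have h5 : (2 : ℝ) ^ j ≤ q := by exact_mod_cast h3
    have h6 : (q : ℝ) ≤ 2 ^ (j + 1) := by exact_mod_cast h4.le
    have h7 : (0 : ℝ) < q := lt_of_lt_of_le (by positivity) h5
    have h8 : (j : ℝ) * Real.log 2 ≤ Real.log q := by
      rw [← Real.log_pow]
      exact Real.log_le_log (by positivity) h5
    exact div_le_div₀ (le_trans (by positivity) h8) h8 h7 h6
  have h3 := card_nsmul_le_sum _ _ _ h2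
  rw [nsmul_eq_mul] at h3
  have h4 : (2 : ℝ) ^ j ≤ 4 * j * #{q ∈ PN M j | G q ≠ 1} := by exact_mod_cast h
  refine le_trans ?_ (mul_le_mul_of_nonneg_left h3 (by norm_num))
  rw [← mul_div_assoc, ← mul_div_assoc, le_div_iff₀ (by positivity), pow_succ]
  have h5 : (0 : ℝ) < 2 ^ j := by positivity
  nlinarith

theorem scs_row (hPAIR : PAIRX_s) (hSIZ : SIZA_s) (hSPT : SPTA_s) (hDYA : DYA_s)
    (hUNV : UNV_s) : SCS_s := by
  intro ε hε
  obtain ⟨i₀, hD⟩ := hDYA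
  obtain ⟨N₁, hS⟩ := hSIZ
  obtain ⟨δ₁, hδ₁, N₂, hT⟩ := hSPT (ε / 48) (by positivity)
  obtain ⟨N₃, hU⟩ := hUNV
  refine ⟨min δ₁ (ε / 5120000), lt_min hδ₁ (by positivity),
    max (max N₁ N₂) (max N₃ (2 ^ (200 * (i₀ + 1)))), fun G M σ hM hG hσ hE => ?_⟩
  have hM1 : N₁ ≤ M := le_trans (le_trans (le_max_left _ _) (le_max_left _ _)) hM
  have hM2 : N₂ ≤ M := le_trans (le_trans (le_max_right _ _) (le_max_left _ _)) hM
  have hM3 : N₃ ≤ M := le_trans (le_trans (le_max_left _ _) (le_max_right _ _)) hM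
  have hp : 2 ^ (200 * (i₀ + 1)) ≤ M :=
    le_trans (le_trans (le_max_right _ _) (le_max_right _ _)) hM
  have hS2 := (hS M hM1).2
  have hl : 200 * (i₀ + 1) ≤ Nat.log 2 M := Nat.le_log_of_pow_le (by norm_num) hp
  have hp0 : 0 < M := lt_of_lt_of_le (by positivity) hp
  have hMR : (0 : ℝ) < M := by exact_mod_cast hp0
  have htR : (0 : ℝ) < M.totient := by exact_mod_cast Nat.totient_pos.2 hp0
  have ha : aa M = Nat.log 2 M / 200 := rfl
  have hT1 := hT G M σ hM2 hG hσ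
    (hE.trans (mul_le_mul_of_nonneg_right (min_le_left _ _) htR.le))
  have hE2 : (#{u ∈ UY M 0 | G u ≠ σ} : ℝ) ≤ ε / 5120000 * M.totient :=
    hE.trans (mul_le_mul_of_nonneg_right (min_le_right _ _) htR.le)
  have hP := hPAIR G M (aa M) (85 * aa M - 1) 0 σ hG
  set g : ℕ → ℝ := fun q => if q.Prime ∧ ¬q ∣ M ∧ G q ≠ 1 then Real.log q / q else 0 with hg
  have hg0 : ∀ q, 0 ≤ g q := fun q => by
    rw [hg]
    dsimp only
    split_ifs
    · exact div_nonneg (Real.log_natCast_nonneg q) (Nat.cast_nonneg q)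
    · exact le_rfl
  set pr : ℕ → ℕ := fun j => #{z ∈ PN M j ×ˢ UY M (0 + j + 1) | G z.1 * G z.2 ≠ σ} with hpr
  have hj : ∀ j ∈ Ico (aa M) (85 * aa M - 1), ex G M σ (j + 1) ≤
      16 * (Nat.log 2 M : ℝ) / M.totient * pr j +
        24 * ∑ q ∈ Ico (2 ^ j : ℕ) (2 ^ (j + 1)), g q := by
    intro j hj
    obtain ⟨b2, b3⟩ := mem_Ico.1 hj
    have c1 : 2 ^ j ≤ j * #(PB j) := (hD j (by omega)).1
    have c0 := hS2 j (by omega)
    have c2 := card_filter_add_card_filter_not (s := PN M j) (fun q => G q = 1)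
    have c3 : 2 ^ aa M ≤ YY M (j + 1) := by
      unfold YY
      rw [Nat.le_div_iff_mul_le (by positivity), ← pow_add]
      exact scs_pos M _ hp0 (by omega)
    have c4 : 0 < YY M (j + 1) := lt_of_lt_of_le (by positivity) c3
    have c5 : (0 : ℝ) < YY M (j + 1) := by exact_mod_cast c4
    have hs0 : 0 ≤ ∑ q ∈ Ico (2 ^ j : ℕ) (2 ^ (j + 1)), g q := sum_nonneg fun q _ => hg0 q
    by_cases hgood : #(PN M j) ≤ 2 * #{q ∈ PN M j | G q = 1}
    · have d1 : #{q ∈ PN M j | G q = 1} * #{u ∈ UY M (j + 1) | G u ≠ σ} ≤ pr j := by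
        rw [← card_product, hpr]
        dsimp only
        rw [zero_add]
        refine card_le_card fun z hz => ?_
        obtain ⟨d1, d2⟩ := mem_product.1 hz
        obtain ⟨d3, d4⟩ := mem_filter.1 d1
        obtain ⟨d5, d6⟩ := mem_filter.1 d2
        refine mem_filter.2 ⟨mem_product.2 ⟨d3, d5⟩, ?_⟩
        rw [d4, one_mul]
        exact d6
      have d2 : M - 1 < 2 ^ (j + 1) * (YY M (j + 1) + 1) :=
        Nat.lt_mul_div_succ _ (by positivity)
      have d3 : #{u ∈ UY M (j + 1) | G u ≠ σ} * M ≤ 16 * Nat.log 2 M * pr j * YY M (j + 1) := by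
        set Y' := YY M (j + 1)
        set n1 := #{q ∈ PN M j | G q = 1}
        set E := #{u ∈ UY M (j + 1) | G u ≠ σ}
        calc E * M ≤ E * (2 ^ (j + 1) * (Y' + 1)) := Nat.mul_le_mul_left _ (by omega)
          _ ≤ E * (2 ^ (j + 1) * (2 * Y')) :=
            Nat.mul_le_mul_left _ (Nat.mul_le_mul_left _ (by omega))
          _ = 4 * 2 ^ j * E * Y' := by ring
          _ ≤ 4 * (Nat.log 2 M * (4 * n1)) * E * Y' :=
            Nat.mul_le_mul_right _ (Nat.mul_le_mul_right _ (Nat.mul_le_mul_left _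
              (le_trans c1 (Nat.mul_le_mul (by omega) (by omega)))))
          _ = 16 * Nat.log 2 M * (n1 * E) * Y' := by ring
          _ ≤ _ := Nat.mul_le_mul_right _ (Nat.mul_le_mul_left _ d1)
      have d4 : (#{u ∈ UY M (j + 1) | G u ≠ σ} : ℝ) * M ≤
          16 * (Nat.log 2 M : ℝ) * pr j * YY M (j + 1) := by exact_mod_cast d3
      have d5 : ex G M σ (j + 1) ≤ 16 * (Nat.log 2 M : ℝ) / M.totient * pr j := by
        unfold ex
        rw [div_le_iff₀ (by positivity)]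
        refine d4.trans (le_of_eq ?_)
        field_simp
      linarith
    · have d1 : 2 ^ j ≤ 4 * j * #{q ∈ PN M j | G q ≠ 1} := by
        refine le_trans c1 ?_
        have d2 : #(PB j) ≤ 4 * #{q ∈ PN M j | ¬G q = 1} := by omega
        calc j * #(PB j) ≤ j * (4 * #{q ∈ PN M j | ¬G q = 1}) := Nat.mul_le_mul_left _ d2
          _ = _ := by ring
      have d2 := scs_bad G M j (by omega) d1
      have d3 : M ≤ YY M (j + 1) ^ 400 := by
        have e1 : M < 2 ^ (Nat.log 2 M + 1) := Nat.lt_pow_succ_log_self (by norm_num) M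
        have e2 : 2 ^ (Nat.log 2 M + 1) ≤ 2 ^ (aa M * 400) :=
          Nat.pow_le_pow_right (by norm_num) (by omega)
        rw [pow_mul] at e2
        exact le_trans (le_trans e1.le e2) (Nat.pow_le_pow_left c3 _)
      have d4 := (hU M _ hM3 d3).1
      have d5 : (#{u ∈ UY M (j + 1) | G u ≠ σ} : ℝ) ≤ G27.UN M (YY M (j + 1)) := by
        have e1 : #{u ∈ UY M (j + 1) | G u ≠ σ} ≤ G27.UN M (YY M (j + 1)) :=
          card_filter_le _ _
        exact_mod_cast e1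
      have d6 : ex G M σ (j + 1) ≤ 2 := by
        unfold ex
        rw [div_le_iff₀ (by positivity)]
        have e1 := d5.trans d4
        rw [le_div_iff₀ hMR] at e1
        linarith
      have d7 : 0 ≤ 16 * (Nat.log 2 M : ℝ) / M.totient * pr j := by positivity
      linarith
  have h1 : ∑ k ∈ Ico (aa M + 1) (85 * aa M), ex G M σ k =
      ∑ j ∈ Ico (aa M) (85 * aa M - 1), ex G M σ (j + 1) := by
    rw [sum_Ico_add' (fun k => ex G M σ k) (aa M) (85 * aa M - 1) 1,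
      show 85 * aa M - 1 + 1 = 85 * aa M by omega]
  rw [h1]
  refine (sum_le_sum hj).trans ?_
  rw [sum_add_distrib, ← mul_sum, ← mul_sum, scs_dy g _ _ (by omega), ← Nat.cast_sum]
  have h2 : ∑ q ∈ Ico (2 ^ aa M : ℕ) (2 ^ (85 * aa M - 1)), g q ≤ ε / 48 * aa M := by
    refine le_trans ?_ hT1
    rw [sum_filter]
    exact sum_le_sum_of_subset_of_nonneg (Ico_subset_Ico le_rfl
      (Nat.pow_le_pow_right (by norm_num) (by omega))) fun q _ _ => hg0 q
  set S := ∑ j ∈ Ico (aa M) (85 * aa M - 1), pr j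
  set E := #{u ∈ UY M 0 | G u ≠ σ}
  have h4 : Nat.log 2 M ≤ 400 * aa M := by omega
  have h5 : aa M * (16 * Nat.log 2 M * S) ≤ aa M * (2560000 * E * aa M) := by
    calc aa M * (16 * Nat.log 2 M * S) = 16 * Nat.log 2 M * (aa M * S) := by ring
      _ ≤ 16 * Nat.log 2 M * (Nat.log 2 M * E) := Nat.mul_le_mul_left _ hP
      _ ≤ 16 * (400 * aa M) * ((400 * aa M) * E) :=
        Nat.mul_le_mul (Nat.mul_le_mul_left _ h4) (Nat.mul_le_mul_right _ h4)
      _ = _ := by ring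
  have h6 : 16 * Nat.log 2 M * S ≤ 2560000 * E * aa M :=
    Nat.le_of_mul_le_mul_left h5 (by omega)
  have h7 : 16 * (Nat.log 2 M : ℝ) * S ≤ 2560000 * E * aa M := by exact_mod_cast h6
  have h8 : 16 * (Nat.log 2 M : ℝ) / M.totient * S ≤ ε / 2 * aa M := by
    rw [div_mul_eq_mul_div, div_le_iff₀ htR]
    have h9 := mul_le_mul_of_nonneg_right hE2 (Nat.cast_nonneg (α := ℝ) (aa M))
    linarith
  linarith

end Pool.Agent.G55
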