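import Pool.Agent.MP_b5e119_nt.G55.Defs

/-! Row SIG: `λ = -χ` has many exceptions. -/

namespace Pool.Agent.G55

open Finset Filter Topology Pool.Agent.G60 Pool.Agent.G42
open Pool.Agent.G27 (nu re EX UN)

theorem sig_log (n : ℕ) : ∃ B : ℕ, ∀ M : ℕ, B ≤ M → n ≤ Nat.log 2 M :=
  ⟨2 ^ n, fun _ h => Nat.le_log_of_pow_le (by norm_num) h⟩

theorem sig_size (M k : ℕ) (hl : 40000 ≤ Nat.log 2 M) (h1 : 84 * aa M ≤ k)
    (h2 : k < 85 * aa M) :
    0 < YY M k ∧ M ≤ YY M k ^ 3 ∧ YY M k ≤ 2 ^ (117 * aa M) := by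
  have hM0 : M ≠ 0 := fun e => by rw [e, Nat.log_zero_right] at hl; omega
  have ha : 200 ≤ aa M := by unfold aa; omega
  have u1 : M < 2 ^ (Nat.log 2 M + 1) := Nat.lt_pow_succ_log_self (by norm_num) M
  have u2 : 2 ^ Nat.log 2 M ≤ M := Nat.pow_log_le_self 2 hM0
  have l1 : 200 * aa M ≤ Nat.log 2 M := by unfold aa; omega
  have l2 : Nat.log 2 M + 1 ≤ 200 * aa M + 200 := by unfold aa; omega
  have b1 : 2 ^ (115 * aa M) ≤ YY M k := by
    unfold YY
    rw [Nat.le_div_iff_mul_le (by positivity), ← pow_add]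
    have := (Nat.pow_lt_pow_right (a := 2) (by norm_num)
      (by omega : 115 * aa M + k < Nat.log 2 M)).trans_le u2
    omega
  refine ⟨lt_of_lt_of_le (by positivity) b1, ?_, ?_⟩
  · refine le_trans ?_ (Nat.pow_le_pow_left b1 3)
    rw [← pow_mul]
    exact u1.le.trans (Nat.pow_le_pow_right (by norm_num) (by omega))
  · unfold YY
    refine Nat.div_le_of_le_mul ?_
    rw [← pow_add]
    exact (Nat.sub_le _ _).trans (u1.le.trans (Nat.pow_le_pow_right (by norm_num) (by omega)))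

theorem sig_row (hM : SMID_s) (hS : SCS_s) (hG : GUD_s) (hB : BRG_s) : SIG_s := by
  obtain ⟨δ₁, d1, N₁, hM⟩ := hM (1 / 100) (by norm_num)
  obtain ⟨δ₂, d2, N₂, hS⟩ := hS (1 / 20) (by norm_num)
  obtain ⟨N₃, hG⟩ := hG 3
  obtain ⟨B, hBB⟩ := sig_log 40000
  refine ⟨min δ₁ δ₂, lt_min d1 d2, N₁ + N₂ + N₃ + B, fun M χ h0 hχ => ?_⟩
  by_contra hc
  rw [not_lt] at hc
  have hφ : (0 : ℝ) ≤ M.totient := by positivity
  have hl : 40000 ≤ Nat.log 2 M := hBB M (by omega)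
  have hM0 : M ≠ 0 := fun e => by rw [e, Nat.log_zero_right] at hl; omega
  have ha : 200 ≤ aa M := by unfold aa; omega
  have m0 : (0 : ℝ) < M := by exact_mod_cast Nat.pos_of_ne_zero hM0
  have f0 : (0 : ℝ) < M.totient := by exact_mod_cast Nat.totient_pos.2 (Nat.pos_of_ne_zero hM0)
  obtain ⟨b1, b2, -⟩ := hB M χ (-1) hχ (Or.inr rfl)
  have h1 := hM M χ (-1) (by omega) hχ (Or.inr rfl)
    (hc.trans (mul_le_mul_of_nonneg_right (min_le_left _ _) hφ))
  have h2 := hS _ M (-1) (by omega) b1 (Or.inr rfl)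
    (by rw [b2]; exact hc.trans (mul_le_mul_of_nonneg_right (min_le_right _ _) hφ))
  have h3 : ∀ k ∈ Ico (84 * aa M) (85 * aa M),
      (1 / 10 : ℝ) ≤ ex (fun n => lam n * re χ n) M (-1) k := by
    intro k hk
    obtain ⟨s0, s1, s2⟩ := sig_size M k hl (mem_Ico.1 hk).1 (mem_Ico.1 hk).2
    have y0 : (0 : ℝ) < YY M k := by exact_mod_cast s0
    have g := hG M χ _ (by omega) hχ h1 s1 s2
    have g2 : (#{u ∈ Icc 1 (YY M k) | u.Coprime M ∧ lam u = re χ u} : ℝ) ≤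
        #{u ∈ UY M k | lam u * re χ u ≠ -1} := by
      refine Nat.cast_le.2 (card_le_card fun u hu => ?_)
      simp only [UY, mem_filter] at hu ⊢
      refine ⟨⟨hu.1, hu.2.1⟩, fun e => ?_⟩
      rw [← hu.2.2] at e
      linarith [mul_self_nonneg (lam u)]
    unfold ex
    rw [le_div_iff₀ (by positivity)]
    rw [div_le_iff₀ (by positivity)] at g
    nlinarith [mul_le_mul_of_nonneg_right g2 m0.le]
  have h4 := card_nsmul_le_sum _ _ _ h3
  have h5 := sum_le_sum_of_subset_of_nonneg (f := ex (fun n => lam n * re χ n) M (-1))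
    (Ico_subset_Ico_left (b := 85 * aa M) (by omega : aa M + 1 ≤ 84 * aa M))
    fun k _ _ => by unfold ex; positivity
  rw [Nat.card_Ico, (by omega : 85 * aa M - 84 * aa M = aa M), nsmul_eq_mul] at h4
  have a0 : (200 : ℝ) ≤ aa M := by exact_mod_cast ha
  linarith

end Pool.Agent.G55
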