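import Pool.Agent.MP_b5e119_nt.G55.Defs
import Pool.Agent.MP_b5e119_nt.G6X.REP

/-! Row SLG of campaign h55s: few exceptions give few split primes, up to the top scale. -/

namespace Pool.Agent.G55

open Finset Filter Topology Pool.Agent.G60 Pool.Agent.G42
open Pool.Agent.G27 (re EX re_unit re_mul re_nonunit)

theorem slg_inj {M : ℕ} {χ : Ch M} (h2 : χ ^ 2 = 1) {p : ℕ} (hM : 0 < M) (hp : p.Prime)
    (hs : re χ p = 1) :
    #{u ∈ Icc 1 ((M - 1) / p) | u.Coprime M ∧ lam u = re χ u} ≤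
      #{n ∈ {n ∈ Ico 1 M | n.Coprime M ∧ lam n ≠ 1 * re χ n} | p ∣ n} := by
  have q1 : p.Coprime M := by
    by_contra h
    rw [re_nonunit χ h] at hs
    exact zero_ne_one hs
  refine card_le_card_of_injOn (fun n => p * n) (fun n hn => ?_) fun a _ b _ e =>
    Nat.eq_of_mul_eq_mul_left hp.pos e
  simp only [coe_filter, mem_Icc, Set.mem_ofPred_eq, mem_filter, mem_Ico] at hn ⊢
  obtain ⟨⟨n1, n2⟩, n4, n3⟩ := hn
  have n5 := (Nat.le_div_iff_mul_le hp.pos).1 n2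
  refine ⟨⟨⟨Nat.mul_pos hp.pos n1, by rw [mul_comm]; omega⟩, Nat.Coprime.mul_left q1 n4,
    fun e => ?_⟩, dvd_mul_right _ _⟩
  rw [lam_mul hp.ne_zero (by omega), lam_prime hp, re_mul h2, hs, n3] at e
  rcases re_unit h2 n4 with k | k <;> rw [k] at e <;> omega

theorem slg_size {M K p : ℕ} (hK : 0 < K) (hM : 0 < M) (h1 : 2 * K ≤ Nat.log 2 M)
    (h2 : 20000 ≤ Nat.log 2 M) (p1 : 2 ^ (85 * aa M) < p) (p2 : p ≤ M / 2 ^ (Nat.log 2 M / K)) :
    M ≤ ((M - 1) / p) ^ (4 * K) ∧ (M - 1) / p ≤ 2 ^ (117 * aa M) ∧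
      M ≤ 2 * p * ((M - 1) / p) := by
  have l2 : M < 2 ^ (Nat.log 2 M + 1) := Nat.lt_pow_succ_log_self one_lt_two M
  have p0 : 0 < p := lt_of_le_of_lt (Nat.zero_le _) p1
  have ha : aa M = Nat.log 2 M / 200 := rfl
  generalize aa M = a at *
  generalize Nat.log 2 M = l at *
  have w2 : 2 ≤ l / K := (Nat.le_div_iff_mul_le hK).2 h1
  have w3 : l < K * (l / K + 1) := Nat.lt_mul_div_succ l hK
  obtain ⟨w, hw⟩ : ∃ w, l / K = w + 1 := ⟨l / K - 1, by omega⟩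
  rw [hw] at w2 w3 p2
  have p3 := (Nat.le_div_iff_mul_le (by positivity)).1 p2
  have t0 : 0 < 2 ^ w := by positivity
  have y1 : 2 ^ w ≤ (M - 1) / p := by
    rw [Nat.le_div_iff_mul_le p0]
    have := Nat.mul_pos t0 p0
    rw [pow_succ, ← mul_assoc, mul_comm p] at p3
    omega
  refine ⟨l2.le.trans (le_trans ?_ (Nat.pow_le_pow_left y1 _)), ?_, ?_⟩
  · rw [← pow_mul]
    refine Nat.pow_le_pow_right two_pos ?_
    nlinarith [Nat.mul_le_mul_left K (show 1 ≤ w by omega)]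
  · refine (Nat.div_le_div_left p1.le (by positivity)).trans (Nat.div_le_of_le_mul ?_)
    rw [← pow_add]
    exact (Nat.sub_le _ _).trans (l2.le.trans (Nat.pow_le_pow_right two_pos (by omega)))
  · have a1 : M - 1 < p * ((M - 1) / p + 1) := Nat.lt_mul_div_succ _ p0
    have a2 : p * 1 ≤ p * ((M - 1) / p) := Nat.mul_le_mul_left p (le_trans t0 y1)
    rw [mul_add] at a1
    rw [mul_assoc]
    omega

theorem slg_row (hM : SMID_s) (hS : SIG_s) (hG : GUD_s) : SLG_s := by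
  intro ε K hε hK
  obtain ⟨δ₁, hδ₁, N₁, hM⟩ := hM (min (ε / 2) (1 / 100)) (by positivity)
  obtain ⟨δ₂, hδ₂, N₂, hS⟩ := hS
  obtain ⟨N₃, hG⟩ := hG (4 * K)
  refine ⟨min (min δ₁ δ₂) (ε / 80), by positivity, N₁ + N₂ + N₃ + 2 ^ (2 * K + 20000),
    fun M χ σ h0 h2 hσ hE => ?_⟩
  have M0 : 0 < M := lt_of_lt_of_le (by positivity) h0
  have l0 : 2 * K + 20000 ≤ Nat.log 2 M :=
    Nat.le_log_of_pow_le one_lt_two (le_of_add_le_right h0)
  have h1 : N₁ + N₂ + N₃ ≤ M := le_of_add_le_left h0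
  clear h0
  have f0 : (0 : ℝ) < M.totient := Nat.cast_pos.2 (Nat.totient_pos.2 M0)
  have e1 := hE.trans (mul_le_mul_of_nonneg_right ((min_le_left _ _).trans (min_le_left _ _)) f0.le)
  have e2 := hE.trans (mul_le_mul_of_nonneg_right ((min_le_left _ _).trans (min_le_right _ _)) f0.le)
  have e3 := hE.trans (mul_le_mul_of_nonneg_right (min_le_right _ _) f0.le)
  have s1 := hM M χ σ (by omega) h2 hσ e1
  rcases hσ with rfl | rfl
  swap
  · exact absurd (hS M χ (by omega) h2) (not_lt.2 e2)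
  obtain ⟨X, hX⟩ : ∃ X, X = {n ∈ Ico 1 M | n.Coprime M ∧ lam n ≠ 1 * re χ n} := ⟨_, rfl⟩
  obtain ⟨Q, hQ⟩ : ∃ Q, Q = {q ∈ Ioc (2 ^ (85 * aa M)) (M / 2 ^ (Nat.log 2 M / K)) |
    q.Prime ∧ re χ q = 1} := ⟨_, rfl⟩
  have hq : ∀ q ∈ Q, (2 ^ (85 * aa M) < q ∧ q ≤ M / 2 ^ (Nat.log 2 M / K)) ∧
      q.Prime ∧ re χ q = 1 := fun q h => by
    rwa [hQ, mem_filter, mem_Ioc] at h
  have a1 : ∀ q ∈ Q, (M.totient : ℝ) / 20 * (1 / (q : ℝ)) ≤ (#{n ∈ X | q ∣ n} : ℕ) := fun q h => by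
    obtain ⟨⟨q1, q2⟩, q3, q4⟩ := hq q h
    obtain ⟨b1, b2, b3⟩ := slg_size hK M0 (by omega) (by omega) q1 q2
    have g := hG M χ _ (by omega) h2 (s1.trans (min_le_right _ _)) b1 b2
    rw [hX]
    refine le_trans ?_ (g.trans (Nat.cast_le.2 (slg_inj h2 M0 q3 q4)))
    have c0 : (0 : ℝ) < q := Nat.cast_pos.2 q3.pos
    have c1 : (0 : ℝ) < M := Nat.cast_pos.2 M0
    have c2 : (M : ℝ) ≤ 2 * q * ((M - 1) / q : ℕ) := by exact_mod_cast b3
    rw [mul_one_div, div_div, div_le_div_iff₀ (by positivity) (by positivity)]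
    nlinarith [mul_le_mul_of_nonneg_left c2 f0.le]
  have a2 : ∑ q ∈ Q, #{n ∈ X | q ∣ n} ≤ #X * 2 := by
    simp only [card_filter]
    rw [sum_comm, ← smul_eq_mul]
    refine sum_le_card_nsmul _ _ _ fun u hu => ?_
    rw [← card_filter]
    rw [hX, mem_filter, mem_Ico] at hu
    refine G6X.rep_om (i := 85 * aa M) hu.1.1 (hu.1.2.trans ((Nat.lt_pow_succ_log_self
      one_lt_two M).trans_le (Nat.pow_le_pow_right two_pos ?_))) _
      fun q h => ⟨(hq q h).2.1, (hq q h).1.1.le⟩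
    have : aa M = Nat.log 2 M / 200 := rfl
    omega
  have a3 : (#X : ℝ) ≤ ε / 80 * M.totient := by rw [hX]; exact e3
  have a4 := sum_le_sum a1
  rw [← mul_sum, ← Nat.cast_sum] at a4
  have a5 : ((∑ q ∈ Q, #{n ∈ X | q ∣ n} : ℕ) : ℝ) ≤ #X * 2 := by exact_mod_cast a2
  have a6 : ∑ q ∈ Q, 1 / (q : ℝ) ≤ ε / 2 :=
    le_of_mul_le_mul_left (a := (M.totient : ℝ) / 20) (by linarith) (by positivity)
  have a7 : SL χ (M / 2 ^ (Nat.log 2 M / K)) ≤ SL χ (2 ^ (85 * aa M)) + ∑ q ∈ Q, 1 / (q : ℝ) := by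
    unfold SL
    refine le_trans (sum_le_sum_of_subset_of_nonneg (fun q h => ?_) fun _ _ _ => by positivity)
      (sum_union_inter.le.trans' (le_add_of_nonneg_right (sum_nonneg fun _ _ => by positivity)))
    rw [mem_filter, mem_Icc] at h
    rw [mem_union, hQ, mem_filter, mem_filter, mem_Icc, mem_Ioc]
    rcases le_or_gt q (2 ^ (85 * aa M)) with k | k
    · exact Or.inl ⟨⟨h.1.1, k⟩, h.2⟩
    · exact Or.inr ⟨⟨k, h.1.2⟩, h.2⟩
  linarith [s1.trans (min_le_left _ _)]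

end Pool.Agent.G55
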