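import Pool.Agent.MP_b5e119_nt.G55.Defs

namespace Pool.Agent.G55

open Finset Filter Topology Pool.Agent.G60 Pool.Agent.G42
open Pool.Agent.G27 (nu re EX UN)

theorem smid_row (hS : SML_s) (hP : SPTA_s) (hB : BRG_s) : SMID_s := by
  intro ε hε
  obtain ⟨δ₁, hδ₁, N₁, h1⟩ := hS (ε / 2) (by positivity)
  obtain ⟨δ₂, hδ₂, N₂, h2⟩ := hP (ε / 4) (by positivity)
  refine ⟨min δ₁ δ₂, lt_min hδ₁ hδ₂, max (max N₁ N₂) (2 ^ 200), ?_⟩
  intro M χ σ hM hχ hσ hE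
  obtain ⟨hC, hX, hq⟩ := hB M χ σ hχ hσ
  have hφ : (0 : ℝ) ≤ M.totient := Nat.cast_nonneg _
  have hM1 : N₁ ≤ M := (le_max_left _ _).trans ((le_max_left _ _).trans hM)
  have hM2 : N₂ ≤ M := (le_max_right _ _).trans ((le_max_left _ _).trans hM)
  have hM3 : 2 ^ 200 ≤ M := (le_max_right _ _).trans hM
  have ha : 1 ≤ aa M := by
    have h3 : 200 ≤ Nat.log 2 M := Nat.le_log_of_pow_le (by norm_num) hM3
    unfold aa
    omega
  have e1 := h1 (fun n => lam n * re χ n) M σ hM1 hC hσ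
    (by rw [hX]; exact hE.trans (mul_le_mul_of_nonneg_right (min_le_left _ _) hφ))
  have e2 := h2 (fun n => lam n * re χ n) M σ hM2 hC hσ
    (by rw [hX]; exact hE.trans (mul_le_mul_of_nonneg_right (min_le_right _ _) hφ))
  obtain ⟨a, hA⟩ : ∃ a, a = aa M := ⟨_, rfl⟩
  rw [← hA] at e1 e2 ha ⊢
  obtain ⟨A, hAA⟩ : ∃ A, A = {q ∈ range (2 ^ a) | q.Prime ∧ ¬q ∣ M ∧ lam q * re χ q ≠ 1} :=
    ⟨_, rfl⟩
  obtain ⟨B, hBB⟩ : ∃ B, B = {q ∈ Ico (2 ^ a) (2 ^ (85 * a)) |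
      q.Prime ∧ ¬q ∣ M ∧ lam q * re χ q ≠ 1} := ⟨_, rfl⟩
  rw [← hAA] at e1
  rw [← hBB] at e2
  have haR : (1 : ℝ) ≤ a := by exact_mod_cast ha
  have e3 : ∑ q ∈ B, 1 / (q : ℝ) ≤ ε / 2 := by
    have h4 : (a : ℝ) / 2 * ∑ q ∈ B, 1 / (q : ℝ) ≤ ∑ q ∈ B, Real.log q / q := by
      rw [mul_sum]
      refine sum_le_sum fun q hqB => ?_
      rw [hBB, mem_filter, mem_Ico] at hqB
      have h5 : ((2 : ℝ)) ^ a ≤ q := by exact_mod_cast hqB.1.1
      have h6 := Real.log_le_log (by positivity) h5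
      rw [Real.log_pow] at h6
      have h7 := Real.log_two_gt_d9
      rw [mul_one_div]
      exact div_le_div_of_nonneg_right (by nlinarith) (Nat.cast_nonneg _)
    have h8 := h4.trans e2
    by_contra h9
    rw [not_le] at h9
    nlinarith
  have hsub : {q ∈ Icc 1 (2 ^ (85 * a)) | q.Prime ∧ re χ q = 1} ⊆ A ∪ B := by
    intro q hqm
    rw [mem_filter, mem_Icc] at hqm
    obtain ⟨⟨_, h4⟩, hp, hr⟩ := hqm
    have h5 := (hq q hp).1 hr
    rw [mem_union, hAA, hBB, mem_filter, mem_filter, mem_range, mem_Ico]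
    rcases Nat.lt_or_ge q (2 ^ a) with h6 | h6
    · exact Or.inl ⟨h6, hp, h5⟩
    · refine Or.inr ⟨⟨h6, lt_of_le_of_ne h4 fun h7 => ?_⟩, hp, h5⟩
      rw [h7] at hp
      have h8 := Nat.Prime.eq_one_of_pow hp
      omega
  unfold SL
  have e4 := sum_le_sum_of_subset_of_nonneg (f := fun q : ℕ => 1 / (q : ℝ)) hsub
    fun q _ _ => by positivity
  have e5 := sum_union_inter (s₁ := A) (s₂ := B) (f := fun q : ℕ => 1 / (q : ℝ))
  have e6 : 0 ≤ ∑ q ∈ A ∩ B, 1 / (q : ℝ) := sum_nonneg fun q _ => by positivity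
  linarith

end Pool.Agent.G55
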