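import Pool.Agent.MP_b5e119_nt.G55.Defs

namespace Pool.Agent.G55

open Finset Filter Topology Pool.Agent.G60 Pool.Agent.G42
open Pool.Agent.G27 (nu re EX UN)

theorem sml_dvd (M Y d : ℕ) (hd : 0 < d) :
    #{n ∈ {u ∈ Icc 1 Y | u.Coprime M} | d ∣ n} ≤ UN M (Y / d) := by
  unfold UN
  refine card_le_card_of_injOn (fun n => n / d) (fun n hn => ?_) (fun n hn n' hn' h => ?_)
  · obtain ⟨h1, c, rfl⟩ := mem_filter.1 (mem_coe.1 hn)
    obtain ⟨h2, h3⟩ := mem_filter.1 h1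
    obtain ⟨h4, h5⟩ := mem_Icc.1 h2
    simp only [Nat.mul_div_cancel_left c hd]
    refine mem_coe.2 (mem_filter.2 ⟨mem_Icc.2 ⟨?_, ?_⟩, Nat.Coprime.coprime_mul_left h3⟩)
    · exact Nat.pos_of_ne_zero fun h => by rw [h, mul_zero] at h4; omega
    · exact (Nat.le_div_iff_mul_le hd).2 (by rw [mul_comm]; exact h5)
  · obtain ⟨-, c, rfl⟩ := mem_filter.1 (mem_coe.1 hn)
    obtain ⟨-, c', rfl⟩ := mem_filter.1 (mem_coe.1 hn')
    simp only [Nat.mul_div_cancel_left _ hd] at h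
    rw [h]

theorem sml_mom (U P : Finset ℕ) (B : ℝ) (hB : 0 ≤ B) (hP : ∀ q ∈ P, q.Prime)
    (h1 : ∀ q ∈ P, (#{n ∈ U | q ∣ n} : ℝ) ≤ B * (1 / q))
    (h2 : ∀ q ∈ P, ∀ q' ∈ P, (#{n ∈ U | q * q' ∣ n} : ℝ) ≤ B * (1 / q * (1 / q'))) :
    ∑ n ∈ U, (#{q ∈ P | q ∣ n} : ℝ) ^ 2 ≤
      B * ((∑ q ∈ P, 1 / (q : ℝ)) + (∑ q ∈ P, 1 / (q : ℝ)) ^ 2) := by
  have e1 : ∀ n : ℕ, (#{q ∈ P | q ∣ n} : ℝ) ^ 2 =
      ∑ q ∈ P, ∑ q' ∈ P, if q ∣ n ∧ q' ∣ n then (1 : ℝ) else 0 := fun n => by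
    rw [card_filter, Nat.cast_sum, sq, sum_mul_sum]
    refine sum_congr rfl fun q _ => sum_congr rfl fun q' _ => ?_
    by_cases a : q ∣ n <;> by_cases b : q' ∣ n <;> simp [a, b]
  have e2 : ∀ q ∈ P, ∀ q' ∈ P, (∑ n ∈ U, if q ∣ n ∧ q' ∣ n then (1 : ℝ) else 0) ≤
      (if q = q' then B * (1 / q) else 0) + B * (1 / q * (1 / q')) := fun q hq q' hq' => by
    rw [sum_boole]
    by_cases h : q = q'
    · subst h
      rw [if_pos rfl]
      simp only [and_self]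
      have := h1 q hq
      have : 0 ≤ B * (1 / (q : ℝ) * (1 / q)) := by positivity
      linarith
    · rw [if_neg h, zero_add]
      refine le_trans (Nat.cast_le.2 (card_le_card fun n hn => ?_)) (h2 q hq q' hq')
      obtain ⟨a, b, c⟩ := mem_filter.1 hn
      exact mem_filter.2 ⟨a, Nat.Coprime.mul_dvd_of_dvd_of_dvd
        ((Nat.coprime_primes (hP q hq) (hP q' hq')).2 h) b c⟩
  simp only [e1]
  rw [sum_comm]
  refine (sum_le_sum fun q hq => (sum_comm.trans_le (sum_le_sum (e2 q hq)))).trans ?_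
  simp only [sum_add_distrib, sum_ite_eq]
  rw [mul_add, sq, sum_mul_sum, mul_sum, mul_sum]
  refine add_le_add (sum_le_sum fun q hq => by rw [if_pos hq]) (le_of_eq ?_)
  exact sum_congr rfl fun q _ => (mul_sum _ _ _).symm

theorem sml_cs (U E P : Finset ℕ) (hE : E ⊆ U) (t : ℝ) (ht : 0 < t) :
    ∑ q ∈ P, (#{n ∈ E | q ∣ n} : ℝ) ≤
      (t * #E + (∑ n ∈ U, (#{q ∈ P | q ∣ n} : ℝ) ^ 2) / t) / 2 := by
  have e1 : ∑ q ∈ P, (#{n ∈ E | q ∣ n} : ℝ) = ∑ n ∈ E, (#{q ∈ P | q ∣ n} : ℝ) := by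
    simp only [card_filter, Nat.cast_sum]
    exact sum_comm
  have e2 : ∑ n ∈ E, (#{q ∈ P | q ∣ n} : ℝ) ≤
      ∑ n ∈ E, (t + (#{q ∈ P | q ∣ n} : ℝ) ^ 2 / t) / 2 := sum_le_sum fun n _ => by
    generalize (#{q ∈ P | q ∣ n} : ℝ) = x
    have h : (t + x ^ 2 / t) / 2 - x = (x - t) ^ 2 / (2 * t) := by field_simp; ring
    have : 0 ≤ (x - t) ^ 2 / (2 * t) := by positivity
    linarith
  have e3 : ∑ n ∈ E, (#{q ∈ P | q ∣ n} : ℝ) ^ 2 ≤ ∑ n ∈ U, (#{q ∈ P | q ∣ n} : ℝ) ^ 2 :=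
    sum_le_sum_of_subset_of_nonneg hE fun _ _ _ => by positivity
  rw [← sum_div, sum_add_distrib, sum_const, nsmul_eq_mul, ← sum_div] at e2
  have e4 := div_le_div_of_nonneg_right e3 ht.le
  rw [e1]
  linarith

theorem sml_yy (M k : ℕ) (ha : 1 ≤ aa M) (hk : k ≤ 190 * aa M) : 2 ^ aa M ≤ YY M k := by
  have h0 : M ≠ 0 := fun h => by rw [h] at ha; simp [aa] at ha
  have h1 : 2 ^ Nat.log 2 M ≤ M := Nat.pow_log_le_self 2 h0
  have h2 : 200 * aa M ≤ Nat.log 2 M := by unfold aa; omega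
  have h3 : 2 ^ (aa M + k + 1) ≤ 2 ^ Nat.log 2 M := Nat.pow_le_pow_right (by norm_num) (by omega)
  unfold YY
  refine (Nat.le_div_iff_mul_le (by positivity)).2 ?_
  have h4 : 0 < 2 ^ (aa M + k) := by positivity
  rw [← pow_add]
  rw [pow_succ] at h3
  omega

theorem sml_pow (M Z : ℕ) (ha : 1 ≤ aa M) (hZ : 2 ^ aa M ≤ Z) : M ≤ Z ^ 400 := by
  have h1 : M < 2 ^ (Nat.log 2 M + 1) := Nat.lt_pow_succ_log_self (by norm_num) M
  have h2 : Nat.log 2 M + 1 ≤ aa M * 400 := by unfold aa at ha ⊢; omega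
  calc M ≤ 2 ^ (Nat.log 2 M + 1) := h1.le
    _ ≤ 2 ^ (aa M * 400) := Nat.pow_le_pow_right (by norm_num) h2
    _ = (2 ^ aa M) ^ 400 := pow_mul _ _ _
    _ ≤ Z ^ 400 := Nat.pow_le_pow_left hZ _

theorem sml_k (G : ℕ → ℤ) (M : ℕ) (σ : ℤ) (P : Finset ℕ) (k : ℕ) (hG : CU G M)
    (hσ : σ = 1 ∨ σ = -1) (ha : 1 ≤ aa M) (hk : k ≤ 84 * aa M)
    (hU : ∀ Y : ℕ, M ≤ Y ^ 400 → (UN M Y : ℝ) ≤ 2 * Y * M.totient / M ∧
      99 / 100 * Y * M.totient / M ≤ (UN M Y : ℝ))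
    (hP : ∀ q ∈ P, q < 2 ^ aa M ∧ q.Prime ∧ ¬q ∣ M ∧ G q ≠ 1) :
    3 / 32 * ∑ q ∈ P, 1 / (q : ℝ) ≤ ∑ q ∈ P, ex G M σ (k + (Nat.log 2 q + 1)) * (1 / (q : ℝ)) +
      16 * (1 + ∑ q ∈ P, 1 / (q : ℝ)) * ex G M σ k := by
  have hM0 : M ≠ 0 := fun h => by rw [h] at ha; simp [aa] at ha
  have hM : (0 : ℝ) < M := by exact_mod_cast Nat.pos_of_ne_zero hM0
  have hφ : (0 : ℝ) < M.totient := by
    exact_mod_cast Nat.totient_pos.2 (Nat.pos_of_ne_zero hM0)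
  obtain ⟨D, hD⟩ : ∃ D : ℝ, D = M.totient / M := ⟨_, rfl⟩
  have hD0 : 0 < D := by rw [hD]; positivity
  have hY0 : ∀ j, j ≤ 190 * aa M → 0 < YY M j := fun j hj =>
    lt_of_lt_of_le (by positivity) (sml_yy M j ha hj)
  have hex : ∀ j, j ≤ 190 * aa M →
      (#{u ∈ UY M j | G u ≠ σ} : ℝ) = ex G M σ j * (YY M j * D) := fun j hj => by
    have : (0 : ℝ) < YY M j := by exact_mod_cast hY0 j hj
    rw [hD]; unfold ex; field_simp
  have hex0 : ∀ j, 0 ≤ ex G M σ j := fun j => by unfold ex; positivity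
  have hY : (0 : ℝ) < YY M k := by exact_mod_cast hY0 k (by omega)
  have hYM : YY M k < M := lt_of_le_of_lt (Nat.div_le_self _ _) (by omega)
  have hup : ∀ d : ℕ, 0 < d → d ≤ 2 ^ (2 * aa M) →
      (#{n ∈ UY M k | d ∣ n} : ℝ) ≤ 2 * YY M k * D * (1 / d) := fun d hd0 hd => by
    have h1 : 2 ^ aa M ≤ YY M k / d := by
      refine (sml_yy M (k + 2 * aa M) ha (by omega)).trans ?_
      unfold YY
      rw [pow_add, ← Nat.div_div_eq_div_mul]
      exact Nat.div_le_div_left hd hd0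
    have h2 := (hU _ (sml_pow M _ ha h1)).1
    have h3 : ((YY M k / d : ℕ) : ℝ) ≤ YY M k / d := Nat.cast_div_le
    refine le_trans (Nat.cast_le.2 (sml_dvd M (YY M k) d hd0)) (h2.trans ?_)
    calc 2 * ((YY M k / d : ℕ) : ℝ) * M.totient / M = 2 * D * ((YY M k / d : ℕ) : ℝ) := by
          rw [hD]; ring
      _ ≤ 2 * D * (YY M k / d) := mul_le_mul_of_nonneg_left h3 (by positivity)
      _ = _ := by ring
  have h2a : 2 ^ (2 * aa M) = 2 ^ aa M * 2 ^ aa M := by rw [two_mul, pow_add]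
  have hmom := sml_mom (UY M k) P (2 * YY M k * D) (by positivity) (fun q hq => (hP q hq).2.1)
    (fun q hq => hup q (hP q hq).2.1.pos ((hP q hq).1.le.trans
      (Nat.pow_le_pow_right (by norm_num) (by omega))))
    (fun q hq q' hq' => by
      have := hup (q * q') (Nat.mul_pos (hP q hq).2.1.pos (hP q' hq').2.1.pos)
        (by rw [h2a]; exact Nat.mul_le_mul (hP q hq).1.le (hP q' hq').1.le)
      rwa [Nat.cast_mul, ← one_div_mul_one_div] at this)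
  have hlow : ∀ q ∈ P, YY M k * D * (1 / 8 * (1 / (q : ℝ)) -
      ex G M σ (k + (Nat.log 2 q + 1)) * (1 / (q : ℝ))) ≤
      #{n ∈ {u ∈ UY M k | G u ≠ σ} | q ∣ n} := by
    intro q hq
    obtain ⟨q1, q2, q3, q4⟩ := hP q hq
    have hq0 : (0 : ℝ) < q := by exact_mod_cast q2.pos
    have g1 : Nat.log 2 q < aa M := Nat.log_lt_of_lt_pow q2.ne_zero q1
    have g2 : q < 2 ^ (Nat.log 2 q + 1) := Nat.lt_pow_succ_log_self (by norm_num) q
    have g3 : 2 ^ Nat.log 2 q ≤ q := Nat.pow_log_le_self 2 q2.ne_zero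
    generalize Nat.log 2 q = g at g1 g2 g3
    have hk' : k + (g + 1) ≤ 190 * aa M := by omega
    have y0 : YY M (k + (g + 1)) = YY M k / 2 ^ (g + 1) := by
      unfold YY; rw [pow_add 2 k, Nat.div_div_eq_div_mul]
    have y1 : q * YY M (k + (g + 1)) ≤ YY M k := by
      rw [y0]
      exact (Nat.mul_le_mul_right _ g2.le).trans (Nat.mul_div_le _ _)
    have y2 : YY M k ≤ 4 * q * YY M (k + (g + 1)) := by
      have a1 := hY0 _ hk'
      have a2 : YY M k < 2 ^ (g + 1) * (YY M k / 2 ^ (g + 1) + 1) :=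
        Nat.lt_mul_div_succ _ (by positivity)
      rw [← y0] at a2
      calc YY M k ≤ 2 ^ (g + 1) * (YY M (k + (g + 1)) + 1) := a2.le
        _ ≤ (2 * q) * (2 * YY M (k + (g + 1))) :=
            Nat.mul_le_mul (by rw [pow_succ]; omega) (by omega)
        _ = _ := by ring
    have qc : q.Coprime M := (Nat.Prime.coprime_iff_not_dvd q2).2 q3
    have hGq : G q = -1 := by
      have a1 : q < M := by
        have := Nat.le_mul_of_pos_right q (hY0 _ hk')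
        omega
      exact (hG.1 q q2.pos a1 qc).resolve_left q4
    have c1 : #{u ∈ UY M (k + (g + 1)) | ¬G u ≠ σ} ≤ #{n ∈ {u ∈ UY M k | G u ≠ σ} | q ∣ n} := by
      refine card_le_card_of_injOn (fun u => q * u) (fun u hu => ?_)
        (fun u _ u' _ h => Nat.eq_of_mul_eq_mul_left q2.pos h)
      obtain ⟨b1, b2⟩ := mem_filter.1 (mem_coe.1 hu)
      obtain ⟨b3, b4⟩ := mem_filter.1 b1
      obtain ⟨b5, b6⟩ := mem_Icc.1 b3
      have b7 : q * u ≤ YY M k := (Nat.mul_le_mul_left _ b6).trans y1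
      refine mem_coe.2 (mem_filter.2 ⟨mem_filter.2 ⟨mem_filter.2 ⟨mem_Icc.2
        ⟨Nat.mul_pos q2.pos b5, b7⟩, Nat.Coprime.mul_left qc b4⟩, ?_⟩, Dvd.intro _ rfl⟩)
      rw [hG.2 q u q2.pos b5 (by omega), hGq, not_not.1 b2]
      rcases hσ with h | h <;> rw [h] <;> norm_num
    have c2 := card_filter_add_card_filter_not (s := UY M (k + (g + 1))) fun u => G u ≠ σ
    have c3 : (#{u ∈ UY M (k + (g + 1)) | G u ≠ σ} : ℝ) + #{u ∈ UY M (k + (g + 1)) | ¬G u ≠ σ} =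
        UN M (YY M (k + (g + 1))) := by exact_mod_cast c2
    have c4 := (hU _ (sml_pow M _ ha (sml_yy M _ ha hk'))).2
    have c5 := (Nat.cast_le (α := ℝ)).2 c1
    rw [hex _ hk'] at c3
    have z1 : (YY M (k + (g + 1)) : ℝ) ≤ YY M k * (1 / q) := by
      rw [mul_one_div, le_div_iff₀ hq0, mul_comm]
      exact_mod_cast y1
    have z2 : YY M k * (1 / (q : ℝ)) ≤ 4 * YY M (k + (g + 1)) := by
      rw [mul_one_div, div_le_iff₀ hq0]
      have : (YY M k : ℝ) ≤ 4 * q * YY M (k + (g + 1)) := by exact_mod_cast y2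
      linarith
    have c6 : 99 / 100 * (YY M (k + (g + 1)) : ℝ) * M.totient / M =
        99 / 100 * (YY M (k + (g + 1)) * D) := by rw [hD]; ring
    rw [c6] at c4
    have z3 := mul_le_mul_of_nonneg_left z1 (mul_nonneg (hex0 (k + (g + 1))) hD0.le)
    have z4 := mul_le_mul_of_nonneg_left z2 hD0.le
    have z5 : (0 : ℝ) ≤ YY M (k + (g + 1)) * D := by positivity
    nlinarith
  have hS0 : 0 ≤ ∑ q ∈ P, 1 / (q : ℝ) := sum_nonneg fun _ _ => by positivity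
  have f1 := (sum_le_sum hlow).trans (sml_cs (UY M k) {u ∈ UY M k | G u ≠ σ} P
    (filter_subset _ _) (32 * (1 + ∑ q ∈ P, 1 / (q : ℝ))) (by positivity))
  rw [← mul_sum, sum_sub_distrib, ← mul_sum, hex k (by omega)] at f1
  generalize ∑ q ∈ P, 1 / (q : ℝ) = S at f1 hmom hS0 ⊢
  have f2 : (∑ n ∈ UY M k, (#{q ∈ P | q ∣ n} : ℝ) ^ 2) / (32 * (1 + S)) ≤
      YY M k * D * (S / 16) := by
    rw [div_le_iff₀ (by positivity)]
    exact hmom.trans (le_of_eq (by ring))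
  have f3 : (0 : ℝ) < YY M k * D := by positivity
  refine le_of_mul_le_mul_left ?_ f3
  nlinarith

theorem sml_row (hS : SCS_s) (_hZ : SIZA_s) (hU : UNV_s) : SML_s := by
  intro ε hε
  obtain ⟨η, hη0, hη1, hη2⟩ : ∃ η : ℝ, 0 < η ∧ η ≤ ε / 3 ∧ η ≤ 1 / 10 :=
    ⟨min (ε / 3) (1 / 10), lt_min (by positivity) (by norm_num), min_le_left _ _, min_le_right _ _⟩
  obtain ⟨δ, hδ, N₁, hS⟩ := hS η hη0
  obtain ⟨N₂, hU⟩ := hU
  refine ⟨δ, hδ, max (max N₁ N₂) (2 ^ 200), fun G M σ hM hG hσ hE => ?_⟩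
  have h1 := hS G M σ ((le_max_left _ _).trans ((le_max_left _ _).trans hM)) hG hσ hE
  have ha : 1 ≤ aa M := by
    have : 200 ≤ Nat.log 2 M := Nat.le_log_of_pow_le (by norm_num) ((le_max_right _ _).trans hM)
    unfold aa; omega
  obtain ⟨P, hP⟩ : ∃ P : Finset ℕ,
    P = {q ∈ range (2 ^ aa M) | q.Prime ∧ ¬q ∣ M ∧ G q ≠ 1} := ⟨_, rfl⟩
  rw [← hP]
  have hP1 : ∀ q ∈ P, q < 2 ^ aa M ∧ q.Prime ∧ ¬q ∣ M ∧ G q ≠ 1 := fun q hq => by
    rw [hP] at hq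
    exact ⟨mem_range.1 (mem_filter.1 hq).1, (mem_filter.1 hq).2⟩
  have hex0 : ∀ j, 0 ≤ ex G M σ j := fun j => by unfold ex; positivity
  have hsh : ∀ c, c ≤ aa M → ∑ k ∈ Ico (aa M + 1) (84 * aa M), ex G M σ (k + c) ≤ η * aa M := by
    intro c hc
    rw [sum_Ico_add' (ex G M σ)]
    exact (sum_le_sum_of_subset_of_nonneg (Ico_subset_Ico (by omega) (by omega))
      fun j _ _ => hex0 j).trans h1
  have h2 := sum_le_sum fun k (hk : k ∈ Ico (aa M + 1) (84 * aa M)) =>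
    sml_k G M σ P k hG hσ ha (mem_Ico.1 hk).2.le
      (fun Y hY => hU M Y ((le_max_right _ _).trans ((le_max_left _ _).trans hM)) hY) hP1
  rw [sum_const, Nat.card_Ico, nsmul_eq_mul, sum_add_distrib, ← mul_sum, sum_comm] at h2
  have h3 : ∑ q ∈ P, ∑ k ∈ Ico (aa M + 1) (84 * aa M),
      ex G M σ (k + (Nat.log 2 q + 1)) * (1 / (q : ℝ)) ≤ η * aa M * ∑ q ∈ P, 1 / (q : ℝ) := by
    rw [mul_sum]
    refine sum_le_sum fun q hq => ?_
    rw [← sum_mul]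
    exact mul_le_mul_of_nonneg_right
      (hsh _ (Nat.log_lt_of_lt_pow (hP1 q hq).2.1.ne_zero (hP1 q hq).1)) (by positivity)
  have h4 := hsh 0 (by omega)
  simp only [add_zero] at h4
  have hS0 : 0 ≤ ∑ q ∈ P, 1 / (q : ℝ) := sum_nonneg fun _ _ => by positivity
  have h5 : (82 : ℝ) * aa M ≤ ((84 * aa M - (aa M + 1) : ℕ) : ℝ) := by
    have : 82 * aa M ≤ 84 * aa M - (aa M + 1) := by omega
    exact_mod_cast this
  have h6 : (0 : ℝ) < aa M := by exact_mod_cast ha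
  generalize ∑ q ∈ P, 1 / (q : ℝ) = S at h2 h3 hS0 ⊢
  have h7 := mul_le_mul_of_nonneg_left h4 (show 0 ≤ 16 * (1 + S) by positivity)
  have h8 := mul_le_mul_of_nonneg_right h5 (show 0 ≤ 3 / 32 * S by positivity)
  have h9 : (aa M : ℝ) * (82 * (3 / 32) * S) ≤ aa M * (η * S + 16 * (1 + S) * η) := by
    nlinarith
  have h10 := le_of_mul_le_mul_left h9 h6
  nlinarith [mul_le_mul_of_nonneg_right hη2 hS0]

end Pool.Agent.G55
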