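import Pool.Agent.MP_b5e119_nt.G55.Defs

namespace Pool.Agent.G55

open Finset Filter Topology Pool.Agent.G60 Pool.Agent.G42 DirichletCharacter

theorem tops_neg {L M : ℕ} (hL : 0 < L) (h : M ∣ L) : ((L - 1 : ℕ) : ZMod M) = -1 := by
  rw [Nat.cast_sub hL, (ZMod.natCast_eq_zero_iff L M).2 h]
  simp

theorem tops_par {N M : ℕ} [NeZero N] [NeZero M] (h : M ∣ N) {χ : Ch M} (h2 : χ ^ 2 = 1) :
    changeLevel h χ (-1) = (G27.re χ (M - 1) : ℂ) := by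
  have e := changeLevel_eq_cast_of_dvd' χ h (a := (-1 : ℤ)) isCoprime_one_left.neg_left
  rw [G27.re_coe h2, tops_neg (NeZero.pos M) dvd_rfl]
  simpa using e

theorem tops_row (hI : ∀ i : Sg, @INVM_s i) (hO : ONE_s) (hC : CLS_s) : TOPS_s := by
  classical
  obtain ⟨η, κ, N₀, hη, hκ, hO⟩ := hO
  obtain ⟨c₁, hc₁, N₁, h1⟩ := hI ⟨1, Or.inl rfl⟩ η hη
  obtain ⟨c₂, hc₂, N₂, h2⟩ := hI ⟨-1, Or.inr rfl⟩ η hη
  refine ⟨min (min c₁ c₂) (κ / 2), by positivity, N₀ + N₁ + N₂, fun N _ hN e e' he he' => ?_⟩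
  have hN0 : (0 : ℝ) < N := by exact_mod_cast NeZero.pos N
  by_cases h : min c₁ c₂ * N ≤ cnt N e e'
  · refine ⟨1, Or.inl rfl, le_trans ?_ h⟩
    rw [mul_one]
    exact mul_le_mul_of_nonneg_right (min_le_left _ _) hN0.le
  have b1 := (not_le.1 h).le.trans (mul_le_mul_of_nonneg_right (min_le_left c₁ c₂) hN0.le)
  have b2 := (not_le.1 h).le.trans (mul_le_mul_of_nonneg_right (min_le_right c₁ c₂) hN0.le)
  obtain ⟨D, d1, d2, d3⟩ : ∃ D ⊆ N.divisors, (N : ℝ) / 2 ≤ ∑ g ∈ D, ((N / g).totient : ℝ) ∧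
      ∀ g ∈ D, ∀ (M : ℕ) [NeZero M], M * g = N → N ^ 999 ≤ M ^ 1000 ∧ ∃ (χ : Ch M) (σ : ℤ),
        χ ^ 2 = 1 ∧ χ ≠ 1 ∧ (σ = 1 ∨ σ = -1) ∧ (G27.EX χ σ : ℝ) ≤ η * M.totient ∧
          G27.re χ (M - 1) = -(e * e') := by
    rcases (by omega : e' = -e ∨ e' = e) with rfl | rfl
    · have := h1 N (by omega) e he (by simpa using b1)
      rwa [show -(e * -e) = 1 by rcases he with a | a <;> rw [a] <;> norm_num]
    · have := h2 N (by omega) e' he (by simpa using b2)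
      rwa [show -(e' * e') = -1 by rcases he with a | a <;> rw [a] <;> norm_num]
  have key : ∀ g ∈ D, ∃ χ : Ch N, (χ ≠ 1 ∧ χ ^ 2 = 1 ∧ χ (-1) = -((e * e' : ℤ) : ℂ)) ∧
      κ * (N / g).totient * ((N.totient : ℝ) / N * ‖LFunction χ 1‖ * Real.log N) ≤
        cU (N / g) (lam g * e) (lam g * e') := by
    intro g hg
    obtain ⟨M, hM⟩ := Nat.dvd_of_mem_divisors (d1 hg)
    have hM' : M * g = N := by rw [hM, mul_comm]
    have g0 : 0 < g := Nat.pos_of_mem_divisors (d1 hg)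
    have : NeZero M := ⟨by rintro rfl; exact NeZero.ne N (by omega)⟩
    have hd : M ∣ N := Dvd.intro _ hM'
    rw [show N / g = M by rw [← hM', Nat.mul_div_cancel _ g0]]
    obtain ⟨a0, χ, σ, a1, a2, a3, a4, a5⟩ := d3 g hg M hM'
    refine ⟨changeLevel hd χ, ⟨fun c => a2 ((changeLevel_eq_one_iff hd).1 c),
      by rw [← map_pow, a1, map_one], by rw [tops_par hd a1, a5, Int.cast_neg]⟩,
      hO N M hd χ σ _ _ (by omega) a0 a1 a2 a3 ?_ ?_ a4 ?_⟩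
    · rcases lam_cases g with a | a <;> rcases he with b | b <;> rw [a, b] <;> norm_num
    · rcases lam_cases g with a | a <;> rcases he' with b | b <;> rw [a, b] <;> norm_num
    · rw [a5]
      rcases lam_cases g with a | a <;> rw [a] <;> ring
  obtain ⟨g₀, hg₀⟩ : D.Nonempty := by
    rw [nonempty_iff_ne_empty]
    rintro rfl
    rw [sum_empty] at d2
    linarith
  obtain ⟨ψ, hψ, -⟩ := key g₀ hg₀
  obtain ⟨χ, ⟨c1, c2, c3⟩, c4⟩ := Set.exists_min_image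
    {χ : Ch N | χ ≠ 1 ∧ χ ^ 2 = 1 ∧ χ (-1) = -((e * e' : ℤ) : ℂ)}
    (fun χ => (N.totient : ℝ) / N * ‖LFunction χ 1‖ * Real.log N) (Set.toFinite _) ⟨ψ, hψ⟩
  refine ⟨_, Or.inr ⟨χ, c1, c2, c3, rfl⟩, ?_⟩
  obtain ⟨m, hm⟩ : ∃ m, m = (N.totient : ℝ) / N * ‖LFunction χ 1‖ * Real.log N := ⟨_, rfl⟩
  have m0 : 0 ≤ m := by
    have := Real.log_natCast_nonneg N
    rw [hm]
    positivity
  rw [← hm] at c4 ⊢
  have e1 : ∑ g ∈ D, κ * (N / g).totient * m ≤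
      ∑ g ∈ D, (cU (N / g) (lam g * e) (lam g * e') : ℝ) := by
    refine sum_le_sum fun g hg => ?_
    obtain ⟨φ, f1, f2⟩ := key g hg
    exact (mul_le_mul_of_nonneg_left (c4 φ f1) (by positivity)).trans f2
  have e2 : ∑ g ∈ D, (cU (N / g) (lam g * e) (lam g * e') : ℝ) ≤ cnt N e e' := by
    exact_mod_cast (sum_le_sum_of_subset d1).trans (hC N e e' (NeZero.pos N))
  rw [← sum_mul, ← mul_sum] at e1
  calc min (min c₁ c₂) (κ / 2) * m * N ≤ κ / 2 * m * N := by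
        gcongr
        exact min_le_right _ _
    _ = κ * (N / 2) * m := by ring
    _ ≤ _ := by gcongr
    _ ≤ _ := e1.trans e2

end Pool.Agent.G55
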