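import Pool.Agent.MP_b5e119_nt.G55.Defs
import Pool.Agent.MP_b5e119_nt.G27.UNI

/-! Row UNU: upper bound for the units in an arithmetic progression. -/

namespace Pool.Agent.G55

open Finset Filter Topology Pool.Agent.G60 Pool.Agent.G42

theorem unu_up (N u T : ℕ) (hN : 0 < N) :
    (#{t ∈ range T | (u + t).Coprime N} : ℝ) ≤ (T : ℝ) * N.totient / N + #N.divisors := by
  have hN' : (N : ℝ) ≠ 0 := by exact_mod_cast hN.ne'
  have h1 : (T : ℝ) * N.totient / N =
      ∑ d ∈ N.divisors, (ArithmeticFunction.moebius d : ℝ) * ((T : ℝ) / d) := by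
    rw [G27.uni_phi N hN, mul_sum, sum_div]
    refine sum_congr rfl fun d _ => ?_
    field_simp
  rw [h1, G27.uni_sum N u T hN, card_eq_sum_ones]
  push_cast
  rw [← sum_add_distrib]
  refine sum_le_sum fun d hd => ?_
  have h2 := G27.uni_div d (u + (N - 1)) T (Nat.pos_of_mem_divisors hd)
  have h3 : |(ArithmeticFunction.moebius d : ℝ)| ≤ 1 := by
    exact_mod_cast ArithmeticFunction.abs_moebius_le_one
  have h4 := mul_le_mul h3 h2 (abs_nonneg _) zero_le_one
  rw [← abs_mul] at h4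
  have h5 := (abs_le.1 h4).2
  linarith

theorem unu_row : UNU_s := by
  intro M c u T hM hc
  have : NeZero M := ⟨hM.ne'⟩
  obtain ⟨w, hw⟩ := (ZMod.isUnit_iff_coprime c M).2 hc
  have h := unu_up M ((u : ZMod M) * ((w⁻¹ : (ZMod M)ˣ) : ZMod M)).val T hM
  refine le_trans (le_of_eq ?_) h
  refine congrArg Nat.cast (congrArg card (filter_congr fun t _ => ?_))
  rw [← ZMod.isUnit_iff_coprime, ← ZMod.isUnit_iff_coprime]
  push_cast
  rw [ZMod.natCast_zmod_val, ← hw]
  have e : (u : ZMod M) + t * (w : ZMod M) =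
      ((u : ZMod M) * ((w⁻¹ : (ZMod M)ˣ) : ZMod M) + t) * (w : ZMod M) := by
    rw [add_mul, mul_assoc, Units.inv_mul, mul_one]
  rw [e, Units.isUnit_mul_units]

end Pool.Agent.G55
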