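import Pool.Agent.MP_b5e119_nt.G55.Defs

/-! Row UNV: two-sided bound for the units below `Y` as soon as `M ≤ Y ^ 400`. -/

namespace Pool.Agent.G55

open Finset Filter Topology Pool.Agent.G60 Pool.Agent.G42
open Pool.Agent.G27 (UN)

theorem unv_phi (M : ℕ) (hM : 0 < M) : M ≤ #M.divisors * M.totient := by
  have h : ∑ d ∈ M.divisors, d.totient ≤ #M.divisors • M.totient :=
    sum_le_card_nsmul _ _ _ fun d hd =>
      Nat.le_of_dvd (Nat.totient_pos.2 hM) (Nat.totient_dvd_of_dvd (Nat.dvd_of_mem_divisors hd))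
  rwa [Nat.sum_totient, smul_eq_mul] at h

theorem unv_row (hW : UNU_s) (hU : G27.UNI_s) (hT : G27.TAU_s) (_hP : G27.PHI_s) : UNV_s := by
  obtain ⟨C, hC, hτ⟩ := hT.2 (1 / 1600) (by norm_num)
  refine ⟨⌈(100 * C ^ 2) ^ 800⌉₊ + 1, fun M Y hM hY => ?_⟩
  have hM0 : 0 < M := by omega
  have hMR : (0 : ℝ) < M := by exact_mod_cast hM0
  have hτM := hτ M
  obtain ⟨t, ht⟩ : ∃ t : ℝ, t = (M : ℝ) ^ (1 / 1600 : ℝ) := ⟨_, rfl⟩
  rw [← ht] at hτM
  have ht0 : 0 ≤ t := by rw [ht]; positivity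
  have ht1 : t ^ 1600 = M := by
    rw [ht, ← Real.rpow_natCast, ← Real.rpow_mul hMR.le]
    norm_num
  have h1 : 100 * C ^ 2 ≤ t ^ 2 := by
    refine le_of_pow_le_pow_left₀ (n := 800) (by norm_num) (by positivity) ?_
    rw [← pow_mul, ht1]
    refine (Nat.le_ceil _).trans ?_
    exact_mod_cast (by omega : ⌈(100 * C ^ 2) ^ 800⌉₊ ≤ M)
  have h2 : t ^ 4 ≤ Y := by
    refine le_of_pow_le_pow_left₀ (n := 400) (by norm_num) (by positivity) ?_
    rw [← pow_mul, ht1]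
    exact_mod_cast hY
  have h3 : (M : ℝ) ≤ #M.divisors * M.totient := by exact_mod_cast unv_phi M hM0
  have h4 := (hU M hM0).2 Y
  have hd0 : (0 : ℝ) ≤ #M.divisors := by positivity
  have hφ : (0 : ℝ) ≤ M.totient := by positivity
  have h5 : 100 * (#M.divisors : ℝ) ^ 2 ≤ Y := by
    have a1 : (#M.divisors : ℝ) ^ 2 ≤ (C * t) ^ 2 := pow_le_pow_left₀ hd0 hτM 2
    have a2 : 100 * C ^ 2 * t ^ 2 ≤ t ^ 2 * t ^ 2 := mul_le_mul_of_nonneg_right h1 (by positivity)
    calc 100 * (#M.divisors : ℝ) ^ 2 ≤ 100 * (C * t) ^ 2 := by linarith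
      _ = 100 * C ^ 2 * t ^ 2 := by ring
      _ ≤ t ^ 2 * t ^ 2 := a2
      _ = t ^ 4 := by ring
      _ ≤ Y := h2
  have h6 : 100 * (#M.divisors : ℝ) ≤ (Y : ℝ) * M.totient / M := by
    rw [le_div_iff₀ hMR]
    calc 100 * (#M.divisors : ℝ) * M ≤ 100 * #M.divisors * (#M.divisors * M.totient) :=
          mul_le_mul_of_nonneg_left h3 (by positivity)
      _ = 100 * (#M.divisors : ℝ) ^ 2 * M.totient := by ring
      _ ≤ Y * M.totient := mul_le_mul_of_nonneg_right h5 hφ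
  have h7 := hW M 1 1 Y hM0 (Nat.coprime_one_left M)
  have h8 : UN M Y ≤ #{t ∈ range Y | (1 + t * 1).Coprime M} := by
    unfold UN
    refine card_le_card_of_injOn (fun n => n - 1) (fun n hn => ?_) (fun a ha b hb h => ?_)
    · rw [mem_coe, mem_filter, mem_Icc] at hn
      have e : 1 + (n - 1) * 1 = n := by omega
      rw [mem_coe, mem_filter, mem_range]
      show n - 1 < Y ∧ (1 + (n - 1) * 1).Coprime M
      exact ⟨by omega, by rw [e]; exact hn.2⟩
    · rw [mem_coe, mem_filter, mem_Icc] at ha hb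
      have h' : a - 1 = b - 1 := h
      omega
  have h9 : (UN M Y : ℝ) ≤ #{t ∈ range Y | (1 + t * 1).Coprime M} := by exact_mod_cast h8
  have e1 : 2 * (Y : ℝ) * M.totient / M = 2 * ((Y : ℝ) * M.totient / M) := by ring
  have e2 : 99 / 100 * (Y : ℝ) * M.totient / M = 99 / 100 * ((Y : ℝ) * M.totient / M) := by ring
  rw [e1, e2]
  constructor <;> linarith

end Pool.Agent.G55
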