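import Pool.Agent.MP_b5e119_nt.G55.Defs
import Pool.Agent.MP_b5e119_nt.G42X.LIDX

namespace Pool.Agent.G55

open Finset Filter Topology Pool.Agent.G60 Pool.Agent.G42
open Pool.Agent.G27 (nu re EX UN re_unit re_nonunit)

theorem zn_mul {N : ℕ} {χ : Ch N} (hχ : χ ^ 2 = 1) {a b : ℕ} (h : a.Coprime b) :
    rx χ (a * b) = rx χ a * rx χ b := by
  have h1 : (lidx_chi χ).IsMultiplicative :=
    ⟨by rw [lidx_chi_apply χ one_ne_zero, lidx_one, Int.cast_one], fun _ => lidx_chi_mul χ hχ _ _⟩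
  rw [lidx_rx, lidx_rx, lidx_rx]
  exact (h1.mul ArithmeticFunction.isMultiplicative_zeta.natCast).map_mul_of_coprime h

theorem zn_str {N : ℕ} {χ : Ch N} (hχ : χ ^ 2 = 1) (n : ℕ) : ¬Sp χ n →
    rx χ n = 0 ∨ (rx χ n = 1 ∧ ∃ d s, d ∣ N ∧ n = d * s ^ 2) := by
  induction n using Nat.recOnPosPrimePosCoprime with
  | prime_pow p k hp hk =>
    intro h
    have e : rx χ (p ^ k) = ∑ i ∈ range (k + 1), (re χ p : ℝ) ^ i := by
      rw [rx, Nat.sum_divisors_prime_pow hp]
      exact sum_congr rfl fun i _ => by rw [lidx_pow χ hχ, Int.cast_pow]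
    rw [e]
    by_cases hN : p ∣ N
    · rw [re_nonunit χ fun c => (hp.coprime_iff_not_dvd.1 c) hN]
      refine Or.inr ⟨by simp [sum_range_succ'], ?_⟩
      rcases k.even_or_odd' with ⟨j, rfl | rfl⟩
      · exact ⟨1, p ^ j, one_dvd _, by ring⟩
      · exact ⟨p, p ^ j, hN, by ring⟩
    · rcases re_unit hχ (hp.coprime_iff_not_dvd.2 hN) with a | a
      · exact absurd ⟨p, hp, a, dvd_pow_self p hk.ne'⟩ h
      rw [a, Int.cast_neg, Int.cast_one, neg_one_geom_sum]
      rcases k.even_or_odd' with ⟨j, rfl | rfl⟩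
      · exact Or.inr ⟨if_neg (by simp [parity_simps]), 1, p ^ j, one_dvd _, by ring⟩
      · exact Or.inl (if_pos ⟨j + 1, by ring⟩)
  | zero => exact fun _ => Or.inl (by simp [rx])
  | one => exact fun _ => Or.inr ⟨by simp [rx, lidx_one], 1, 1, one_dvd _, rfl⟩
  | coprime a b _ _ h ia ib =>
    intro hs
    rw [zn_mul hχ h]
    rcases ia (fun ⟨q, x, y, z⟩ => hs ⟨q, x, y, z.mul_right _⟩) with e | ⟨e, d, s, h1, rfl⟩
    · exact Or.inl (by rw [e, zero_mul])
    rcases ib (fun ⟨q, x, y, z⟩ => hs ⟨q, x, y, z.mul_left _⟩) with e' | ⟨e', d', s', h2, rfl⟩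
    · exact Or.inl (by rw [e', mul_zero])
    exact Or.inr ⟨by rw [e, e', one_mul], d * d', s * s',
      (h.coprime_mul_right.coprime_mul_right_right).mul_dvd_of_dvd_of_dvd h1 h2, by ring⟩

theorem zn_phi (d m : ℕ) : (d * m).totient ≤ d * m.totient := by
  induction d using induction_on_primes with
  | zero => simp
  | one => simp
  | prime_mul p a hp ih =>
    rw [mul_assoc, mul_assoc]
    refine le_trans ?_ (Nat.mul_le_mul_left p ih)
    by_cases h : p ∣ a * m
    · exact (Nat.totient_mul_of_prime_of_dvd hp h).le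
    · rw [Nat.totient_mul_of_prime_of_not_dvd hp h]
      exact Nat.mul_le_mul_right _ (Nat.sub_le _ _)

theorem zn_div (N : ℕ) (hN : 0 < N) : ∑ d ∈ N.divisors, 1 / (d : ℝ) ≤ N / N.totient := by
  have h : (0 : ℝ) < N.totient := by exact_mod_cast Nat.totient_pos.2 hN
  have e : ∑ d ∈ N.divisors, ((N / d).totient : ℝ) = N := by
    rw [Nat.sum_div_divisors N fun d => (d.totient : ℝ)]
    exact_mod_cast Nat.sum_totient N
  rw [le_div_iff₀ h, sum_mul]
  refine le_trans (sum_le_sum fun d hd => ?_) e.le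
  have d0 : (0 : ℝ) < d := by exact_mod_cast Nat.pos_of_mem_divisors hd
  have := zn_phi d (N / d)
  rw [Nat.mul_div_cancel' (Nat.dvd_of_mem_divisors hd)] at this
  rw [one_div_mul_eq_div, div_le_iff₀' d0]
  exact_mod_cast this

theorem zn_row : ZN_s := by
  classical
  intro N _ χ x hχ
  have N0 : 0 < N := Nat.pos_of_ne_zero (NeZero.ne N)
  have h1 : ∑ n ∈ Icc 1 x with ¬Sp χ n, rx χ n / n ≤
      ∑ n ∈ (N.divisors ×ˢ Ioo 0 (x + 1)).image (fun z : ℕ × ℕ => (z.1 * z.2 ^ 2 : ℕ)),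
        1 / ((n : ℕ) : ℝ) := by
    rw [← sum_filter_ne_zero]
    refine le_trans (sum_le_sum (g := fun n : ℕ => 1 / (n : ℝ)) fun n hn => ?_)
      (sum_le_sum_of_subset_of_nonneg (fun n hn => ?_) fun _ _ _ => by positivity)
    all_goals
      obtain ⟨a, b⟩ := mem_filter.1 hn
      obtain ⟨a1, a2⟩ := mem_filter.1 a
      obtain ⟨e, d, s, c1, c2⟩ := (zn_str hχ n a2).resolve_left fun e => b (by rw [e, zero_div])
    · rw [e]
    · obtain ⟨n1, n2⟩ := mem_Icc.1 a1
      have s0 : s ≠ 0 := by rintro rfl; simp at c2; omega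
      have d0 : 0 < d := Nat.pos_of_dvd_of_pos c1 N0
      refine mem_image.2 ⟨(d, s), mem_product.2 ⟨Nat.mem_divisors.2 ⟨c1, N0.ne'⟩,
        mem_Ioo.2 ⟨Nat.pos_of_ne_zero s0, Nat.lt_succ_of_le (le_trans ?_ n2)⟩⟩, c2.symm⟩
      rw [c2]
      exact (Nat.le_self_pow two_ne_zero s).trans (Nat.le_mul_of_pos_left _ d0)
  refine h1.trans ((sum_image_le_of_nonneg fun _ _ => by positivity).trans ?_)
  rw [sum_product]
  have h2 := sum_Ioo_inv_sq_le (α := ℝ) 0 (x + 1)
  calc _ = (∑ d ∈ N.divisors, 1 / (d : ℝ)) * ∑ s ∈ Ioo 0 (x + 1), ((s : ℝ) ^ 2)⁻¹ := by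
        rw [sum_mul_sum]
        refine sum_congr rfl fun d _ => sum_congr rfl fun s _ => ?_
        push_cast
        rw [one_div, one_div, mul_inv]
    _ ≤ N / N.totient * 2 := mul_le_mul (zn_div N N0) (by simpa using h2) (by positivity)
        (by positivity)
    _ = _ := by ring

end Pool.Agent.G55
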