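import Pool.Agent.MP_b5e119_nt.G55.Defs

/-! Row ZS of campaign h55s: the numbers with a split prime factor. -/

namespace Pool.Agent.G55

open Finset Filter Topology Pool.Agent.G60 Pool.Agent.G42
open Pool.Agent.G27 (re re_mul)

theorem zs_img {N : ℕ} {χ : Ch N} (h2 : χ ^ 2 = 1) {q : ℕ} (hq : 0 < q) (hs : re χ q = 1) (m : ℕ) :
    ∑ d ∈ (q * m).divisors with q ∣ d, (re χ d : ℝ) = rx χ m := by
  have e : {d ∈ (q * m).divisors | q ∣ d} = m.divisors.image (q * ·) := by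
    ext d
    simp only [mem_filter, Nat.mem_divisors, mem_image]
    constructor
    · rintro ⟨⟨h, h0⟩, c, rfl⟩
      exact ⟨c, ⟨Nat.dvd_of_mul_dvd_mul_left hq h, right_ne_zero_of_mul h0⟩, rfl⟩
    · rintro ⟨c, ⟨h, h0⟩, rfl⟩
      exact ⟨⟨Nat.mul_dvd_mul_left q h, mul_ne_zero hq.ne' h0⟩, dvd_mul_right _ _⟩
  rw [e, sum_image fun a _ b _ h => Nat.eq_of_mul_eq_mul_left hq h, rx]
  exact sum_congr rfl fun d _ => by rw [re_mul h2, hs, one_mul]

theorem zs_mul {N : ℕ} {χ : Ch N} (h2 : χ ^ 2 = 1) (h0 : ∀ n, 0 ≤ rx χ n) {q : ℕ} (hq : q.Prime)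
    (hs : re χ q = 1) (n : ℕ) : rx χ (q * n) ≤ 2 * rx χ n := by
  have a := sum_filter_add_sum_filter_not (q * n).divisors (q ∣ ·) fun d => (re χ d : ℝ)
  have b := sum_filter_add_sum_filter_not n.divisors (q ∣ ·) fun d => (re χ d : ℝ)
  have e : {d ∈ (q * n).divisors | ¬q ∣ d} = {d ∈ n.divisors | ¬q ∣ d} := by
    ext d
    simp only [mem_filter, Nat.mem_divisors]
    refine and_congr_left fun h => ⟨fun k => ⟨((Nat.Prime.coprime_iff_not_dvd hq).2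
      h).symm.dvd_of_dvd_mul_left k.1, right_ne_zero_of_mul k.2⟩,
      fun k => ⟨k.1.mul_left q, mul_ne_zero hq.ne_zero k.2⟩⟩
  have c : 0 ≤ ∑ d ∈ n.divisors with q ∣ d, (re χ d : ℝ) := by
    by_cases h : q ∣ n
    · obtain ⟨m, rfl⟩ := h
      rw [zs_img h2 hq.pos hs]
      exact h0 m
    · rw [filter_false_of_mem fun d hd k => h (k.trans (Nat.dvd_of_mem_divisors hd)), sum_empty]
  rw [zs_img h2 hq.pos hs, e] at a
  unfold rx at a ⊢
  linarith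

theorem zs_row (hL : LIDX_s) : ZS_s := by
  classical
  intro N _ χ x h2
  have h0 := (hL N χ h2).1
  have p0 : ∀ n : ℕ, 0 ≤ rx χ n / n := fun n => div_nonneg (h0 n) (Nat.cast_nonneg n)
  obtain ⟨Q, hQ⟩ : ∃ Q, Q = {q ∈ Icc 1 x | q.Prime ∧ re χ q = 1} := ⟨_, rfl⟩
  have a1 : ∑ n ∈ Icc 1 x with Sp χ n, rx χ n / n ≤
      ∑ n ∈ Icc 1 x, ∑ q ∈ Q, if q ∣ n then rx χ n / n else 0 := by
    rw [sum_filter]
    refine sum_le_sum fun n hn => ?_
    have p1 : ∀ q ∈ Q, 0 ≤ if q ∣ n then rx χ n / n else 0 := fun q _ => by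
      split_ifs
      exacts [p0 n, le_rfl]
    split_ifs with h
    · obtain ⟨q, q1, q2, q3⟩ := h
      rw [mem_Icc] at hn
      refine le_trans ?_ (single_le_sum p1 (a := q) ?_)
      · rw [if_pos q3]
      · rw [hQ, mem_filter, mem_Icc]
        exact ⟨⟨q1.pos, (Nat.le_of_dvd hn.1 q3).trans hn.2⟩, q1, q2⟩
    · exact sum_nonneg p1
  refine le_trans (le_of_eq (by congr)) (a1.trans ?_)
  rw [sum_comm, SL, ← hQ, mul_sum, sum_mul]
  refine sum_le_sum fun q hq => ?_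
  rw [hQ, mem_filter] at hq
  obtain ⟨-, q1, q2⟩ := hq
  rw [← sum_filter, ZX, mul_sum]
  have s : {n ∈ Icc 1 x | q ∣ n} ⊆ (Icc 1 x).image (q * ·) := fun n hn => by
    obtain ⟨hn, c, rfl⟩ := mem_filter.1 hn
    rw [mem_Icc] at hn
    exact mem_image.2 ⟨c, mem_Icc.2 ⟨Nat.pos_of_mul_pos_left hn.1,
      (Nat.le_mul_of_pos_left c q1.pos).trans hn.2⟩, rfl⟩
  refine (sum_le_sum_of_subset_of_nonneg s fun n _ _ => p0 n).trans ?_
  rw [sum_image fun a _ b _ h => Nat.eq_of_mul_eq_mul_left q1.pos h]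
  refine sum_le_sum fun n _ => ?_
  refine (div_le_div_of_nonneg_right (zs_mul h2 h0 q1 q2 n) (Nat.cast_nonneg _)).trans
    (le_of_eq ?_)
  push_cast
  ring

end Pool.Agent.G55
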