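import Pool.Agent.MP_b5e119_nt.G42A.Main
import Pool.Agent.MP_b5e119_nt.G55.BADU
import Pool.Agent.MP_b5e119_nt.G55.BRG
import Pool.Agent.MP_b5e119_nt.G55.CLS
import Pool.Agent.MP_b5e119_nt.G55.DIRA
import Pool.Agent.MP_b5e119_nt.G55.DIRB
import Pool.Agent.MP_b5e119_nt.G55.DIRC
import Pool.Agent.MP_b5e119_nt.G55.GUD
import Pool.Agent.MP_b5e119_nt.G55.HU
import Pool.Agent.MP_b5e119_nt.G55.INVM
import Pool.Agent.MP_b5e119_nt.G55.LEV3
import Pool.Agent.MP_b5e119_nt.G55.MLE
import Pool.Agent.MP_b5e119_nt.G55.NSL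
import Pool.Agent.MP_b5e119_nt.G55.ONE
import Pool.Agent.MP_b5e119_nt.G55.SCS
import Pool.Agent.MP_b5e119_nt.G55.SIG
import Pool.Agent.MP_b5e119_nt.G55.SLG
import Pool.Agent.MP_b5e119_nt.G55.SMID
import Pool.Agent.MP_b5e119_nt.G55.SML
import Pool.Agent.MP_b5e119_nt.G55.TOPS
import Pool.Agent.MP_b5e119_nt.G55.UNU
import Pool.Agent.MP_b5e119_nt.G55.UNV
import Pool.Agent.MP_b5e119_nt.G55.ZN
import Pool.Agent.MP_b5e119_nt.G55.ZS

/-! Assembly of the count with the order of `L(1, χ) log N`. -/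

namespace Pool.Agent.G55

open Pool.Agent.G60 Pool.Agent.G42

theorem spta : SPTA_s :=
  spta_row dya_row maj_row (scaa_row dya_row maj_row pairx_row siza)
    (scba_row dya_row maj_row pairx_row siza) blr_row

theorem unv : UNV_s := unv_row unu_row G27.uni_row G27.tau_row G27.phi

theorem badu : BADU_s :=
  badu_row unu_row (hu_row (svv_row svr_row dya_row)) G27.tau_row G27.phi

theorem scs : SCS_s := scs_row pairx_row siza spta dya_row unv

theorem smid : SMID_s := smid_row (sml_row scs siza unv) spta brg_row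

theorem gud : GUD_s := gud_row badu G27.uni_row G27.tau_row dya_row nsl_row

theorem mle : MLE_s :=
  mle_row (rasx_row (raax_row hyp_row G27.burgg tail_row)) lidx_row zn_row (zs_row lidx_row)
    G27.tau_row G27.phi sq_row

theorem dirc : DIRC_s :=
  dirc_row (dira_row (G27.fin1g_row G27.tau_row G27.phi G27.uni_row G27.burgg) siza dya_row)
    (dirb_row unu_row G27.tau_row G27.phi) badu nsl_row

theorem tops : TOPS_s :=
  tops_row (fun i => invm_row odx G1A.feww (lev3_row G1A.lev1_row G27.tau_row) enda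
      (npr_row (lio_row sq_row hyp_row lio1_row) G27.tau_row G27.phi) stra_row)
    (one_row (slg_row smid (sig_row smid scs gud brg_row) gud) dirc mle) cls_row

end Pool.Agent.G55
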