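import Pool.Agent.MP_b5e119_nt.G55.Defs

namespace Pool.Agent.G55

open Finset Filter Topology Pool.Agent.G60 Pool.Agent.G42
open Pool.Agent.G27 (nu re EX UN)

theorem nsl_row : NSL_s := by
  intro M χ u h2
  induction u using induction_on_primes with
  | zero => intro h; exact absurd h (lt_irrefl 0)
  | one => intro _ _ _; simp [lam, re]
  | prime_mul p a hp ih =>
    intro h0 hc hs
    have ha : a ≠ 0 := by
      rintro rfl
      simp at h0
    have hpc : p.Coprime M := Nat.Coprime.coprime_mul_right hc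
    have hac : a.Coprime M := Nat.Coprime.coprime_mul_left hc
    have h1 : re χ p = -1 :=
      (G27.re_unit h2 hpc).resolve_left fun h => hs ⟨p, hp, h, Dvd.intro a rfl⟩
    have h3 : lam a = re χ a := ih (Nat.pos_of_ne_zero ha) hac
      fun ⟨q, hq, hr, hd⟩ => hs ⟨q, hq, hr, Dvd.dvd.mul_left hd p⟩
    rw [lam_mul hp.ne_zero ha, G27.re_mul h2, lam_prime hp, h1, h3]

end Pool.Agent.G55
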